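import Pool.Agent.helper91.SW.Gen
import Pool.Agent.helper90.FP.LRW
import Pool.Agent.helper90.FP.LInv

/-!
# Self-avoiding walks in high dimensions: the bootstrap
-/

set_option autoImplicit false

open Finset Filter Topology MeasureTheory
open Pool.Agent.helper55.FP hiding chi

namespace Pool.Agent.helper91.SW

variable {d : ℕ} {z : ℝ}

theorem c_succ_le (n : ℕ) (x : V d) : c (n + 1) x ≤ conv (pJ 1) (c n) x := by
  have h1 : conv (pJ 1) (c n) x = ∑ s : Fin d × Bool, c n (x - nb s) := by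
    unfold conv
    rw [LCt_tsum, one_mul, Fintype.sum_prod_type]
    refine Finset.sum_congr rfl fun i _ => ?_
    simp [nb, LCt_nb]
  rw [h1, c, A]
  refine Finset.sum_le_sum fun s _ => ?_
  rw [zero_add]
  split_ifs
  · exact c_nonneg _ _
  · exact A_le_c n (Finset.mem_insert_self _ _) x

theorem conv_pJ (p : ℝ) (f : V d → ℝ) (x : V d) : conv (pJ p) f x = p * conv (pJ 1) f x := by
  unfold conv
  rw [LCt_tsum, LCt_tsum, one_mul]

/-- one step of the power estimate -/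
theorem pow_step (h : Sub d z) {W W' : ℕ → ℝ} (hW0 : ∀ i, 0 ≤ W i)
    (hW : ∀ i, W' i ≤ ∑ a ∈ range (i + 1), W a) {F : V d → ℝ} (hF : Summable F)
    (hF0 : ∀ M x, ∑ i ∈ range M, W i * z ^ i * c i x ≤ F x) (M : ℕ) (x : V d) :
    ∑ i ∈ range M, W' i * z ^ i * c i x ≤ conv (G z) F x := by
  have hz := h.nn
  have h1 : ∑ i ∈ range M, W' i * z ^ i * c i x ≤
      ∑ i ∈ range M, ∑ a ∈ range (i + 1), W a * z ^ a * (z ^ (i - a) *
        conv (c (i - a)) (c a) x) := by
    refine Finset.sum_le_sum fun i _ => ?_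
    have h2 : W' i * z ^ i * c i x ≤ (∑ a ∈ range (i + 1), W a) * z ^ i * c i x :=
      mul_le_mul_of_nonneg_right (mul_le_mul_of_nonneg_right (hW i) (pow_nonneg hz i))
        (c_nonneg _ _)
    refine h2.trans ?_
    rw [Finset.sum_mul, Finset.sum_mul]
    refine Finset.sum_le_sum fun a ha => ?_
    rw [Finset.mem_range] at ha
    have e1 : z ^ i = z ^ a * z ^ (i - a) := by rw [← pow_add]; congr 1; omega
    have e2 : c i x ≤ conv (c (i - a)) (c a) x := by
      have := c_submul (i - a) a x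
      rwa [show i - a + a = i by omega] at this
    rw [e1]
    calc W a * (z ^ a * z ^ (i - a)) * c i x = W a * z ^ a * (z ^ (i - a) * c i x) := by ring
      _ ≤ W a * z ^ a * (z ^ (i - a) * conv (c (i - a)) (c a) x) :=
          mul_le_mul_of_nonneg_left (mul_le_mul_of_nonneg_left e2 (pow_nonneg hz _))
            (mul_nonneg (hW0 a) (pow_nonneg hz _))
  have h2 := Finset.sum_range_diag_flip M (fun a b => W a * z ^ a * (z ^ b *
        conv (c b) (c a) x))
  rw [h2] at h1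
  refine h1.trans ?_
  have h3 : ∑ a ∈ range M, ∑ b ∈ range (M - a), W a * z ^ a * (z ^ b * conv (c b) (c a) x) ≤
      ∑ a ∈ range M, ∑ b ∈ range M, W a * z ^ a * (z ^ b * conv (c b) (c a) x) := by
    refine Finset.sum_le_sum fun a _ => ?_
    refine Finset.sum_le_sum_of_subset_of_nonneg (Finset.range_mono (by omega)) fun b _ _ => ?_
    have := hW0 a
    have := conv_nonneg (c_nonneg b) (c_nonneg (d := d) a) x
    positivity
  refine h3.trans ?_
  have hs : ∀ a b, Summable (fun y : V d => W a * z ^ a * (z ^ b * (c b y * c a (x - y)))) :=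
    fun a b => ((conv_point_summable (c_summable b) (c_summable a) x).mul_left _).mul_left _
  have h4 : ∑ a ∈ range M, ∑ b ∈ range M, W a * z ^ a * (z ^ b * conv (c b) (c a) x) =
      ∑' y, (∑ b ∈ range M, c b y * z ^ b) * (∑ a ∈ range M, W a * z ^ a * c a (x - y)) := by
    have e1 : ∀ a b, W a * z ^ a * (z ^ b * conv (c b) (c a) x) =
        ∑' y : V d, W a * z ^ a * (z ^ b * (c b y * c a (x - y))) := by
      intro a b
      unfold conv
      rw [tsum_mul_left, tsum_mul_left]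
    simp only [e1]
    rw [Finset.sum_congr rfl fun a _ => (Summable.tsum_finsetSum fun b _ => hs a b).symm,
      ← Summable.tsum_finsetSum fun a _ => summable_sum fun b _ => hs a b]
    refine tsum_congr fun y => ?_
    rw [Finset.mul_sum]
    refine Finset.sum_congr rfl fun a _ => ?_
    rw [Finset.sum_mul]
    refine Finset.sum_congr rfl fun b _ => ?_
    ring
  rw [h4]
  unfold conv
  have hnn : ∀ y : V d, 0 ≤ ∑ a ∈ range M, W a * z ^ a * c a y := fun y =>
    Finset.sum_nonneg fun a _ => mul_nonneg (mul_nonneg (hW0 a) (pow_nonneg hz _)) (c_nonneg _ _)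
  have hle : ∀ y : V d, (∑ b ∈ range M, c b y * z ^ b) *
      (∑ a ∈ range M, W a * z ^ a * c a (x - y)) ≤ G z y * F (x - y) := fun y =>
    mul_le_mul (h.partial_le M y) (hF0 M (x - y)) (hnn _) (h.G_nonneg y)
  have hsum := conv_point_summable h.G_summable hF x
  refine Summable.tsum_le_tsum hle (Summable.of_nonneg_of_le (fun y => ?_) hle hsum) hsum
  exact mul_nonneg (Finset.sum_nonneg fun b _ => mul_nonneg (c_nonneg _ _) (pow_nonneg hz _))
    (hnn _)

/-- cubic weights are bounded by the fourth convolution power -/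
theorem cube_le (h : Sub d z) (M : ℕ) (x : V d) :
    ∑ i ∈ range M, ((1 + i : ℝ) ^ 3 / 6) * z ^ i * c i x ≤ cpow (G z) 4 x := by
  have h1 : ∀ M x, ∑ i ∈ range M, (fun _ => (1 : ℝ)) i * z ^ i * c i x ≤
      (cpow (G z) 1 : V d → ℝ) x := by
    intro M x
    rw [cpow_one]
    refine le_trans (le_of_eq ?_) (h.partial_le M x)
    refine Finset.sum_congr rfl fun i _ => by ring
  have h2 : ∀ M x, ∑ i ∈ range M, (fun i : ℕ => (1 + i : ℝ)) i * z ^ i * c i x ≤
      (cpow (G z) 2 : V d → ℝ) x :=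
    pow_step h (fun i => zero_le_one) (fun i => by simp [add_comm]) (cpow_summable h.G_summable 1) h1
  have h3 : ∀ M x, ∑ i ∈ range M, (fun i : ℕ => (1 + i : ℝ) ^ 2 / 2) i * z ^ i * c i x ≤
      (cpow (G z) 3 : V d → ℝ) x := by
    refine pow_step h (fun i => by positivity) (fun i => ?_) (cpow_summable h.G_summable 2) h2
    induction i with
    | zero => norm_num
    | succ i ih =>
      rw [Finset.sum_range_succ]
      push_cast
      have : (0 : ℝ) ≤ i := Nat.cast_nonneg i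
      nlinarith
  refine pow_step h (W' := fun i : ℕ => (1 + i : ℝ) ^ 3 / 6) (fun i => by positivity) (fun i => ?_)
    (cpow_summable h.G_summable 3) h3 M x
  induction i with
  | zero => norm_num
  | succ i ih =>
    rw [Finset.sum_range_succ]
    push_cast
    have : (0 : ℝ) ≤ i := Nat.cast_nonneg i
    nlinarith [ih, sq_nonneg (i : ℝ)]

theorem H3_le (h : Sub d z) {s : ℝ} (hs : ∀ x : V d, conv (pJ z) (cpow (G z) 4) x ≤ s) (M : ℕ)
    {x : V d} (hx : x ≠ 0) : H3 z M x ≤ 48 * s := by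
  have hz := h.nn
  have h0 : c 0 x = 0 := by
    rw [c_zero]; simp [dirac0, hx]
  unfold H3
  rw [Finset.sum_range_succ', h0, mul_zero, add_zero]
  have h1 : ∑ i ∈ range M, (1 + ((i + 1 : ℕ) : ℝ)) ^ 3 * z ^ (i + 1) * c (i + 1) x ≤
      ∑ i ∈ range M, 48 * z * (((1 + i : ℝ) ^ 3 / 6) * z ^ i * conv (pJ 1) (c i) x) := by
    refine Finset.sum_le_sum fun i _ => ?_
    have e1 : (1 + ((i + 1 : ℕ) : ℝ)) ^ 3 ≤ 8 * (1 + i : ℝ) ^ 3 := by
      have e2 : (1 + ((i + 1 : ℕ) : ℝ)) ≤ 2 * (1 + i : ℝ) := by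
        push_cast
        have : (0 : ℝ) ≤ i := Nat.cast_nonneg i
        linarith
      calc (1 + ((i + 1 : ℕ) : ℝ)) ^ 3 ≤ (2 * (1 + i : ℝ)) ^ 3 :=
            pow_le_pow_left₀ (by positivity) e2 3
        _ = 8 * (1 + i : ℝ) ^ 3 := by ring
    have e3 := c_succ_le i x
    have e4 : 0 ≤ conv (pJ 1) (c i) x := conv_nonneg (pJ_nonneg zero_le_one) (c_nonneg i) x
    calc (1 + ((i + 1 : ℕ) : ℝ)) ^ 3 * z ^ (i + 1) * c (i + 1) x
        ≤ 8 * (1 + i : ℝ) ^ 3 * z ^ (i + 1) * conv (pJ 1) (c i) x :=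
          mul_le_mul (mul_le_mul_of_nonneg_right e1 (by positivity)) e3 (c_nonneg _ _)
            (by positivity)
      _ = _ := by ring
  refine h1.trans ?_
  have h2 : ∑ i ∈ range M, 48 * z * (((1 + i : ℝ) ^ 3 / 6) * z ^ i * conv (pJ 1) (c i) x) =
      48 * conv (pJ z) (fun y => ∑ i ∈ range M, ((1 + i : ℝ) ^ 3 / 6) * z ^ i * c i y) x := by
    rw [conv_pJ, ← Finset.mul_sum]
    have e : conv (pJ 1) (fun y => ∑ i ∈ range M, ((1 + i : ℝ) ^ 3 / 6) * z ^ i * c i y) x =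
        ∑ i ∈ range M, ((1 + i : ℝ) ^ 3 / 6) * z ^ i * conv (pJ 1) (c i) x := by
      unfold conv
      simp only [LCt_tsum, one_mul]
      simp only [Finset.mul_sum]
      rw [Finset.sum_comm]
      refine Finset.sum_congr rfl fun i _ => ?_
      rw [← Finset.sum_add_distrib]
      refine Finset.sum_congr rfl fun a _ => ?_
      ring
    rw [e]
    ring
  rw [h2]
  have h3 : conv (pJ z) (fun y => ∑ i ∈ range M, ((1 + i : ℝ) ^ 3 / 6) * z ^ i * c i y) x ≤
      conv (pJ z) (cpow (G z) 4) x :=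
    conv_mono (pJ_summable z) (cpow_summable h.G_summable 4) (pJ_nonneg hz)
      (fun y => Finset.sum_nonneg fun i _ => mul_nonneg (by positivity) (c_nonneg _ _))
      (fun y => le_rfl) (fun y => cube_le h M y) x
  linarith [hs x]

/-- bound on the lace coefficients -/
def PiB (d : ℕ) (z ε : ℝ) : Prop :=
  ∀ M, ∑ m ∈ range M, (2 + m : ℝ) ^ 2 * z ^ (m + 1) * npi d m ≤ ε

theorem Sub.two_d_z (h : Sub d z) : 2 * d * z ≤ 2 := by
  have h1 := mul_le_mul_of_nonneg_left (le_mu h.hd) h.nn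
  have := h.lt
  linarith

theorem PiB_of (h : Sub d z) {s : ℝ} (hs : ∀ x : V d, conv (pJ z) (cpow (G z) 4) x ≤ s)
    (hs1 : 48 * s ≤ 1) : PiB d z (384 * s) := by
  intro M
  have hz := h.nn
  have hH : ∀ x : V d, x ≠ 0 → H3 z M x ≤ 1 := fun x hx => (H3_le h hs M hx).trans hs1
  have h1 := pi_bound hz M hH
  have h2 : ∑ s' : Fin d × Bool, H3 z M (nb s' : V d) ≤ 2 * d * (48 * s) := by
    refine (Finset.sum_le_sum fun s' _ => H3_le h hs M (nb_ne_zero s')).trans (le_of_eq ?_)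
    rw [Finset.sum_const, Finset.card_univ, nsmul_eq_mul, Fintype.card_prod, Fintype.card_fin,
      Fintype.card_bool]
    push_cast
    ring
  have hs0 : 0 ≤ s := le_trans (conv_nonneg (pJ_nonneg hz) (cpow_nonneg h.G_nonneg 4) 0) (hs 0)
  have h3 : ∑ m ∈ range M, (2 + m : ℝ) ^ 2 * z ^ (m + 1) * npi d m ≤
      4 * z * ∑ m ∈ range (M + 1), (1 + m : ℝ) ^ 2 * z ^ m * npi d m := by
    rw [Finset.mul_sum]
    refine le_trans ?_ (Finset.sum_le_sum_of_subset_of_nonneg (Finset.range_mono (Nat.le_succ M))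
      fun m _ _ => ?_)
    · refine Finset.sum_le_sum fun m _ => ?_
      have e1 : (2 + m : ℝ) ^ 2 ≤ 4 * (1 + m : ℝ) ^ 2 := by
        have : (0 : ℝ) ≤ m := Nat.cast_nonneg m
        nlinarith
      have e2 := npi_nonneg (d := d) m
      calc (2 + m : ℝ) ^ 2 * z ^ (m + 1) * npi d m ≤ 4 * (1 + m : ℝ) ^ 2 * z ^ (m + 1) * npi d m :=
            mul_le_mul_of_nonneg_right (mul_le_mul_of_nonneg_right e1 (by positivity)) e2
        _ = _ := by ring
    · have e2 := npi_nonneg (d := d) m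
      positivity
  refine h3.trans ?_
  have h4 : 4 * z * ∑ m ∈ range (M + 1), (1 + m : ℝ) ^ 2 * z ^ m * npi d m ≤
      4 * z * (2 * d * (48 * s)) := mul_le_mul_of_nonneg_left (h1.trans h2) (by positivity)
  have h5 := h.two_d_z
  have h6 : 4 * z * (2 * d * (48 * s)) = (2 * d * z) * (192 * s) := by ring
  rw [h6] at h4
  have h7 : (2 * d * z) * (192 * s) ≤ 2 * (192 * s) :=
    mul_le_mul_of_nonneg_right h5 (by positivity)
  linarith

/-! ## consequences of `PiB` -/

section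

variable {ε : ℝ}

theorem PiB.summable (hz : 0 ≤ z) (hP : PiB d z ε) :
    Summable fun m : ℕ => (2 + m : ℝ) ^ 2 * z ^ (m + 1) * npi d m :=
  summable_of_sum_range_le (fun m => mul_nonneg (by positivity) (npi_nonneg m)) hP

theorem PiB.tsum_le (hz : 0 ≤ z) (hP : PiB d z ε) :
    ∑' m : ℕ, (2 + m : ℝ) ^ 2 * z ^ (m + 1) * npi d m ≤ ε :=
  Real.tsum_le_of_sum_range_le (fun m => mul_nonneg (by positivity) (npi_nonneg m)) hP

theorem pib_term (hz : 0 ≤ z) (m : ℕ) (k : Fin d → ℝ) :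
    |ct (pi m : V d → ℝ) k * z ^ (m + 1)| ≤ (2 + m : ℝ) ^ 2 * z ^ (m + 1) * npi d m := by
  rw [abs_mul, abs_of_nonneg (by positivity : 0 ≤ z ^ (m + 1))]
  have h1 := abs_ct_pi_le (d := d) m k
  have h2 : (1 : ℝ) ≤ (2 + m : ℝ) ^ 2 := by
    have : (0 : ℝ) ≤ m := Nat.cast_nonneg m
    nlinarith
  have h3 := npi_nonneg (d := d) m
  calc |ct (pi m : V d → ℝ) k| * z ^ (m + 1) ≤ npi d m * z ^ (m + 1) :=
        mul_le_mul_of_nonneg_right h1 (by positivity)
    _ = 1 * z ^ (m + 1) * npi d m := by ring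
    _ ≤ (2 + m : ℝ) ^ 2 * z ^ (m + 1) * npi d m :=
        mul_le_mul_of_nonneg_right (mul_le_mul_of_nonneg_right h2 (by positivity)) h3

/-- Fourier transform of the generating function of the lace coefficients -/
noncomputable def ph (d : ℕ) (z : ℝ) (k : Fin d → ℝ) : ℝ :=
  ∑' m : ℕ, ct (pi m : V d → ℝ) k * z ^ (m + 1)

theorem PiB.ph_summable (hz : 0 ≤ z) (hP : PiB d z ε) (k : Fin d → ℝ) :
    Summable fun m : ℕ => ct (pi m : V d → ℝ) k * z ^ (m + 1) :=
  Summable.of_norm_bounded (hP.summable hz) fun m => pib_term hz m k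

theorem PiB.abs_ph_le (hz : 0 ≤ z) (hP : PiB d z ε) (k : Fin d → ℝ) : |ph d z k| ≤ ε := by
  refine le_trans ?_ (hP.tsum_le hz)
  have h1 := norm_tsum_le_tsum_norm (hP.ph_summable hz k).norm
  refine h1.trans (Summable.tsum_le_tsum (fun m => pib_term hz m k) (hP.ph_summable hz k).norm
    (hP.summable hz))

theorem pib_sub_term (hd : 1 ≤ d) (hz : 0 ≤ z) (m : ℕ) (k : Fin d → ℝ) :
    |ct (pi m : V d → ℝ) 0 * z ^ (m + 1) - ct (pi m : V d → ℝ) k * z ^ (m + 1)| ≤
      (2 + m : ℝ) ^ 2 * z ^ (m + 1) * npi d m * (1 - Dh k) := by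
  rw [← sub_mul, abs_mul, abs_of_nonneg (by positivity : 0 ≤ z ^ (m + 1))]
  have h1 := mul_le_mul_of_nonneg_right (ct_pi_sub hd m k) (by positivity : 0 ≤ z ^ (m + 1))
  linarith

theorem PiB.abs_ph_sub_le (hd : 1 ≤ d) (hz : 0 ≤ z) (hP : PiB d z ε) (k : Fin d → ℝ) :
    |ph d z 0 - ph d z k| ≤ ε * (1 - Dh k) := by
  unfold ph
  rw [← (hP.ph_summable hz 0).tsum_sub (hP.ph_summable hz k)]
  have hs := (hP.ph_summable hz 0).sub (hP.ph_summable hz k)
  refine (norm_tsum_le_tsum_norm hs.norm).trans ?_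
  refine (Summable.tsum_le_tsum (fun m => pib_sub_term hd hz m k) hs.norm
    ((hP.summable hz).mul_right _)).trans ?_
  rw [tsum_mul_right]
  have hD : 0 ≤ 1 - Dh k := by linarith [(abs_le.1 (abs_Dh_le_one k)).2]
  exact mul_le_mul_of_nonneg_right (hP.tsum_le hz) hD

end

/-! ## the equation in Fourier space -/

theorem Sub.ct_summable (h : Sub d z) (k : Fin d → ℝ) :
    Summable fun n : ℕ => |ct (c n : V d → ℝ) k * z ^ n| := by
  refine Summable.of_nonneg_of_le (fun n => abs_nonneg _) (fun n => ?_) h.summable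
  rw [abs_mul, abs_of_nonneg (pow_nonneg h.nn n)]
  exact mul_le_mul_of_nonneg_right (abs_ct_c_le n k) (pow_nonneg h.nn n)

theorem Sub.ct_G (h : Sub d z) (k : Fin d → ℝ) :
    ct (G z : V d → ℝ) k = ∑' n : ℕ, ct (c n : V d → ℝ) k * z ^ n := by
  have h1 : Summable (Function.uncurry fun (n : ℕ) (x : V d) =>
      c n x * z ^ n * Real.cos (dotk k x)) := by
    refine Summable.of_norm_bounded h.prod fun p => ?_
    obtain ⟨n, x⟩ := p
    simp only [Function.uncurry_apply_pair]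
    rw [Real.norm_eq_abs, abs_mul, abs_of_nonneg (mul_nonneg (c_nonneg n x) (pow_nonneg h.nn n))]
    exact mul_le_of_le_one_right (mul_nonneg (c_nonneg n x) (pow_nonneg h.nn n))
      (Real.abs_cos_le_one _)
  unfold ct G
  have e1 : ∀ x : V d, (∑' n : ℕ, c n x * z ^ n) * Real.cos (dotk k x) =
      ∑' n : ℕ, c n x * z ^ n * Real.cos (dotk k x) := fun x => tsum_mul_right.symm
  rw [tsum_congr e1, h1.tsum_comm]
  refine tsum_congr fun n => ?_
  rw [← tsum_mul_right]
  refine tsum_congr fun x => ?_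
  ring

theorem Sub.eqn (h : Sub d z) {ε : ℝ} (hP : PiB d z ε) (k : Fin d → ℝ) :
    (1 - 2 * d * z * Dh k - ph d z k) * ct (G z : V d → ℝ) k = 1 := by
  rw [h.ct_G]
  set a : ℕ → ℝ := fun n => ct (c n : V d → ℝ) k * z ^ n with ha
  set p : ℕ → ℝ := fun m => ct (pi m : V d → ℝ) k * z ^ (m + 1) with hp
  have hsa : Summable a := (h.ct_summable k).of_abs
  have hsp : Summable p := hP.ph_summable h.nn k
  have hcauchy := tsum_mul_tsum_eq_tsum_sum_range_of_summable_norm hsp.norm hsa.norm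
  have hrec : ∀ n, a (n + 1) = 2 * d * z * Dh k * a n + ∑ m ∈ range (n + 1), p m * a (n - m) := by
    intro n
    simp only [ha, hp]
    rw [ct_lace, add_mul, Finset.sum_mul]
    congr 1
    · ring
    · refine Finset.sum_congr rfl fun m hm => ?_
      rw [Finset.mem_range] at hm
      have : z ^ (n + 1) = z ^ (m + 1) * z ^ (n - m) := by
        rw [← pow_add]; congr 1; omega
      rw [this]
      ring
  have hconv : Summable fun n => ∑ m ∈ range (n + 1), p m * a (n - m) :=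
    (summable_norm_sum_mul_range_of_summable_norm hsp.norm hsa.norm).of_norm
  have h0 : a 0 = 1 := by simp [ha, ct_c_zero]
  have h1 : ∑' n, a n = 1 + (2 * d * z * Dh k * ∑' n, a n + (∑' m, p m) * ∑' n, a n) := by
    conv_lhs => rw [hsa.tsum_eq_zero_add, h0]
    congr 1
    rw [tsum_congr hrec, (hsa.mul_left _).tsum_add hconv, tsum_mul_left, hcauchy]
  have h2 : ph d z k = ∑' m, p m := rfl
  rw [h2]
  linarith

theorem Dh_zero (hd : 1 ≤ d) : Dh (0 : Fin d → ℝ) = 1 := by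
  have : (d : ℝ) ≠ 0 := by positivity
  simp [Dh, this]

theorem Sub.eqn0 (h : Sub d z) {ε : ℝ} (hP : PiB d z ε) :
    (1 - 2 * d * z - ph d z 0) * chi d z = 1 := by
  have h1 := h.eqn hP 0
  rw [Dh_zero h.hd, ct_zero, h.tsum_G, mul_one] at h1
  exact h1

/-- the infrared bound -/
theorem Sub.infrared (h : Sub d z) {ε : ℝ} (hP : PiB d z ε) (hε : ε ≤ 1 / 9) (k : Fin d → ℝ) :
    0 ≤ ct (G z : V d → ℝ) k ∧ ct (G z : V d → ℝ) k * (1 - Dh k) ≤ 3 := by
  have hχ := h.one_le_chi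
  have h0 := h.eqn0 hP
  have hk := h.eqn hP k
  set T := ct (G z : V d → ℝ) k
  set a : ℝ := 2 * d * z with ha
  have ha0 : 0 ≤ a := by have := h.nn; positivity
  have hg := abs_le.1 (hP.abs_ph_le h.nn (0 : Fin d → ℝ))
  have hdiff := abs_le.1 (hP.abs_ph_sub_le h.hd h.nn k)
  obtain ⟨hD1, hD2⟩ := abs_le.1 (abs_Dh_le_one k)
  have hlam : 0 < 1 - a - ph d z 0 := by
    by_contra hcon
    rw [not_lt] at hcon
    nlinarith
  have hε0 : 0 ≤ ε := by linarith
  have hD3 : 0 ≤ 1 - Dh k := by linarith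
  have hF : (1 - Dh k) / 3 ≤ 1 - a * Dh k - ph d z k := by
    have e1 : 1 - a * Dh k - ph d z k = (1 - a - ph d z 0) + a * (1 - Dh k) +
        (ph d z 0 - ph d z k) := by ring
    have e2 : (1 - a - ph d z 0) * ((1 - Dh k) / 2) ≤ (1 - a - ph d z 0) * 1 :=
      mul_le_mul_of_nonneg_left (by linarith) hlam.le
    rw [e1]
    nlinarith
  have hFpos : 0 < 1 - a * Dh k - ph d z k := by
    rcases eq_or_lt_of_le hD3 with h7 | h7
    · have h8 : Dh k = 1 := by linarith
      rw [← h7, mul_zero] at hdiff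
      rw [h8]
      linarith
    · linarith
  have hTpos : 0 < T := by
    by_contra hcon
    rw [not_lt] at hcon
    nlinarith
  refine ⟨hTpos.le, ?_⟩
  have e3 : (1 - Dh k) / 3 * T ≤ (1 - a * Dh k - ph d z k) * T :=
    mul_le_mul_of_nonneg_right hF hTpos.le
  linarith

theorem Sub.conv_le (h : Sub d z) {ε : ℝ} (hP : PiB d z ε) (hε : ε ≤ 1 / 9) (hd : 32 ≤ d)
    (x : V d) : conv (pJ z) (cpow (G z) 4) x ≤
      2 * (3 ^ 4 * Real.exp 16 / Real.sqrt (2 * d)) := by
  have hG := h.G_summable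
  have hGe : ∀ x : V d, G z (-x) = G z x := G_even z
  have hz := h.nn
  obtain ⟨hI, hI2⟩ := int_abs_Dh_inv_pow 4 (by omega : 8 * 4 ≤ d) h.hd
  have hpw := cpow_summable hG 4
  have hpwe := cpow_even hGe 4
  have hIR := h.infrared hP hε
  have h1 := abs_le_int_ct (conv_summable (pJ_summable z) hpw)
    (fun y => conv_even (pJ_even z) hpwe y) x
  have hexp : (4 : ℝ) * ((4 : ℕ) : ℝ) = 16 := by norm_num
  rw [hexp] at hI2
  have ha2 := h.two_d_z
  have hmain : conv (pJ z) (cpow (G z) 4) x ≤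
      2 * d * z * (3 ^ 4 * Real.exp 16 / Real.sqrt (2 * d)) := by
    calc conv (pJ z) (cpow (G z) 4) x ≤ |conv (pJ z) (cpow (G z) 4) x| := le_abs_self _
      _ ≤ ∫ k, |ct (conv (pJ z) (cpow (G z) 4)) k| ∂muT d := h1
      _ ≤ ∫ k, (2 * d * z * 3 ^ 4) * (|Dh k| * (1 - Dh k)⁻¹ ^ 4) ∂muT d := by
          refine integral_mono_of_nonneg (Filter.Eventually.of_forall (fun k => abs_nonneg _))
            (hI.const_mul _) ?_
          filter_upwards [Dh_lt_one_ae h.hd] with k hk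
          have hpos : 0 < 1 - Dh k := by linarith
          have hT : ct (G z) k ≤ 3 * (1 - Dh k)⁻¹ := by
            rw [← div_eq_mul_inv, le_div_iff₀ hpos]
            exact (hIR k).2
          rw [ct_conv (pJ_summable z) hpw hpwe, ct_pJ, ct_cpow hG hGe, abs_mul, abs_mul, abs_pow,
            abs_of_nonneg (hIR k).1, abs_of_nonneg (by positivity : 0 ≤ 2 * (d : ℝ) * z)]
          have e1 : ct (G z) k ^ 4 ≤ 3 ^ 4 * (1 - Dh k)⁻¹ ^ 4 := by
            rw [← mul_pow]
            exact pow_le_pow_left₀ (hIR k).1 hT 4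
          calc 2 * (d : ℝ) * z * |Dh k| * ct (G z) k ^ 4
              ≤ 2 * (d : ℝ) * z * |Dh k| * (3 ^ 4 * (1 - Dh k)⁻¹ ^ 4) :=
                mul_le_mul_of_nonneg_left e1 (by positivity)
            _ = (2 * d * z * 3 ^ 4) * (|Dh k| * (1 - Dh k)⁻¹ ^ 4) := by ring
      _ = (2 * d * z * 3 ^ 4) * ∫ k, |Dh k| * (1 - Dh k)⁻¹ ^ 4 ∂muT d := integral_const_mul _ _
      _ ≤ (2 * d * z * 3 ^ 4) * (Real.exp 16 / Real.sqrt (2 * d)) :=
          mul_le_mul_of_nonneg_left hI2 (by positivity)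
      _ = 2 * d * z * (3 ^ 4 * Real.exp 16 / Real.sqrt (2 * d)) := by ring
  exact hmain.trans (mul_le_mul_of_nonneg_right ha2 (by positivity))

/-! ## continuity -/

theorem pow4_diff {a b X : ℝ} (ha : 0 ≤ a) (hab : a ≤ b) (hb : b ≤ X) :
    b ^ 4 - a ^ 4 ≤ 4 * X ^ 3 * (b - a) := by
  have hb0 : 0 ≤ b := ha.trans hab
  have hX : 0 ≤ X := hb0.trans hb
  have e : b ^ 4 - a ^ 4 = (b + a) * (b ^ 2 + a ^ 2) * (b - a) := by ring
  rw [e]
  have h1 : b + a ≤ 2 * X := by linarith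
  have h2 : b ^ 2 + a ^ 2 ≤ 2 * X ^ 2 := by
    have := pow_le_pow_left₀ hb0 hb 2
    have := pow_le_pow_left₀ ha (hab.trans hb) 2
    linarith
  have h5 : (b + a) * (b ^ 2 + a ^ 2) ≤ (2 * X) * (2 * X ^ 2) :=
    mul_le_mul h1 h2 (by positivity) (by positivity)
  calc (b + a) * (b ^ 2 + a ^ 2) * (b - a) ≤ (2 * X) * (2 * X ^ 2) * (b - a) :=
        mul_le_mul_of_nonneg_right h5 (by linarith)
    _ = 4 * X ^ 3 * (b - a) := by ring

theorem G_mono {p q : ℝ} (hq : Sub d q) (hp : 0 ≤ p) (hpq : p ≤ q) (x : V d) :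
    G p x ≤ G q x := by
  unfold G
  refine Summable.tsum_le_tsum (fun n => ?_) ((hq.mono hp hpq).pt x) (hq.pt x)
  exact mul_le_mul_of_nonneg_left (pow_le_pow_left₀ hp hpq n) (c_nonneg _ _)

theorem s_cont {z₁ : ℝ} (h : Sub d z₁) :
    ∃ L : ℝ, 0 ≤ L ∧ ∀ p q : ℝ, 0 ≤ p → p ≤ q → q ≤ z₁ → ∀ x : V d,
      conv (pJ q) (cpow (G q) 4) x ≤ conv (pJ p) (cpow (G p) 4) x + L * (q - p) := by
  obtain ⟨L₀, hL₀, hlip⟩ := h.chi_lip
  set X : ℝ := chi d z₁ with hX
  have hX1 : 1 ≤ X := h.one_le_chi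
  refine ⟨2 * d * (X ^ 4 + z₁ * (4 * X ^ 3 * L₀)), by have := h.nn; positivity, ?_⟩
  intro p q hp hpq hq x
  have hsq : Sub d q := h.mono (hp.trans hpq) hq
  have hsp : Sub d p := hsq.mono hp hpq
  have hq0 : 0 ≤ q := hp.trans hpq
  set fq : V d → ℝ := conv (pJ q) (cpow (G q) 4) with hfq
  set fp : V d → ℝ := conv (pJ p) (cpow (G p) 4) with hfp
  have hsfq : Summable fq := conv_summable (pJ_summable q) (cpow_summable hsq.G_summable 4)
  have hsfp : Summable fp := conv_summable (pJ_summable p) (cpow_summable hsp.G_summable 4)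
  have hpJ : ∀ y : V d, pJ p y ≤ pJ q y := by
    intro y
    unfold pJ
    split_ifs
    · exact hpq
    · exact le_rfl
  have hle : ∀ y, fp y ≤ fq y := fun y =>
    conv_mono (pJ_summable q) (cpow_summable hsq.G_summable 4) (pJ_nonneg hp)
      (cpow_nonneg hsp.G_nonneg 4) hpJ (cpow_mono hsq.G_summable hsp.G_nonneg
        (G_mono hsq hp hpq) 4) y
  have hone : fq x - fp x ≤ ∑' y, (fq y - fp y) :=
    (hsfq.sub hsfp).le_tsum x (fun y _ => sub_nonneg.2 (hle y))
  have htot : ∑' y, (fq y - fp y) = 2 * d * q * chi d q ^ 4 - 2 * d * p * chi d p ^ 4 := by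
    rw [hsfq.tsum_sub hsfp, hfq, hfp, tsum_conv (pJ_summable q) (cpow_summable hsq.G_summable 4),
      tsum_conv (pJ_summable p) (cpow_summable hsp.G_summable 4), tsum_cpow hsq.G_summable,
      tsum_cpow hsp.G_summable, tsum_pJ, tsum_pJ, hsq.tsum_G, hsp.tsum_G]
  have hcq : chi d q ≤ X := h.chi_mono hq0 hq
  have hcp : chi d p ≤ chi d q := hsq.chi_mono hp hpq
  have hcp1 : 1 ≤ chi d p := hsp.one_le_chi
  have hcp0 : 0 ≤ chi d p := by linarith
  have hcq0 : 0 ≤ chi d q := by linarith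
  have h4 := pow4_diff hcp0 hcp hcq
  have hX0 : 0 ≤ X := by linarith
  have h9 : chi d q ^ 4 - chi d p ^ 4 ≤ 4 * X ^ 3 * L₀ * (q - p) := by
    calc chi d q ^ 4 - chi d p ^ 4 ≤ 4 * X ^ 3 * (chi d q - chi d p) := h4
      _ ≤ 4 * X ^ 3 * (L₀ * (q - p)) :=
          mul_le_mul_of_nonneg_left (hlip p q hp hpq hq) (by positivity)
      _ = _ := by ring
  have h9' : 0 ≤ chi d q ^ 4 - chi d p ^ 4 := sub_nonneg.2 (pow_le_pow_left₀ hcp0 hcp 4)
  have h10 : q * chi d q ^ 4 - p * chi d p ^ 4 ≤ (X ^ 4 + z₁ * (4 * X ^ 3 * L₀)) * (q - p) := by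
    have e : q * chi d q ^ 4 - p * chi d p ^ 4 =
        (q - p) * chi d q ^ 4 + p * (chi d q ^ 4 - chi d p ^ 4) := by ring
    have e1 : (q - p) * chi d q ^ 4 ≤ (q - p) * X ^ 4 :=
      mul_le_mul_of_nonneg_left (pow_le_pow_left₀ hcq0 hcq 4) (by linarith)
    have e2 : p * (chi d q ^ 4 - chi d p ^ 4) ≤ z₁ * (4 * X ^ 3 * L₀ * (q - p)) :=
      mul_le_mul (hpq.trans hq) h9 h9' h.nn
    rw [e]
    linarith
  have h11 : 2 * d * q * chi d q ^ 4 - 2 * d * p * chi d p ^ 4 ≤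
      2 * d * (X ^ 4 + z₁ * (4 * X ^ 3 * L₀)) * (q - p) := by
    calc 2 * d * q * chi d q ^ 4 - 2 * d * p * chi d p ^ 4
        = 2 * d * (q * chi d q ^ 4 - p * chi d p ^ 4) := by ring
      _ ≤ 2 * d * ((X ^ 4 + z₁ * (4 * X ^ 3 * L₀)) * (q - p)) :=
          mul_le_mul_of_nonneg_left h10 (by positivity)
      _ = 2 * d * (X ^ 4 + z₁ * (4 * X ^ 3 * L₀)) * (q - p) := by ring
  linarith

/-- one round of the bootstrap -/
theorem boot_round {σ : ℝ} (hσ : 384 * σ ≤ 1 / 9) (hd : 32 ≤ d)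
    (hbig : 2 * (3 ^ 4 * Real.exp 16 / Real.sqrt (2 * d)) ≤ σ / 2) (h : Sub d z)
    (hs : ∀ x : V d, conv (pJ z) (cpow (G z) 4) x ≤ σ) :
    ∀ x : V d, conv (pJ z) (cpow (G z) 4) x ≤ σ / 2 := by
  have hP := PiB_of h hs (by linarith)
  exact fun x => (h.conv_le hP hσ hd x).trans hbig

/-- the bootstrap argument -/
theorem boot_sigma {σ : ℝ} (hσ0 : 0 < σ) (hσ : 384 * σ ≤ 1 / 9) (hd : 32 ≤ d)
    (hbig : 2 * (3 ^ 4 * Real.exp 16 / Real.sqrt (2 * d)) ≤ σ / 2) (h : Sub d z) :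
    ∀ x : V d, conv (pJ z) (cpow (G z) 4) x ≤ σ / 2 := by
  obtain ⟨L, hL, hcont⟩ := s_cont h
  have hp := h.nn
  obtain ⟨n, hn⟩ := exists_nat_gt (L * z / (σ / 2))
  have hn0 : 0 < (n : ℝ) := lt_of_le_of_lt (by positivity) hn
  have hstep : L * (z / n) ≤ σ / 2 := by
    rw [div_lt_iff₀ (by positivity)] at hn
    rw [mul_div_assoc', div_le_iff₀ hn0]
    linarith
  have hind : ∀ i : ℕ, i ≤ n → ∀ x : V d,
      conv (pJ (i * (z / n))) (cpow (G (i * (z / n))) 4) x ≤ σ / 2 := by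
    intro i
    induction i with
    | zero =>
      intro _ x
      have e : (pJ (((0 : ℕ) : ℝ) * (z / n)) : V d → ℝ) = fun y => 0 := by
        funext y
        simp [pJ]
      rw [e]
      unfold conv
      simp only [zero_mul, tsum_zero]
      positivity
    | succ i ih =>
      intro hi x
      have hle : ((i + 1 : ℕ) : ℝ) * (z / n) ≤ z := by
        have : ((i + 1 : ℕ) : ℝ) ≤ n := by exact_mod_cast hi
        calc ((i + 1 : ℕ) : ℝ) * (z / n) ≤ n * (z / n) :=
              mul_le_mul_of_nonneg_right this (by positivity)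
          _ = z := by field_simp
      have hq0 : 0 ≤ ((i + 1 : ℕ) : ℝ) * (z / n) := by positivity
      have hp0 : 0 ≤ (i : ℝ) * (z / n) := by positivity
      have hpq : (i : ℝ) * (z / n) ≤ ((i + 1 : ℕ) : ℝ) * (z / n) := by
        push_cast
        have : 0 ≤ z / n := by positivity
        linarith
      refine boot_round hσ hd hbig (h.mono hq0 hle) (fun y => ?_) x
      have h2 := hcont _ _ hp0 hpq hle y
      have h3 := ih (by omega) y
      have h4 : ((i + 1 : ℕ) : ℝ) * (z / n) - (i : ℝ) * (z / n) = z / n := by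
        push_cast
        ring
      rw [h4] at h2
      linarith
  have hfin := hind n le_rfl
  have e : (n : ℝ) * (z / n) = z := by field_simp
  rw [e] at hfin
  exact hfin

/-- the lace coefficients are small in high dimensions, uniformly below the critical point -/
theorem boot {η : ℝ} (hη : 0 < η) : ∃ d₀ : ℕ, 32 ≤ d₀ ∧ ∀ d ≥ d₀, ∀ z : ℝ, Sub d z →
    PiB d z η := by
  set σ : ℝ := min η (1 / 9) / 384 with hσd
  have hm : 0 < min η (1 / 9) := lt_min hη (by norm_num)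
  have hσ0 : 0 < σ := by positivity
  have hσ1 : 384 * σ ≤ 1 / 9 := by
    have : 384 * σ = min η (1 / 9) := by rw [hσd]; ring
    rw [this]; exact min_le_right _ _
  have hσ2 : 384 * σ ≤ η := by
    have : 384 * σ = min η (1 / 9) := by rw [hσd]; ring
    rw [this]; exact min_le_left _ _
  obtain ⟨N, hN⟩ := exists_nat_gt ((2 * (2 * (3 ^ 4 * Real.exp 16)) / σ) ^ 2)
  refine ⟨max 32 N, le_max_left _ _, fun d hd z h => ?_⟩
  have hd32 : 32 ≤ d := (le_max_left _ _).trans hd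
  have hdN : N ≤ d := (le_max_right _ _).trans hd
  have hbig : 2 * (3 ^ 4 * Real.exp 16 / Real.sqrt (2 * d)) ≤ σ / 2 := by
    have hdN' : ((2 * (2 * (3 ^ 4 * Real.exp 16)) / σ) ^ 2) ≤ 2 * (d : ℝ) := by
      have : (N : ℝ) ≤ d := by exact_mod_cast hdN
      have h0 : (0 : ℝ) ≤ d := by positivity
      linarith
    have hsq : 2 * (2 * (3 ^ 4 * Real.exp 16)) / σ ≤ Real.sqrt (2 * d) := by
      apply Real.le_sqrt_of_sq_le
      exact hdN'
    have hpos : 0 < Real.sqrt (2 * d) := by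
      apply Real.sqrt_pos.2
      have : (0 : ℝ) < d := by
        have : 0 < d := by omega
        exact_mod_cast this
      positivity
    rw [div_le_iff₀ hσ0] at hsq
    rw [← mul_div_assoc, div_le_iff₀ hpos]
    nlinarith
  have h1 := boot_sigma hσ0 hσ1 hd32 hbig h
  have h2 := PiB_of h (s := σ) (fun x => (h1 x).trans (by linarith)) (by linarith)
  exact fun M => (h2 M).trans hσ2

end Pool.Agent.helper91.SW
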