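import Pool.Agent.helper91.SW.Boot

/-!
# Self-avoiding walks in high dimensions: the critical point
-/

set_option autoImplicit false

open Finset Filter Topology
open Pool.Agent.helper55.FP hiding chi

namespace Pool.Agent.helper91.SW

variable {d : ℕ} {ε : ℝ}

/-- the critical point -/
noncomputable def zc (d : ℕ) : ℝ := (mu d)⁻¹

theorem zc_pos (d : ℕ) : 0 < zc d := inv_pos.2 (mu_pos d)

theorem zc_mul (d : ℕ) : zc d * mu d = 1 := inv_mul_cancel₀ (mu_pos d).ne'

theorem sub_of_lt (hd : 1 ≤ d) {z : ℝ} (h0 : 0 ≤ z) (h1 : z < zc d) : Sub d z := by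
  refine ⟨hd, h0, ?_⟩
  rw [← zc_mul d]
  exact mul_lt_mul_of_pos_right h1 (mu_pos d)

/-- what we know at the critical point -/
structure Crit (d : ℕ) (ε : ℝ) : Prop where
  hd : 1 ≤ d
  pib : PiB d (zc d) ε
  root : 2 * d * zc d + ph d (zc d) 0 = 1

theorem pib_crit (hd : 1 ≤ d) (h : ∀ z, Sub d z → PiB d z ε) : PiB d (zc d) ε := by
  intro M
  have hcont : Continuous fun z : ℝ => ∑ m ∈ range M, (2 + m : ℝ) ^ 2 * z ^ (m + 1) * npi d m := by
    fun_prop
  have h1 : Tendsto (fun z : ℝ => ∑ m ∈ range M, (2 + m : ℝ) ^ 2 * z ^ (m + 1) * npi d m)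
      (𝓝[<] (zc d)) (𝓝 (∑ m ∈ range M, (2 + m : ℝ) ^ 2 * (zc d) ^ (m + 1) * npi d m)) :=
    (hcont.tendsto _).mono_left nhdsWithin_le_nhds
  refine le_of_tendsto h1 ?_
  have h2 : ∀ᶠ z in 𝓝[<] (zc d), 0 < z :=
    (eventually_gt_nhds (zc_pos d)).filter_mono nhdsWithin_le_nhds
  filter_upwards [h2, self_mem_nhdsWithin] with z hz1 hz2
  exact h z (sub_of_lt hd hz1.le hz2) M

theorem ph_lip (hc : PiB d (zc d) ε) {z : ℝ} (h0 : 0 ≤ z) (h1 : z ≤ zc d) (hz : PiB d z ε) :
    |ph d (zc d) 0 - ph d z 0| ≤ ε / zc d * (zc d - z) := by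
  have hzc := zc_pos d
  unfold ph
  rw [← (hc.ph_summable hzc.le 0).tsum_sub (hz.ph_summable h0 0)]
  have hs := (hc.ph_summable hzc.le (0 : Fin d → ℝ)).sub (hz.ph_summable h0 0)
  refine (norm_tsum_le_tsum_norm hs.norm).trans ?_
  have hterm : ∀ m : ℕ, ‖ct (pi m : V d → ℝ) 0 * zc d ^ (m + 1) -
      ct (pi m : V d → ℝ) 0 * z ^ (m + 1)‖ ≤
      ((2 + m : ℝ) ^ 2 * zc d ^ (m + 1) * npi d m) * ((zc d - z) / zc d) := by
    intro m
    have e1 : zc d ^ (m + 1) - z ^ (m + 1) ≤ (m + 1 : ℕ) * zc d ^ m * (zc d - z) := by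
      have e := Commute.geom_sum₂_mul (Commute.all (zc d) z) (m + 1)
      rw [← e]
      refine mul_le_mul_of_nonneg_right ?_ (by linarith)
      calc ∑ i ∈ range (m + 1), zc d ^ i * z ^ (m + 1 - 1 - i)
          ≤ ∑ i ∈ range (m + 1), zc d ^ m := by
            refine Finset.sum_le_sum fun i hi => ?_
            rw [Finset.mem_range] at hi
            calc zc d ^ i * z ^ (m + 1 - 1 - i) ≤ zc d ^ i * zc d ^ (m + 1 - 1 - i) :=
                  mul_le_mul_of_nonneg_left (pow_le_pow_left₀ h0 h1 _) (by positivity)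
              _ = zc d ^ m := by rw [← pow_add]; congr 1; omega
        _ = (m + 1 : ℕ) * zc d ^ m := by rw [Finset.sum_const, Finset.card_range, nsmul_eq_mul]
    have e2 : 0 ≤ zc d ^ (m + 1) - z ^ (m + 1) := sub_nonneg.2 (pow_le_pow_left₀ h0 h1 _)
    rw [← mul_sub, Real.norm_eq_abs, abs_mul, abs_of_nonneg e2]
    have e3 := abs_ct_pi_le (d := d) m 0
    have e4 := npi_nonneg (d := d) m
    have e5 : ((m + 1 : ℕ) : ℝ) * zc d ^ m * (zc d - z) ≤
        (2 + m : ℝ) ^ 2 * zc d ^ (m + 1) * ((zc d - z) / zc d) := by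
      have e6 : (2 + m : ℝ) ^ 2 * zc d ^ (m + 1) * ((zc d - z) / zc d) =
          (2 + m : ℝ) ^ 2 * zc d ^ m * (zc d - z) := by
        rw [pow_succ (zc d)]; field_simp
      rw [e6]
      have e7 : ((m + 1 : ℕ) : ℝ) ≤ (2 + m : ℝ) ^ 2 := by
        push_cast
        have : (0 : ℝ) ≤ m := Nat.cast_nonneg m
        nlinarith
      exact mul_le_mul_of_nonneg_right (mul_le_mul_of_nonneg_right e7 (by positivity))
        (by linarith)
    calc |ct (pi m : V d → ℝ) 0| * (zc d ^ (m + 1) - z ^ (m + 1))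
        ≤ npi d m * ((m + 1 : ℕ) * zc d ^ m * (zc d - z)) := mul_le_mul e3 e1 e2 e4
      _ ≤ npi d m * ((2 + m : ℝ) ^ 2 * zc d ^ (m + 1) * ((zc d - z) / zc d)) :=
          mul_le_mul_of_nonneg_left e5 e4
      _ = _ := by ring
  refine (Summable.tsum_le_tsum hterm hs.norm ((hc.summable hzc.le).mul_right _)).trans ?_
  rw [tsum_mul_right]
  have h3 := mul_le_mul_of_nonneg_right (hc.tsum_le hzc.le)
    (div_nonneg (by linarith : 0 ≤ zc d - z) hzc.le)
  refine h3.trans (le_of_eq ?_)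
  ring

theorem crit_of (hd : 1 ≤ d) (h : ∀ z, Sub d z → PiB d z ε) : Crit d ε := by
  have hc := pib_crit hd h
  refine ⟨hd, hc, ?_⟩
  have hzc := zc_pos d
  have hmu := mu_pos d
  have hε0 : 0 ≤ ε := by simpa using hc 0
  -- for all `z < zc`
  have key : ∀ z, 0 ≤ z → z < zc d → |2 * d * zc d + ph d (zc d) 0 - 1| ≤
      (2 * d + ε / zc d + mu d) * (zc d - z) := by
    intro z h0 h1
    have hs := sub_of_lt hd h0 h1
    have hz := h z hs
    have e1 := hs.eqn0 hz
    have e2 := hs.chi_ge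
    have e3 := hs.one_le_chi
    have e4 := ph_lip hc h0 h1.le hz
    have hχ : 0 < chi d z := by linarith
    -- 0 < F₀(z) ≤ 1 - z μ
    have e5 : 0 < 1 - 2 * d * z - ph d z 0 := by
      by_contra hcon
      rw [not_lt] at hcon
      nlinarith
    have e6 : 1 - 2 * d * z - ph d z 0 ≤ 1 - z * mu d := by
      by_contra hcon
      rw [not_le] at hcon
      have := mul_lt_mul_of_pos_right hcon hχ
      linarith
    have e7 : 1 - z * mu d = mu d * (zc d - z) := by
      rw [mul_sub, mul_comm (mu d) (zc d), zc_mul]; ring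
    rw [e7] at e6
    obtain ⟨e8, e9⟩ := abs_le.1 e4
    have e10 : 0 ≤ ε / zc d * (zc d - z) := mul_nonneg (by positivity) (by linarith)
    have e11 : 0 ≤ 2 * (d : ℝ) * (zc d - z) := mul_nonneg (by positivity) (by linarith)
    have e12 : 0 ≤ mu d * (zc d - z) := mul_nonneg hmu.le (by linarith)
    rw [abs_le]
    constructor <;> nlinarith
  set L : ℝ := 2 * d + ε / zc d + mu d with hL
  have hL0 : 0 < L := by positivity
  by_contra hcon
  have hpos : 0 < |2 * d * zc d + ph d (zc d) 0 - 1| := abs_pos.2 (sub_ne_zero.2 hcon)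
  set w := |2 * d * zc d + ph d (zc d) 0 - 1| with hw
  set δ : ℝ := min (zc d) (w / (2 * L)) with hδ
  have hδ0 : 0 < δ := lt_min hzc (by positivity)
  have h1 := key (zc d - δ) (by linarith [min_le_left (zc d) (w / (2 * L))]) (by linarith)
  have h2 : δ ≤ w / (2 * L) := min_le_right _ _
  have h3 : zc d - (zc d - δ) = δ := by ring
  rw [h3] at h1
  have h4 : L * δ ≤ L * (w / (2 * L)) := mul_le_mul_of_nonneg_left h2 hL0.le
  have h5 : L * (w / (2 * L)) = w / 2 := by field_simp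
  linarith

/-- in high dimensions -/
theorem exists_crit {η : ℝ} (hη : 0 < η) : ∃ d₀ : ℕ, 32 ≤ d₀ ∧ ∀ d ≥ d₀, Crit d η := by
  obtain ⟨d₀, h32, h⟩ := boot hη
  exact ⟨d₀, h32, fun d hd => crit_of (by omega) (h d hd)⟩

end Pool.Agent.helper91.SW
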