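import Pool.Agent.helper91.SW.Lace

/-!
# Self-avoiding walks in high dimensions: the diagrammatic bounds
-/

set_option autoImplicit false

open Finset
open Pool.Agent.helper55.FP

namespace Pool.Agent.helper91.SW

variable {d : ℕ}

/-- total mass of the unsigned lace terms -/
noncomputable def QT : ℕ → ℕ → Finset (V d) → V d → ℝ
  | 0, m, _, _ => if m = 0 then 1 else 0
  | k + 1, m, γ, y => (if m = 0 then 1 else 0) +
      ∑ j ∈ range (m + 1), hs j γ {y} y (fun β' u => QT k (m - j) β' u)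

theorem QT_nonneg (k : ℕ) : ∀ (m : ℕ) (γ : Finset (V d)) (y : V d), 0 ≤ QT k m γ y := by
  induction k with
  | zero => intro m γ y; simp only [QT]; split_ifs <;> norm_num
  | succ k ih =>
    intro m γ y
    simp only [QT]
    refine add_nonneg (by split_ifs <;> norm_num) (Finset.sum_nonneg fun j _ => ?_)
    exact hs_nonneg fun β' u => ih _ _ _

theorem sum_ite_le (T : Finset (V d)) (m : ℕ) (y : V d) :
    ∑ v ∈ T, |if m = 0 ∧ v = y then (1 : ℝ) else 0| ≤ if m = 0 then 1 else 0 := by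
  by_cases hm : m = 0
  · subst hm
    simp only [true_and, if_true]
    have : ∀ v ∈ T, |if v = y then (1 : ℝ) else 0| = if v = y then 1 else 0 := by
      intro v _; split_ifs <;> simp
    rw [Finset.sum_congr rfl this, Finset.sum_ite_eq']
    split_ifs <;> norm_num
  · simp [hm]

theorem sum_abs_P_le_of {k : ℕ} {m : ℕ} {γ : Finset (V d)} {y : V d} {T : Finset (V d)}
    (h : ∑ v ∈ T, |P k m γ y v - if m = 0 ∧ v = y then 1 else 0| ≤
      QT k m γ y - if m = 0 then 1 else 0) : ∑ v ∈ T, |P k m γ y v| ≤ QT k m γ y := by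
  have h1 : ∀ v ∈ T, |P k m γ y v| ≤ |P k m γ y v - if m = 0 ∧ v = y then 1 else 0| +
      |if m = 0 ∧ v = y then (1 : ℝ) else 0| := by
    intro v _
    have := abs_add_le (P k m γ y v - if m = 0 ∧ v = y then 1 else 0)
      (if m = 0 ∧ v = y then (1 : ℝ) else 0)
    rwa [sub_add_cancel] at this
  have h2 := Finset.sum_le_sum h1
  rw [Finset.sum_add_distrib] at h2
  have h3 := sum_ite_le T m y
  linarith

theorem sum_abs_P_sub_le (k : ℕ) : ∀ (m : ℕ) (γ : Finset (V d)) (y : V d) (T : Finset (V d)),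
    ∑ v ∈ T, |P k m γ y v - if m = 0 ∧ v = y then 1 else 0| ≤
      QT k m γ y - if m = 0 then 1 else 0 := by
  induction k with
  | zero =>
    intro m γ y T
    simp [P, QT]
  | succ k ih =>
    intro m γ y T
    simp only [P, QT]
    rw [add_sub_cancel_left]
    have h1 : ∀ v ∈ T, |(if m = 0 ∧ v = y then (1 : ℝ) else 0) -
        ∑ j ∈ range (m + 1), hs j γ {y} y (fun β' u => P k (m - j) β' u v) -
          if m = 0 ∧ v = y then 1 else 0| ≤
        ∑ j ∈ range (m + 1), hs j γ {y} y (fun β' u => |P k (m - j) β' u v|) := by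
      intro v _
      rw [sub_sub_cancel_left, abs_neg]
      exact (Finset.abs_sum_le_sum_abs _ _).trans (Finset.sum_le_sum fun j _ => hs_abs_le _ _ _ _ _)
    refine (Finset.sum_le_sum h1).trans ?_
    rw [Finset.sum_comm]
    refine Finset.sum_le_sum fun j _ => ?_
    rw [← hs_sum]
    exact hs_mono fun β' u _ _ => sum_abs_P_le_of (ih _ _ _ _)

/-- the weighted Green function -/
noncomputable def H3 (z : ℝ) (M : ℕ) (x : V d) : ℝ :=
  ∑ j ∈ range (M + 1), (1 + j : ℝ) ^ 3 * z ^ j * c j x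

theorem QT_bound {z : ℝ} (hz : 0 ≤ z) (M : ℕ) (hH : ∀ x : V d, x ≠ 0 → H3 z M x ≤ 1) (k : ℕ) :
    ∀ (γ : Finset (V d)) (y : V d),
      ∑ m ∈ range (M + 1), (1 + m : ℝ) ^ 2 * z ^ m * QT k m γ y ≤
        1 + ∑ w ∈ γ \ {y}, H3 z M (w - y) := by
  have hH0 : ∀ x : V d, 0 ≤ H3 z M x := fun x =>
    Finset.sum_nonneg fun j _ => mul_nonneg (by positivity) (c_nonneg _ _)
  have hite : ∑ m ∈ range (M + 1), (1 + m : ℝ) ^ 2 * z ^ m * (if m = 0 then 1 else 0) = 1 := by
    rw [Finset.sum_eq_single 0]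
    · simp
    · intro m _ hm; simp [hm]
    · intro h; simp at h
  induction k with
  | zero =>
    intro γ y
    simp only [QT]
    rw [hite]
    have := Finset.sum_nonneg (s := γ \ {y}) fun w _ => hH0 (w - y)
    linarith
  | succ k ih =>
    intro γ y
    simp only [QT, mul_add]
    rw [Finset.sum_add_distrib, hite]
    have h1 : ∑ m ∈ range (M + 1), (1 + m : ℝ) ^ 2 * z ^ m *
        ∑ j ∈ range (m + 1), hs j γ {y} y (fun β' u => QT k (m - j) β' u) ≤
        ∑ m ∈ range (M + 1), ∑ j ∈ range (m + 1), (1 + j : ℝ) ^ 2 * z ^ j *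
          ((1 + (m - j : ℕ) : ℝ) ^ 2 * z ^ (m - j) *
            hs j γ {y} y (fun β' u => QT k (m - j) β' u)) := by
      refine Finset.sum_le_sum fun m _ => ?_
      rw [Finset.mul_sum]
      refine Finset.sum_le_sum fun j hj => ?_
      rw [Finset.mem_range] at hj
      have e1 : (m : ℝ) = j + (m - j : ℕ) := by
        push_cast [Nat.cast_sub (by omega : j ≤ m)]; ring
      have e2 : z ^ m = z ^ j * z ^ (m - j) := by
        rw [← pow_add]; congr 1; omega
      have e3 : (1 + m : ℝ) ≤ (1 + j : ℝ) * (1 + (m - j : ℕ) : ℝ) := by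
        rw [e1]
        have : (0 : ℝ) ≤ (j : ℝ) * ((m - j : ℕ) : ℝ) := by positivity
        nlinarith
      have e4 : (1 + m : ℝ) ^ 2 ≤ ((1 + j : ℝ) * (1 + (m - j : ℕ) : ℝ)) ^ 2 :=
        pow_le_pow_left₀ (by positivity) e3 2
      have e5 : 0 ≤ hs j γ {y} y (fun β' u => QT k (m - j) β' u) :=
        hs_nonneg fun β' u => QT_nonneg _ _ _ _
      calc (1 + m : ℝ) ^ 2 * z ^ m * hs j γ {y} y (fun β' u => QT k (m - j) β' u)
          ≤ ((1 + j : ℝ) * (1 + (m - j : ℕ) : ℝ)) ^ 2 * z ^ m *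
            hs j γ {y} y (fun β' u => QT k (m - j) β' u) :=
            mul_le_mul_of_nonneg_right (mul_le_mul_of_nonneg_right e4 (by positivity)) e5
        _ = _ := by rw [e2]; ring
    have h2 := Finset.sum_range_diag_flip (M + 1) (fun j m => (1 + j : ℝ) ^ 2 * z ^ j *
          ((1 + m : ℝ) ^ 2 * z ^ m * hs j γ {y} y (fun β' u => QT k m β' u)))
    rw [h2] at h1
    have h3 : ∀ j ∈ range (M + 1), ∑ m ∈ range (M + 1 - j), (1 + j : ℝ) ^ 2 * z ^ j *
          ((1 + m : ℝ) ^ 2 * z ^ m * hs j γ {y} y (fun β' u => QT k m β' u)) ≤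
        (1 + j : ℝ) ^ 3 * z ^ j * ∑ w ∈ γ \ {y}, c j (w - y) := by
      intro j _
      rw [← Finset.mul_sum]
      have h4 : ∑ m ∈ range (M + 1 - j), ((1 + m : ℝ) ^ 2 * z ^ m *
          hs j γ {y} y (fun β' u => QT k m β' u)) ≤ (1 + j : ℝ) * ∑ w ∈ γ \ {y}, A j {y} y w := by
        have h5 : ∑ m ∈ range (M + 1 - j), ((1 + m : ℝ) ^ 2 * z ^ m *
            hs j γ {y} y (fun β' u => QT k m β' u)) =
            hs j γ {y} y (fun β' u => ∑ m ∈ range (M + 1 - j),
              (1 + m : ℝ) ^ 2 * z ^ m * QT k m β' u) := by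
          rw [hs_sum]
          refine Finset.sum_congr rfl fun m _ => ?_
          rw [← hs_mul]
        rw [h5]
        refine hs_le j (by positivity) fun β' u hu hc => ?_
        have h6 : ∑ m ∈ range (M + 1 - j), (1 + m : ℝ) ^ 2 * z ^ m * QT k m β' u ≤
            ∑ m ∈ range (M + 1), (1 + m : ℝ) ^ 2 * z ^ m * QT k m β' u :=
          Finset.sum_le_sum_of_subset_of_nonneg (Finset.range_mono (by omega))
            fun m _ _ => mul_nonneg (by positivity) (QT_nonneg _ _ _ _)
        refine h6.trans ((ih β' u).trans ?_)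
        have h7 : ∑ w ∈ β' \ {u}, H3 z M (w - u) ≤ ∑ w ∈ β' \ {u}, (1 : ℝ) := by
          refine Finset.sum_le_sum fun w hw => hH _ ?_
          rw [Finset.mem_sdiff, Finset.mem_singleton] at hw
          exact sub_ne_zero.2 hw.2
        have h8 : (β' \ {u}).card = j := by
          rw [Finset.card_sdiff_of_subset (Finset.singleton_subset_iff.2 hu), hc]
          simp
        rw [Finset.sum_const, h8, nsmul_eq_mul, mul_one] at h7
        linarith
      have h9 : (1 + j : ℝ) ^ 2 * z ^ j * ((1 + j : ℝ) * ∑ w ∈ γ \ {y}, A j {y} y w) =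
          (1 + j : ℝ) ^ 3 * z ^ j * ∑ w ∈ γ \ {y}, c j (w - y) := by
        simp only [A_eq_c]
        ring
      rw [← h9]
      exact mul_le_mul_of_nonneg_left h4 (by positivity)
    have h4 := h1.trans (Finset.sum_le_sum h3)
    have h5 : ∑ j ∈ range (M + 1), (1 + j : ℝ) ^ 3 * z ^ j * ∑ w ∈ γ \ {y}, c j (w - y) =
        ∑ w ∈ γ \ {y}, H3 z M (w - y) := by
      unfold H3
      rw [Finset.sum_comm]
      refine Finset.sum_congr rfl fun j _ => ?_
      rw [Finset.mul_sum]
    rw [h5] at h4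
    linarith

theorem pi_mass (m k : ℕ) (h : m ≤ k) : ∑' v : V d, |pi m v| ≤
    ∑ s : Fin d × Bool, (QT k m {0, nb s} (nb s) - if m = 0 then 1 else 0) := by
  refine (pi_summable m).abs.tsum_le_of_sum_le fun T => ?_
  unfold pi
  refine (Finset.sum_le_sum fun v _ => Finset.abs_sum_le_sum_abs _ _).trans ?_
  rw [Finset.sum_comm]
  refine Finset.sum_le_sum fun s _ => ?_
  have h1 : ∀ v ∈ T, |P m m {0, nb s} (nb s) v - if m = 0 ∧ v = nb s then (1 : ℝ) else 0| =
      |P k m {0, nb s} (nb s) v - if m = 0 ∧ v = nb s then (1 : ℝ) else 0| := by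
    intro v _
    rw [P_stable m m k le_rfl h]
  rw [Finset.sum_congr rfl h1]
  exact sum_abs_P_sub_le _ _ _ _ _

theorem H3_even (z : ℝ) (M : ℕ) (x : V d) : H3 z M (-x) = H3 z M x := by
  unfold H3
  simp only [c_even]

theorem pi_bound {z : ℝ} (hz : 0 ≤ z) (M : ℕ) (hH : ∀ x : V d, x ≠ 0 → H3 z M x ≤ 1) :
    ∑ m ∈ range (M + 1), (1 + m : ℝ) ^ 2 * z ^ m * ∑' v : V d, |pi m v| ≤
      ∑ s : Fin d × Bool, H3 z M (nb s : V d) := by
  have h1 : ∑ m ∈ range (M + 1), (1 + m : ℝ) ^ 2 * z ^ m * ∑' v : V d, |pi m v| ≤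
      ∑ m ∈ range (M + 1), (1 + m : ℝ) ^ 2 * z ^ m *
        ∑ s : Fin d × Bool, (QT M m {0, nb s} (nb s) - if m = 0 then 1 else 0) := by
    refine Finset.sum_le_sum fun m hm => mul_le_mul_of_nonneg_left ?_ (by positivity)
    exact pi_mass m M (by rw [Finset.mem_range] at hm; omega)
  refine h1.trans ?_
  simp only [Finset.mul_sum]
  rw [Finset.sum_comm]
  refine Finset.sum_le_sum fun s _ => ?_
  have h2 := QT_bound hz M hH M {0, nb s} (nb s)
  have h3 : ∑ m ∈ range (M + 1), (1 + m : ℝ) ^ 2 * z ^ m *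
      (QT M m {0, nb s} (nb s) - if m = 0 then 1 else 0) =
      ∑ m ∈ range (M + 1), (1 + m : ℝ) ^ 2 * z ^ m * QT M m {0, nb s} (nb s) - 1 := by
    simp only [mul_sub]
    rw [Finset.sum_sub_distrib]
    congr 1
    rw [Finset.sum_eq_single 0]
    · simp
    · intro m _ hm; simp [hm]
    · intro h; simp at h
  rw [h3]
  have h4 : ({0, nb s} : Finset (V d)) \ {nb s} = {0} := by
    ext w
    simp only [Finset.mem_sdiff, Finset.mem_insert, Finset.mem_singleton]
    constructor
    · rintro ⟨h5 | h5, h6⟩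
      · exact h5
      · exact absurd h5 h6
    · rintro rfl
      exact ⟨Or.inl rfl, (nb_ne_zero s).symm⟩
  rw [h4, Finset.sum_singleton, zero_sub, H3_even] at h2
  linarith

/-! ## submultiplicativity -/

theorem A_submul (m n : ℕ) : ∀ (β : Finset (V d)) (y x : V d), y ∈ β →
    A (m + n) β y x ≤ ∑' v, A m β y v * c n (x - v) := by
  induction m with
  | zero =>
    intro β y x hy
    rw [zero_add]
    have h1 : ∑' v, A 0 β y v * c n (x - v) = c n (x - y) := by
      rw [tsum_eq_single y]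
      · simp [A]
      · intro v hv
        simp [A, Ne.symm hv]
    rw [h1]
    exact A_le_c n hy x
  | succ m ih =>
    intro β y x hy
    have e : m + 1 + n = (m + n) + 1 := by ring
    rw [e]
    simp only [A]
    have h1 : ∀ v, (∑ s : Fin d × Bool, if y + nb s ∈ β then 0 else
        A m (insert (y + nb s) β) (y + nb s) v) * c n (x - v) =
        ∑ s : Fin d × Bool, (if y + nb s ∈ β then 0 else
        A m (insert (y + nb s) β) (y + nb s) v * c n (x - v)) := by
      intro v
      rw [Finset.sum_mul]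
      refine Finset.sum_congr rfl fun s _ => ?_
      split_ifs
      · rw [zero_mul]
      · rfl
    rw [tsum_congr h1, Summable.tsum_finsetSum]
    · refine Finset.sum_le_sum fun s _ => ?_
      by_cases h2 : y + nb s ∈ β
      · simp [h2]
      · simp only [h2, if_false]
        exact ih _ _ _ (Finset.mem_insert_self _ _)
    · intro s _
      by_cases h2 : y + nb s ∈ β
      · simp [h2]
      · simp only [h2, if_false]
        exact conv_point_summable (A_summable m _ _) (c_summable n) x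

theorem c_submul (m n : ℕ) (x : V d) : c (m + n) x ≤ conv (c m) (c n) x :=
  A_submul m n {0} 0 x (by simp)

end Pool.Agent.helper91.SW
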