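import Pool.Agent.helper91.SW.Sym

/-!
# Self-avoiding walks in high dimensions: connective constant and generating functions
-/

set_option autoImplicit false

open Finset Filter Topology
open Pool.Agent.helper55.FP

namespace Pool.Agent.helper91.SW

variable {d : ℕ}

/-- number of `n`-step self-avoiding walks -/
noncomputable def Cn (d n : ℕ) : ℝ := ∑' x : V d, c n x

theorem A_mass_succ (n : ℕ) (β : Finset (V d)) (y : V d) : ∑' x, A (n + 1) β y x =
    ∑ s : Fin d × Bool, if y + nb s ∈ β then 0 else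
      ∑' x, A n (insert (y + nb s) β) (y + nb s) x := by
  simp only [A]
  rw [Summable.tsum_finsetSum]
  · refine Finset.sum_congr rfl fun s _ => ?_
    split_ifs
    · exact tsum_zero
    · rfl
  · intro s _
    split_ifs
    · exact summable_zero
    · exact A_summable _ _ _

theorem A_mass_zero (β : Finset (V d)) (y : V d) : ∑' x, A 0 β y x = 1 := by
  rw [tsum_eq_single y]
  · simp [A]
  · intro v hv
    simp [A, Ne.symm hv]

/-- directed walks -/
theorem A_mass_ge (n : ℕ) : ∀ (β : Finset (V d)) (y : V d), (∀ w ∈ β, ∑ i, w i ≤ ∑ i, y i) →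
    (d : ℝ) ^ n ≤ ∑' x, A n β y x := by
  induction n with
  | zero => intro β y _; rw [A_mass_zero, pow_zero]
  | succ n ih =>
    intro β y hβ
    rw [A_mass_succ, Fintype.sum_prod_type]
    have h1 : ∀ i : Fin d, (d : ℝ) ^ n ≤ ∑ b : Bool, if y + nb (i, b) ∈ β then 0 else
        ∑' x, A n (insert (y + nb (i, b)) β) (y + nb (i, b)) x := by
      intro i
      have hs : ∑ l, (y + nb (i, true)) l = ∑ l, y l + 1 := by
        simp [nb, LCt_nb, Finset.sum_add_distrib]
      have hnot : y + nb (i, true) ∉ β := by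
        intro h
        have := hβ _ h
        omega
      have hnn : ∀ b : Bool, 0 ≤ (if y + nb (i, b) ∈ β then 0 else
          ∑' x, A n (insert (y + nb (i, b)) β) (y + nb (i, b)) x) := by
        intro b
        split_ifs
        · exact le_rfl
        · exact tsum_nonneg fun x => A_nonneg _ _ _ _
      have h2 := Finset.single_le_sum (fun b _ => hnn b) (Finset.mem_univ true)
      refine le_trans ?_ h2
      rw [if_neg hnot]
      refine ih _ _ fun w hw => ?_
      rw [Finset.mem_insert] at hw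
      rcases hw with rfl | hw
      · exact le_rfl
      · have := hβ _ hw
        omega
    calc (d : ℝ) ^ (n + 1) = ∑ i : Fin d, (d : ℝ) ^ n := by simp [pow_succ, mul_comm]
      _ ≤ _ := Finset.sum_le_sum fun i _ => h1 i

theorem Cn_ge (n : ℕ) : (d : ℝ) ^ n ≤ Cn d n := by
  refine A_mass_ge n {0} 0 fun w hw => ?_
  rw [Finset.mem_singleton] at hw
  rw [hw]

theorem Cn_submul (m n : ℕ) : Cn d (m + n) ≤ Cn d m * Cn d n := by
  unfold Cn
  rw [← tsum_conv (c_summable m) (c_summable n)]
  exact (c_summable _).tsum_le_tsum (c_submul m n) (conv_summable (c_summable m) (c_summable n))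

theorem Cn_zero : Cn d 0 = 1 := by
  unfold Cn
  rw [c_zero, tsum_dirac0]

theorem one_le_Cn (hd : 1 ≤ d) (n : ℕ) : 1 ≤ Cn d n := by
  refine le_trans ?_ (Cn_ge n)
  exact one_le_pow₀ (by exact_mod_cast hd)

theorem Cn_log_subadditive (hd : 1 ≤ d) : Subadditive fun n => Real.log (Cn d n) := by
  intro m n
  have h1 := one_le_Cn hd m
  have h2 := one_le_Cn hd n
  have h3 := one_le_Cn hd (m + n)
  rw [← Real.log_mul (by linarith) (by linarith)]
  exact Real.log_le_log (by linarith) (Cn_submul m n)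

theorem Cn_bddBelow (hd : 1 ≤ d) :
    BddBelow (Set.range fun n : ℕ => Real.log (Cn d n) / n) := by
  refine ⟨0, ?_⟩
  rintro _ ⟨n, rfl⟩
  exact div_nonneg (Real.log_nonneg (one_le_Cn hd n)) (Nat.cast_nonneg n)

open Classical in
/-- the connective constant -/
noncomputable def mu (d : ℕ) : ℝ :=
  if hd : 1 ≤ d then Real.exp (Cn_log_subadditive hd).lim else 1

theorem mu_pos (d : ℕ) : 0 < mu d := by
  unfold mu
  split_ifs
  · exact Real.exp_pos _
  · norm_num

theorem tendsto_log_Cn (hd : 1 ≤ d) :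
    Tendsto (fun n : ℕ => Real.log (Cn d n) / n) atTop (𝓝 (Real.log (mu d))) := by
  unfold mu
  rw [dif_pos hd, Real.log_exp]
  exact (Cn_log_subadditive hd).tendsto_lim (Cn_bddBelow hd)

theorem tendsto_Cn_rpow (hd : 1 ≤ d) :
    Tendsto (fun n : ℕ => Cn d n ^ (1 / (n : ℝ))) atTop (𝓝 (mu d)) := by
  have h := (Real.continuous_exp.tendsto _).comp (tendsto_log_Cn hd)
  rw [Real.exp_log (mu_pos d)] at h
  refine h.congr fun n => ?_
  have h1 := one_le_Cn hd n
  rw [Real.rpow_def_of_pos (by linarith)]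
  simp only [Function.comp_apply]
  congr 1
  ring

theorem mu_pow_le (hd : 1 ≤ d) (n : ℕ) : mu d ^ n ≤ Cn d n := by
  rcases Nat.eq_zero_or_pos n with h0 | h0
  · subst h0
    rw [pow_zero, Cn_zero]
  · have h1 := (Cn_log_subadditive hd).lim_le_div (Cn_bddBelow hd) h0.ne'
    have hn : (0 : ℝ) < n := by exact_mod_cast h0
    rw [le_div_iff₀ hn] at h1
    have h2 := one_le_Cn hd n
    rw [← Real.log_le_log_iff (pow_pos (mu_pos d) n) (by linarith), Real.log_pow]
    unfold mu
    rw [dif_pos hd, Real.log_exp]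
    linarith

theorem le_mu (hd : 1 ≤ d) : (d : ℝ) ≤ mu d := by
  have hd0 : (0 : ℝ) < d := by exact_mod_cast hd
  rw [← Real.log_le_log_iff hd0 (mu_pos d)]
  refine ge_of_tendsto (tendsto_log_Cn hd) ?_
  filter_upwards [eventually_ge_atTop 1] with n hn
  have hn0 : (0 : ℝ) < n := by exact_mod_cast hn
  rw [le_div_iff₀ hn0, mul_comm, ← Real.log_pow]
  exact Real.log_le_log (pow_pos hd0 n) (Cn_ge n)

/-- summability below the critical point -/
theorem Cn_summable (hd : 1 ≤ d) {z : ℝ} (hz : 0 ≤ z) (hz1 : z * mu d < 1) :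
    Summable fun n => Cn d n * z ^ n := by
  have hmu := mu_pos d
  obtain ⟨ρ, hρ1, hρ2⟩ : ∃ ρ, mu d < ρ ∧ z * ρ < 1 := by
    rcases eq_or_lt_of_le hz with h0 | h0
    · exact ⟨mu d + 1, by linarith, by rw [← h0]; norm_num⟩
    · have h1 : mu d < 1 / z := by
        rw [lt_div_iff₀ h0]; linarith
      obtain ⟨ρ, h2, h3⟩ := exists_between h1
      refine ⟨ρ, h2, ?_⟩
      rw [lt_div_iff₀ h0] at h3
      linarith
  have hρ0 : 0 < ρ := hmu.trans hρ1
  have h1 : ∀ᶠ n : ℕ in atTop, Real.log (Cn d n) / n ≤ Real.log ρ := by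
    have h2 : Real.log (mu d) < Real.log ρ := Real.log_lt_log hmu hρ1
    exact (tendsto_log_Cn hd).eventually_le_const h2
  have hg : Summable fun n : ℕ => (z * ρ) ^ n :=
    summable_geometric_of_lt_one (by positivity) hρ2
  refine Summable.of_norm_bounded_eventually_nat hg ?_
  filter_upwards [h1, eventually_ge_atTop 1] with n hn hn1
  have h3 := one_le_Cn hd n
  have hn0 : (0 : ℝ) < n := by exact_mod_cast hn1
  rw [div_le_iff₀ hn0, mul_comm, ← Real.log_pow,
    Real.log_le_log_iff (by linarith) (pow_pos hρ0 n)] at hn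
  rw [Real.norm_of_nonneg (by positivity), mul_pow, mul_comm (z ^ n)]
  exact mul_le_mul_of_nonneg_right hn (by positivity)

/-- generating function of the two-point function -/
noncomputable def G (z : ℝ) (x : V d) : ℝ := ∑' n : ℕ, c n x * z ^ n

/-- subcriticality -/
structure Sub (d : ℕ) (z : ℝ) : Prop where
  hd : 1 ≤ d
  nn : 0 ≤ z
  lt : z * mu d < 1

theorem Sub.mono {z z' : ℝ} (h : Sub d z') (h0 : 0 ≤ z) (hz : z ≤ z') : Sub d z :=
  ⟨h.hd, h0, lt_of_le_of_lt (mul_le_mul_of_nonneg_right hz (mu_pos d).le) h.lt⟩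

theorem Sub.summable {z : ℝ} (h : Sub d z) : Summable fun n => Cn d n * z ^ n :=
  Cn_summable h.hd h.nn h.lt

theorem Sub.prod {z : ℝ} (h : Sub d z) :
    Summable fun p : ℕ × V d => c p.1 p.2 * z ^ p.1 := by
  rw [summable_prod_of_nonneg fun p => mul_nonneg (c_nonneg _ _) (pow_nonneg h.nn _)]
  refine ⟨fun n => (c_summable n).mul_right (z ^ n), ?_⟩
  refine h.summable.congr fun n => ?_
  unfold Cn
  exact tsum_mul_right.symm

theorem Sub.pt {z : ℝ} (h : Sub d z) (x : V d) : Summable fun n : ℕ => c n x * z ^ n :=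
  h.prod.prod_symm.prod_factor x

theorem Sub.G_summable {z : ℝ} (h : Sub d z) : Summable (G z : V d → ℝ) := h.prod.prod_symm.prod

theorem Sub.G_nonneg {z : ℝ} (h : Sub d z) (x : V d) : 0 ≤ G z x :=
  tsum_nonneg fun n => mul_nonneg (c_nonneg _ _) (pow_nonneg h.nn _)

theorem G_even (z : ℝ) (x : V d) : G z (-x) = G z x := by
  unfold G
  simp only [c_even]

/-- susceptibility -/
noncomputable def chi (d : ℕ) (z : ℝ) : ℝ := ∑' n, Cn d n * z ^ n

theorem Sub.tsum_G {z : ℝ} (h : Sub d z) : ∑' x : V d, G z x = chi d z := by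
  have h1 : Summable (Function.uncurry fun (n : ℕ) (x : V d) => c n x * z ^ n) := h.prod
  unfold G chi Cn
  rw [h1.tsum_comm]
  exact tsum_congr fun n => tsum_mul_right

theorem Sub.one_le_chi {z : ℝ} (h : Sub d z) : 1 ≤ chi d z := by
  have h1 := h.summable.le_tsum 0 fun n _ =>
    mul_nonneg (by have := one_le_Cn h.hd n; linarith) (pow_nonneg h.nn n)
  rwa [Cn_zero, pow_zero, mul_one] at h1

theorem Sub.partial_le {z : ℝ} (h : Sub d z) (M : ℕ) (x : V d) :
    ∑ n ∈ range M, c n x * z ^ n ≤ G z x :=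
  (h.pt x).sum_le_tsum _ fun n _ => mul_nonneg (c_nonneg _ _) (pow_nonneg h.nn _)

/-- `1/χ ≤ 1 - z μ` -/
theorem Sub.chi_ge {z : ℝ} (h : Sub d z) : 1 ≤ (1 - z * mu d) * chi d z := by
  have h1 : (1 - z * mu d)⁻¹ ≤ chi d z := by
    rw [← tsum_geometric_of_lt_one (mul_nonneg h.nn (mu_pos d).le) h.lt]
    refine Summable.tsum_le_tsum (fun n => ?_) (summable_geometric_of_lt_one
      (mul_nonneg h.nn (mu_pos d).le) h.lt) h.summable
    rw [mul_pow, mul_comm]
    exact mul_le_mul_of_nonneg_right (mu_pow_le h.hd n) (pow_nonneg h.nn n)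
  have h2 : 0 < 1 - z * mu d := by linarith [h.lt]
  rw [inv_le_iff_one_le_mul₀ h2] at h1
  linarith

theorem Sub.chi_mono {z z' : ℝ} (h : Sub d z') (h0 : 0 ≤ z) (hz : z ≤ z') :
    chi d z ≤ chi d z' := by
  refine (h.mono h0 hz).summable.tsum_le_tsum (fun n => ?_) h.summable
  refine mul_le_mul_of_nonneg_left (pow_le_pow_left₀ h0 hz n) ?_
  have := one_le_Cn h.hd n
  linarith

/-- Lipschitz bound for the susceptibility -/
theorem Sub.chi_lip {z₁ : ℝ} (h : Sub d z₁) : ∃ L : ℝ, 0 ≤ L ∧ ∀ p q : ℝ, 0 ≤ p → p ≤ q →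
    q ≤ z₁ → chi d q - chi d p ≤ L * (q - p) := by
  -- a slightly larger subcritical point
  obtain ⟨r, hr1, hr⟩ : ∃ r, z₁ < r ∧ Sub d r := by
    have hmu := mu_pos d
    have h1 : z₁ < 1 / mu d := by
      rw [lt_div_iff₀ hmu]; exact h.lt
    obtain ⟨r, h2, h3⟩ := exists_between h1
    rw [lt_div_iff₀ hmu] at h3
    exact ⟨r, h2, h.hd, h.nn.trans h2.le, h3⟩
  have hr0 : 0 < r := lt_of_le_of_lt h.nn hr1
  refine ⟨chi d r / (r - z₁), div_nonneg (by linarith [hr.one_le_chi]) (by linarith), ?_⟩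
  intro p q hp hpq hq
  have hsq : Sub d q := h.mono (hp.trans hpq) hq
  have hsp : Sub d p := hsq.mono hp hpq
  unfold chi
  rw [← hsq.summable.tsum_sub hsp.summable, div_mul_eq_mul_div, le_div_iff₀ (by linarith)]
  rw [← tsum_mul_right, ← tsum_mul_right]
  refine Summable.tsum_le_tsum (fun n => ?_) ((hsq.summable.sub hsp.summable).mul_right _)
    (hr.summable.mul_right _)
  have hC : 0 ≤ Cn d n := by have := one_le_Cn h.hd n; linarith
  have key : ∀ n : ℕ, (q ^ n - p ^ n) * (r - z₁) ≤ r ^ n * (q - p) := by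
    intro n
    have hq0 : 0 ≤ q := hp.trans hpq
    have e1 : (r - q) * (q ^ n - p ^ n) ≤ (q - p) * (r ^ n - q ^ n) := by
      -- convexity
      have hg1 : q ^ n - p ^ n ≤ (n : ℝ) * q ^ (n - 1) * (q - p) := by
        have e := Commute.geom_sum₂_mul (Commute.all q p) n
        rw [← e]
        refine mul_le_mul_of_nonneg_right ?_ (by linarith)
        calc ∑ i ∈ range n, q ^ i * p ^ (n - 1 - i) ≤ ∑ i ∈ range n, q ^ (n - 1) := by
              refine Finset.sum_le_sum fun i hi => ?_
              rw [Finset.mem_range] at hi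
              calc q ^ i * p ^ (n - 1 - i) ≤ q ^ i * q ^ (n - 1 - i) :=
                    mul_le_mul_of_nonneg_left (pow_le_pow_left₀ hp hpq _) (by positivity)
                _ = q ^ (n - 1) := by rw [← pow_add]; congr 1; omega
          _ = (n : ℝ) * q ^ (n - 1) := by simp
      have hg2 : (n : ℝ) * q ^ (n - 1) * (r - q) ≤ r ^ n - q ^ n := by
        have e := Commute.geom_sum₂_mul (Commute.all r q) n
        rw [← e]
        refine mul_le_mul_of_nonneg_right ?_ (by linarith)
        calc (n : ℝ) * q ^ (n - 1) = ∑ i ∈ range n, q ^ (n - 1) := by simp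
          _ ≤ ∑ i ∈ range n, r ^ i * q ^ (n - 1 - i) := by
              refine Finset.sum_le_sum fun i hi => ?_
              rw [Finset.mem_range] at hi
              calc q ^ (n - 1) = q ^ i * q ^ (n - 1 - i) := by
                    rw [← pow_add]; congr 1; omega
                _ ≤ r ^ i * q ^ (n - 1 - i) :=
                    mul_le_mul_of_nonneg_right (pow_le_pow_left₀ hq0 (by linarith) _)
                      (by positivity)
      have h3 : (r - q) * (q ^ n - p ^ n) ≤ (r - q) * ((n : ℝ) * q ^ (n - 1) * (q - p)) :=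
        mul_le_mul_of_nonneg_left hg1 (by linarith)
      have h4 : (q - p) * ((n : ℝ) * q ^ (n - 1) * (r - q)) ≤ (q - p) * (r ^ n - q ^ n) :=
        mul_le_mul_of_nonneg_left hg2 (by linarith)
      linarith
    have e2 : 0 ≤ q ^ n - p ^ n := sub_nonneg.2 (pow_le_pow_left₀ hp hpq n)
    have e3 : 0 ≤ q ^ n := by positivity
    nlinarith
  have h5 := mul_le_mul_of_nonneg_left (key n) hC
  linarith

end Pool.Agent.helper91.SW
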