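import Pool.Agent.helper91.SW.Path
import Pool.Agent.helper90.FP.LConv

/-!
# Self-avoiding walks in high dimensions: the lace terms
-/

set_option autoImplicit false

open Finset
open Pool.Agent.helper55.FP

namespace Pool.Agent.helper91.SW

variable {d : ℕ}

/-- the walks from `y` avoiding `β` which hit `γ` at their endpoint and not before, recorded as
pairs (visited set, endpoint) -/
noncomputable def HW : ℕ → Finset (V d) → Finset (V d) → V d → Multiset (Finset (V d) × V d)
  | 0, _, _, _ => 0
  | n + 1, γ, β, y => ∑ s : Fin d × Bool,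
      if y + nb s ∈ β then 0 else
        if y + nb s ∈ γ then (if n = 0 then {(insert (y + nb s) β, y + nb s)} else 0) else
          HW n γ (insert (y + nb s) β) (y + nb s)

/-- sum over the walks in `HW` -/
noncomputable def hs (n : ℕ) (γ β : Finset (V d)) (y : V d) (Φ : Finset (V d) → V d → ℝ) : ℝ :=
  ((HW n γ β y).map (fun p => Φ p.1 p.2)).sum

theorem hs_zero (γ β : Finset (V d)) (y : V d) (Φ : Finset (V d) → V d → ℝ) :
    hs 0 γ β y Φ = 0 := by
  simp [hs, HW]

theorem hs_succ (n : ℕ) (γ β : Finset (V d)) (y : V d) (Φ : Finset (V d) → V d → ℝ) :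
    hs (n + 1) γ β y Φ = ∑ s : Fin d × Bool,
      if y + nb s ∈ β then 0 else
        if y + nb s ∈ γ then (if n = 0 then Φ (insert (y + nb s) β) (y + nb s) else 0) else
          hs n γ (insert (y + nb s) β) (y + nb s) Φ := by
  unfold hs
  rw [HW]
  have h : ∀ (T : Finset (Fin d × Bool)) (F : Fin d × Bool → Multiset (Finset (V d) × V d)),
      ((∑ s ∈ T, F s).map (fun p => Φ p.1 p.2)).sum =
        ∑ s ∈ T, ((F s).map (fun p => Φ p.1 p.2)).sum := by
    intro T F
    induction T using Finset.induction_on with
    | empty => simp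
    | insert a T ha ih =>
      rw [Finset.sum_insert ha, Finset.sum_insert ha, Multiset.map_add, Multiset.sum_add, ih]
  rw [h]
  refine Finset.sum_congr rfl fun s _ => ?_
  split_ifs <;> simp

/-- facts about the recorded walks -/
theorem HW_mem (n : ℕ) : ∀ (γ β : Finset (V d)) (y : V d), ∀ p ∈ HW n γ β y,
    p.2 ∈ p.1 ∧ p.1.card = β.card + n ∧ ∑ i, |p.2 i - y i| ≤ n := by
  induction n with
  | zero => intro γ β y p hp; simp [HW] at hp
  | succ n ih =>
    intro γ β y p hp
    rw [HW, Multiset.mem_sum] at hp
    obtain ⟨s, _, hs⟩ := hp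
    have h3 : ∑ i, |(nb s : V d) i| = 1 := by
      obtain ⟨j, b⟩ := s
      have : ∀ i, |(nb (j, b) : V d) i| = if i = j then 1 else 0 := by
        intro i
        by_cases hij : i = j
        · subst hij
          cases b <;> simp [nb, LCt_nb]
        · cases b <;> simp [nb, LCt_nb, hij]
      rw [Finset.sum_congr rfl fun i _ => this i]
      simp
    by_cases h1 : y + nb s ∈ β
    · rw [if_pos h1] at hs; simp at hs
    rw [if_neg h1] at hs
    by_cases h2 : y + nb s ∈ γ
    · rw [if_pos h2] at hs
      by_cases h0 : n = 0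
      · rw [if_pos h0, Multiset.mem_singleton] at hs
        subst hs
        refine ⟨Finset.mem_insert_self _ _, ?_, ?_⟩
        · simp only
          rw [Finset.card_insert_of_notMem h1, h0]
        · simp only [Pi.add_apply, add_sub_cancel_left]
          rw [h3, h0]
          norm_num
      · rw [if_neg h0] at hs; simp at hs
    · rw [if_neg h2] at hs
      obtain ⟨a1, a2, a3⟩ := ih _ _ _ p hs
      refine ⟨a1, ?_, ?_⟩
      · rw [a2, Finset.card_insert_of_notMem h1]; ring
      · have h4 : ∀ i, |p.2 i - y i| ≤ |p.2 i - (y + nb s) i| + |(nb s : V d) i| := by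
          intro i
          have : p.2 i - y i = (p.2 i - (y + nb s) i) + (nb s : V d) i := by
            rw [Pi.add_apply]; ring
          rw [this]
          exact abs_add_le _ _
        calc ∑ i, |p.2 i - y i| ≤ ∑ i, (|p.2 i - (y + nb s) i| + |(nb s : V d) i|) :=
              Finset.sum_le_sum fun i _ => h4 i
          _ = ∑ i, |p.2 i - (y + nb s) i| + 1 := by rw [Finset.sum_add_distrib, h3]
          _ ≤ n + 1 := by linarith
          _ = ((n + 1 : ℕ) : ℤ) := by push_cast; ring

theorem hs_congr {n : ℕ} {γ β : Finset (V d)} {y : V d} {Φ Ψ : Finset (V d) → V d → ℝ}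
    (h : ∀ β' u, u ∈ β' → β'.card = β.card + n → ∑ i, |u i - y i| ≤ n → Φ β' u = Ψ β' u) :
    hs n γ β y Φ = hs n γ β y Ψ := by
  unfold hs
  congr 1
  refine Multiset.map_congr rfl fun p hp => ?_
  obtain ⟨a, b, c⟩ := HW_mem n γ β y p hp
  exact h p.1 p.2 a b c

theorem hs_mono {n : ℕ} {γ β : Finset (V d)} {y : V d} {Φ Ψ : Finset (V d) → V d → ℝ}
    (h : ∀ β' u, u ∈ β' → β'.card = β.card + n → Φ β' u ≤ Ψ β' u) :
    hs n γ β y Φ ≤ hs n γ β y Ψ := by
  unfold hs
  refine Multiset.sum_map_le_sum_map _ _ fun p hp => ?_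
  obtain ⟨a, b, -⟩ := HW_mem n γ β y p hp
  exact h p.1 p.2 a b

theorem hs_zero_fun (n : ℕ) (γ β : Finset (V d)) (y : V d) :
    hs n γ β y (fun _ _ => 0) = 0 := by
  simp [hs]

theorem hs_nonneg {n : ℕ} {γ β : Finset (V d)} {y : V d} {Φ : Finset (V d) → V d → ℝ}
    (h : ∀ β' u, 0 ≤ Φ β' u) : 0 ≤ hs n γ β y Φ := by
  rw [← hs_zero_fun n γ β y]
  exact hs_mono fun β' u _ _ => h β' u

theorem hs_mul (n : ℕ) (γ β : Finset (V d)) (y : V d) (a : ℝ) (Φ : Finset (V d) → V d → ℝ) :
    hs n γ β y (fun β' u => a * Φ β' u) = a * hs n γ β y Φ := by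
  unfold hs
  exact Multiset.sum_map_mul_left

theorem hs_sum {ι : Type*} (n : ℕ) (γ β : Finset (V d)) (y : V d) (s : Finset ι)
    (Φ : ι → Finset (V d) → V d → ℝ) :
    hs n γ β y (fun β' u => ∑ i ∈ s, Φ i β' u) = ∑ i ∈ s, hs n γ β y (Φ i) := by
  classical
  unfold hs
  induction s using Finset.induction_on with
  | empty => simp
  | insert a s ha ih =>
    rw [Finset.sum_insert ha, ← ih, ← Multiset.sum_map_add]
    simp only [Finset.sum_insert ha]

theorem hs_abs_le (n : ℕ) (γ β : Finset (V d)) (y : V d) (Φ : Finset (V d) → V d → ℝ) :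
    |hs n γ β y Φ| ≤ hs n γ β y (fun β' u => |Φ β' u|) := by
  unfold hs
  refine (Multiset.abs_sum_le_sum_abs).trans (le_of_eq ?_)
  rw [Multiset.map_map]
  rfl

theorem hs_tsum_aux (M : Multiset (Finset (V d) × V d)) (Φ : Finset (V d) × V d → V d → ℝ)
    (h : ∀ p ∈ M, Summable (Φ p)) :
    Summable (fun v => (M.map fun p => Φ p v).sum) ∧
      (M.map fun p => ∑' v, Φ p v).sum = ∑' v, (M.map fun p => Φ p v).sum := by
  induction M using Multiset.induction_on with
  | empty => simp
  | cons p M ih =>
    obtain ⟨h1, h2⟩ := ih fun q hq => h q (Multiset.mem_cons_of_mem hq)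
    have h3 := h p (Multiset.mem_cons_self p M)
    refine ⟨?_, ?_⟩
    · simpa only [Multiset.map_cons, Multiset.sum_cons] using h3.add h1
    · simp only [Multiset.map_cons, Multiset.sum_cons]
      rw [h2, h3.tsum_add h1]

theorem hs_summable {n : ℕ} {γ β : Finset (V d)} {y : V d} {Φ : Finset (V d) → V d → V d → ℝ}
    (h : ∀ β' u, Summable (Φ β' u)) : Summable (fun v => hs n γ β y (fun β' u => Φ β' u v)) :=
  (hs_tsum_aux (HW n γ β y) (fun p => Φ p.1 p.2) fun p _ => h _ _).1

theorem hs_tsum {n : ℕ} {γ β : Finset (V d)} {y : V d} {Φ : Finset (V d) → V d → V d → ℝ}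
    (h : ∀ β' u, Summable (Φ β' u)) :
    hs n γ β y (fun β' u => ∑' v, Φ β' u v) = ∑' v, hs n γ β y (fun β' u => Φ β' u v) :=
  (hs_tsum_aux (HW n γ β y) (fun p => Φ p.1 p.2) fun p _ => h _ _).2

/-- the first hitting identity -/
theorem first_hit (n : ℕ) : ∀ (γ β : Finset (V d)) (y x : V d),
    A n β y x = A n (β ∪ γ) y x +
      ∑ j ∈ range (n + 1), hs j γ β y (fun β' u => A (n - j) β' u x) := by
  induction n with
  | zero =>
    intro γ β y x
    simp [A, hs_zero]
  | succ n ih =>
    intro γ β y x
    rw [Finset.sum_range_succ', hs_zero, add_zero]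
    simp only [A, hs_succ]
    rw [Finset.sum_comm, ← Finset.sum_add_distrib]
    refine Finset.sum_congr rfl fun s _ => ?_
    by_cases h1 : y + nb s ∈ β
    · simp [h1]
    by_cases h2 : y + nb s ∈ γ
    · simp only [h1, h2, if_true, if_false, Finset.mem_union, or_true, zero_add]
      rw [Finset.sum_eq_single 0]
      · simp
      · intro j _ hj
        rw [if_neg hj]
      · intro h; simp at h
    · have h3 : y + nb s ∉ β ∪ γ := by
        rw [Finset.mem_union]; tauto
      simp only [h1, h2, h3, if_false]
      rw [ih γ (insert (y + nb s) β) (y + nb s) x, Finset.insert_union]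
      congr 1
      refine Finset.sum_congr rfl fun j _ => ?_
      congr 1
      funext β' u
      congr 1
      omega

/-- the number of hitting walks -/
theorem hs_le (n : ℕ) {b : ℝ} (hb : 0 ≤ b) : ∀ {γ β : Finset (V d)} {y : V d}
    {Φ : Finset (V d) → V d → ℝ}
    (_ : ∀ β' u, u ∈ β' → β'.card = β.card + n → Φ β' u ≤ b),
    hs n γ β y Φ ≤ b * ∑ w ∈ γ \ β, A n β y w := by
  induction n with
  | zero =>
    intro γ β y Φ _
    rw [hs_zero]
    exact mul_nonneg hb (Finset.sum_nonneg fun w _ => A_nonneg _ _ _ _)
  | succ n ih =>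
    intro γ β y Φ hΦ
    rw [hs_succ]
    simp only [A]
    rw [Finset.sum_comm, Finset.mul_sum]
    refine Finset.sum_le_sum fun s _ => ?_
    by_cases h1 : y + nb s ∈ β
    · simp [h1]
    simp only [h1, if_false]
    by_cases h2 : y + nb s ∈ γ
    · rw [if_pos h2]
      have hnn : 0 ≤ b * ∑ w ∈ γ \ β, A n (insert (y + nb s) β) (y + nb s) w :=
        mul_nonneg hb (Finset.sum_nonneg fun w _ => A_nonneg _ _ _ _)
      by_cases h0 : n = 0
      · rw [if_pos h0]
        subst h0
        have h3 : Φ (insert (y + nb s) β) (y + nb s) ≤ b :=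
          hΦ _ _ (Finset.mem_insert_self _ _) (by rw [Finset.card_insert_of_notMem h1])
        have h4 : (1 : ℝ) ≤ ∑ w ∈ γ \ β, A 0 (insert (y + nb s) β) (y + nb s) w := by
          have h5 : y + nb s ∈ γ \ β := Finset.mem_sdiff.2 ⟨h2, h1⟩
          refine le_trans ?_ (Finset.single_le_sum (fun w _ => A_nonneg _ _ _ _) h5)
          simp [A]
        nlinarith
      · rw [if_neg h0]
        exact hnn
    · rw [if_neg h2]
      have h5 := ih (γ := γ) (β := insert (y + nb s) β) (y := y + nb s) (Φ := Φ)
        (fun β' u hu hc => hΦ β' u hu (by rw [hc, Finset.card_insert_of_notMem h1]; ring))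
      refine h5.trans (mul_le_mul_of_nonneg_left ?_ hb)
      refine Finset.sum_le_sum_of_subset_of_nonneg ?_ fun w _ _ => A_nonneg _ _ _ _
      exact Finset.sdiff_subset_sdiff le_rfl (Finset.subset_insert _ _)

/-! ## summability of `A` and `c` -/

theorem A_summable (n : ℕ) : ∀ (β : Finset (V d)) (y : V d), Summable (A n β y) := by
  induction n with
  | zero =>
    intro β y
    refine summable_of_ne_finset_zero (s := {y}) fun x hx => ?_
    simp only [A]
    rw [if_neg]
    intro h
    exact hx (by simp [h])
  | succ n ih =>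
    intro β y
    have : A (n + 1) β y = fun x => ∑ s : Fin d × Bool,
      if y + nb s ∈ β then 0 else A n (insert (y + nb s) β) (y + nb s) x := by
      funext x; rw [A]
    rw [this]
    refine summable_sum fun s _ => ?_
    split_ifs
    · exact summable_zero
    · exact ih _ _

theorem c_summable (n : ℕ) : Summable (c n : V d → ℝ) := A_summable n _ _

/-! ## the lace terms -/

/-- signed lace terms with fuel `k` -/
noncomputable def P : ℕ → ℕ → Finset (V d) → V d → V d → ℝ
  | 0, m, _, y, v => if m = 0 ∧ v = y then 1 else 0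
  | k + 1, m, γ, y, v => (if m = 0 ∧ v = y then 1 else 0) -
      ∑ j ∈ range (m + 1), hs j γ {y} y (fun β' u => P k (m - j) β' u v)

theorem P_summable (k : ℕ) : ∀ (m : ℕ) (γ : Finset (V d)) (y : V d), Summable (P k m γ y) := by
  have h0 : ∀ (m : ℕ) (y : V d), Summable (fun v : V d => if m = 0 ∧ v = y then (1 : ℝ) else 0) := by
    intro m y
    refine summable_of_ne_finset_zero (s := {y}) fun x hx => ?_
    rw [if_neg]
    rintro ⟨_, h⟩
    exact hx (by simp [h])
  induction k with
  | zero =>
    intro m γ y
    have : P 0 m γ y = fun v => if m = 0 ∧ v = y then 1 else 0 := by funext v; rw [P]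
    rw [this]
    exact h0 m y
  | succ k ih =>
    intro m γ y
    have : P (k + 1) m γ y = fun v => (if m = 0 ∧ v = y then 1 else 0) -
      ∑ j ∈ range (m + 1), hs j γ {y} y (fun β' u => P k (m - j) β' u v) := by funext v; rw [P]
    rw [this]
    exact (h0 m y).sub (summable_sum fun j _ => hs_summable fun β' u => ih _ _ _)

/-- enough fuel -/
theorem P_stable (m : ℕ) : ∀ (k k' : ℕ), m ≤ k → m ≤ k' → ∀ (γ : Finset (V d)) (y v : V d),
    P k m γ y v = P k' m γ y v := by
  induction m using Nat.strong_induction_on with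
  | _ m ih =>
    have key : ∀ (k : ℕ), m ≤ k → ∀ (γ : Finset (V d)) (y v : V d),
        P k m γ y v = (if m = 0 ∧ v = y then 1 else 0) -
          ∑ j ∈ range (m + 1), hs j γ {y} y (fun β' u => P (m - j) (m - j) β' u v) := by
      intro k hk γ y v
      cases k with
      | zero =>
        have : m = 0 := by omega
        subst this
        simp [P, hs_zero]
      | succ k =>
        rw [P]
        congr 1
        refine Finset.sum_congr rfl fun j hj => ?_
        rw [Finset.mem_range] at hj
        rcases Nat.eq_zero_or_pos j with h0 | h0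
        · subst h0; rw [hs_zero, hs_zero]
        · congr 1
          funext β' u
          exact ih (m - j) (by omega) k (m - j) (by omega) le_rfl β' u v
    intro k k' hk hk' γ y v
    rw [key k hk, key k' hk']

/-- the lace identity for a general starting set -/
theorem lace_general (k : ℕ) : ∀ (n : ℕ), n ≤ k → ∀ (γ : Finset (V d)) (y x : V d), y ∈ γ →
    A n γ y x = ∑ m ∈ range (n + 1), conv (P k m γ y) (c (n - m)) x := by
  have hδ : ∀ (n m : ℕ) (y x : V d), ∑' v, (if m = 0 ∧ v = y then (1 : ℝ) else 0) * c n (x - v) =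
      if m = 0 then c n (x - y) else 0 := by
    intro n m y x
    by_cases hm : m = 0
    · subst hm
      rw [tsum_eq_single y]
      · simp
      · intro v hv; simp [hv]
    · simp [hm]
  have h1 : ∀ (n m : ℕ) (y x : V d),
      Summable (fun v => (if m = 0 ∧ v = y then (1 : ℝ) else 0) * c n (x - v)) := by
    intro n m y x
    refine summable_of_ne_finset_zero (s := {y}) fun v hv => ?_
    rw [if_neg, zero_mul]
    rintro ⟨_, h⟩
    exact hv (by simp [h])
  induction k with
  | zero =>
    intro n hn γ y x _
    have : n = 0 := by omega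
    subst this
    rw [zero_add, Finset.sum_range_one]
    unfold conv
    have e := hδ 0 0 y x
    simp only [true_and, if_true] at e
    simp only [P, Nat.sub_zero, true_and]
    rw [e, ← A_eq_c]
    simp [A]
  | succ k ih =>
    intro n hn γ y x hy
    have hfh := first_hit n γ {y} y x
    have e1 : ({y} : Finset (V d)) ∪ γ = γ := by
      rw [Finset.union_eq_right]; exact Finset.singleton_subset_iff.2 hy
    rw [e1, A_eq_c] at hfh
    have e2 : ∀ j ∈ range (n + 1), hs j γ {y} y (fun β' u => A (n - j) β' u x) =
        ∑ m ∈ range (n + 1 - j), ∑' v, hs j γ {y} y (fun β' u => P k m β' u v) *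
          c (n - j - m) (x - v) := by
      intro j hj
      rw [Finset.mem_range] at hj
      rcases Nat.eq_zero_or_pos j with h0 | h0
      · subst h0
        simp [hs_zero]
      · have e3 : hs j γ {y} y (fun β' u => A (n - j) β' u x) =
            hs j γ {y} y (fun β' u => ∑ m ∈ range (n - j + 1),
              ∑' v, P k m β' u v * c (n - j - m) (x - v)) := by
          refine hs_congr fun β' u hu _ _ => ?_
          exact ih (n - j) (by omega) β' u x hu
        rw [e3, hs_sum]
        have e4 : n - j + 1 = n + 1 - j := by omega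
        rw [e4]
        refine Finset.sum_congr rfl fun m _ => ?_
        rw [hs_tsum fun β' u => conv_point_summable (P_summable k m β' u) (c_summable _) x]
        refine tsum_congr fun v => ?_
        have e5 := hs_mul j γ {y} y (c (n - j - m) (x - v)) (fun β' u => P k m β' u v)
        rw [mul_comm, ← e5]
        congr 1
        funext β' u
        ring
    rw [Finset.sum_congr rfl e2] at hfh
    have e6 := Finset.sum_range_diag_flip (n + 1) (fun j m => ∑' v,
      hs j γ {y} y (fun β' u => P k m β' u v) * c (n - j - m) (x - v))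
    rw [← e6] at hfh
    have e7 : ∀ m ∈ range (n + 1), conv (P (k + 1) m γ y) (c (n - m)) x =
        (if m = 0 then c n (x - y) else 0) - ∑ j ∈ range (m + 1),
          ∑' v, hs j γ {y} y (fun β' u => P k (m - j) β' u v) * c (n - j - (m - j)) (x - v) := by
      intro m hm
      rw [Finset.mem_range] at hm
      unfold conv
      have e8 : ∀ v, P (k + 1) m γ y v * c (n - m) (x - v) =
          (if m = 0 ∧ v = y then (1 : ℝ) else 0) * c (n - m) (x - v) -
          ∑ j ∈ range (m + 1), hs j γ {y} y (fun β' u => P k (m - j) β' u v) *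
            c (n - j - (m - j)) (x - v) := by
        intro v
        rw [P, sub_mul, Finset.sum_mul]
        congr 1
        refine Finset.sum_congr rfl fun j hj => ?_
        rw [Finset.mem_range] at hj
        have : n - j - (m - j) = n - m := by omega
        rw [this]
      have h2 : ∀ j, Summable (fun v => hs j γ {y} y (fun β' u => P k (m - j) β' u v) *
            c (n - j - (m - j)) (x - v)) := fun j =>
        conv_point_summable (f := fun v => hs j γ {y} y (fun β' u => P k (m - j) β' u v))
          (hs_summable fun β' u => P_summable k _ _ _) (c_summable _) x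
      rw [tsum_congr e8, (h1 _ _ _ _).tsum_sub (summable_sum fun j _ => h2 j), hδ,
        Summable.tsum_finsetSum fun j _ => h2 j]
      congr 1
      by_cases hm0 : m = 0
      · subst hm0; simp
      · simp [hm0]
    rw [Finset.sum_congr rfl e7, Finset.sum_sub_distrib]
    rw [Finset.sum_ite_eq' (range (n + 1)) 0, if_pos (by simp)]
    linarith

/-- the coefficients `π_{m+1}` -/
noncomputable def pi (m : ℕ) (v : V d) : ℝ :=
  ∑ s : Fin d × Bool, (P m m {0, nb s} (nb s) v - if m = 0 ∧ v = nb s then 1 else 0)

theorem pi_summable (m : ℕ) : Summable (pi m : V d → ℝ) := by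
  unfold pi
  refine summable_sum fun s _ => (P_summable _ _ _ _).sub ?_
  refine summable_of_ne_finset_zero (s := {nb s}) fun x hx => ?_
  rw [if_neg]
  rintro ⟨_, h⟩
  exact hx (by simp [h])

theorem nb_ne_zero (s : Fin d × Bool) : (nb s : V d) ≠ 0 := by
  intro h
  obtain ⟨i, b⟩ := s
  have := congrFun h i
  cases b <;> simp [nb, LCt_nb] at this

/-- the lace expansion -/
theorem lace (n : ℕ) (x : V d) : c (n + 1) x = conv (pJ 1) (c n) x +
    ∑ m ∈ range (n + 1), conv (pi m) (c (n - m)) x := by
  have h1 : c (n + 1) x = ∑ s : Fin d × Bool, A n {0, nb s} (nb s) x := by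
    rw [c, A]
    refine Finset.sum_congr rfl fun s _ => ?_
    rw [zero_add, if_neg (by rw [Finset.mem_singleton]; exact nb_ne_zero s), Finset.pair_comm]
  have h2 : ∀ s : Fin d × Bool, A n {0, nb s} (nb s) x = c n (x - nb s) +
      ∑ m ∈ range (n + 1), ∑' v, (P m m {0, nb s} (nb s) v - if m = 0 ∧ v = nb s then 1 else 0) *
        c (n - m) (x - v) := by
    intro s
    rw [lace_general n n le_rfl _ _ _ (by simp)]
    have h3 : ∀ m ∈ range (n + 1), conv (P n m {0, nb s} (nb s)) (c (n - m)) x =
        (if m = 0 then c n (x - nb s) else 0) +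
          ∑' v, (P m m {0, nb s} (nb s) v - if m = 0 ∧ v = nb s then 1 else 0) *
            c (n - m) (x - v) := by
      intro m hm
      rw [Finset.mem_range] at hm
      unfold conv
      simp only [sub_mul]
      have h4 : Summable (fun v => (if m = 0 ∧ v = nb s then (1 : ℝ) else 0) *
          c (n - m) (x - v)) := by
        refine summable_of_ne_finset_zero (s := {nb s}) fun v hv => ?_
        rw [if_neg, zero_mul]
        rintro ⟨_, h⟩
        exact hv (by simp [h])
      have h5 := conv_point_summable (P_summable m m {0, nb s} (nb s)) (c_summable (n - m)) x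
      rw [h5.tsum_sub h4]
      have h6 : ∑' v, (if m = 0 ∧ v = nb s then (1 : ℝ) else 0) * c (n - m) (x - v) =
          if m = 0 then c n (x - nb s) else 0 := by
        by_cases hm0 : m = 0
        · subst hm0
          rw [tsum_eq_single (nb s)]
          · simp
          · intro v hv; simp [hv]
        · simp [hm0]
      rw [h6, add_sub_cancel]
      refine tsum_congr fun v => ?_
      rw [P_stable m n m (by omega) le_rfl]
    rw [Finset.sum_congr rfl h3, Finset.sum_add_distrib, Finset.sum_ite_eq' (range (n + 1)) 0,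
      if_pos (by simp)]
  rw [h1, Finset.sum_congr rfl fun s _ => h2 s, Finset.sum_add_distrib]
  congr 1
  · unfold conv
    rw [LCt_tsum, one_mul, Fintype.sum_prod_type]
    refine Finset.sum_congr rfl fun i _ => ?_
    simp [nb, LCt_nb]
  · rw [Finset.sum_comm]
    refine Finset.sum_congr rfl fun m _ => ?_
    unfold conv pi
    rw [← Summable.tsum_finsetSum]
    · refine tsum_congr fun v => ?_
      rw [Finset.sum_mul]
    · intro s _
      refine conv_point_summable (f := fun v => P m m {0, nb s} (nb s) v -
        if m = 0 ∧ v = nb s then 1 else 0) ((P_summable _ _ _ _).sub ?_) (c_summable _) x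
      refine summable_of_ne_finset_zero (s := {nb s}) fun v hv => ?_
      rw [if_neg]
      rintro ⟨_, h⟩
      exact hv (by simp [h])

end Pool.Agent.helper91.SW
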