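import Pool.Agent.helper91.SW.Sup2

/-!
# Self-avoiding walks in high dimensions: the mean square displacement
-/

set_option autoImplicit false

open Finset MeasureTheory
open Pool.Agent.helper55.FP hiding chi

namespace Pool.Agent.helper91.SW

variable {d : ℕ} {ε : ℝ}

/-- the cube of side `2r + 1` -/
noncomputable def cube (d r : ℕ) : Finset (V d) := Fintype.piFinset fun _ : Fin d => Finset.Icc (-(r : ℤ)) r

theorem mem_cube {r : ℕ} {x : V d} : x ∈ cube d r ↔ ∀ i, |x i| ≤ r := by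
  unfold cube
  rw [Fintype.mem_piFinset]
  refine forall_congr' fun i => ?_
  rw [Finset.mem_Icc, abs_le]

theorem card_cube (r : ℕ) : (cube d r).card = (2 * r + 1) ^ d := by
  unfold cube
  rw [Fintype.card_piFinset]
  simp only [Int.card_Icc, Finset.prod_const, Finset.card_univ, Fintype.card_fin]
  congr 1
  omega

theorem c_supp {n : ℕ} {x : V d} (h : c n x ≠ 0) : x ∈ cube d n := by
  have h1 := A_support n {0} 0 x h
  rw [mem_cube]
  intro i
  have h2 : |x i - (0 : V d) i| ≤ ∑ i, |x i - (0 : V d) i| :=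
    Finset.single_le_sum (f := fun i => |x i - (0 : V d) i|) (fun i _ => abs_nonneg _)
      (Finset.mem_univ i)
  have h3 : |x i| = |x i - (0 : V d) i| := by simp
  rw [h3]
  exact h2.trans h1

theorem tsum_c (n : ℕ) (f : V d → ℝ) : ∑' x, f x * c n x = ∑ x ∈ cube d n, f x * c n x := by
  apply tsum_eq_sum
  intro x hx
  have : c n x = 0 := by
    by_contra h
    exact hx (c_supp h)
  rw [this, mul_zero]

theorem c_summable' (n : ℕ) (f : V d → ℝ) : Summable fun x => f x * c n x := by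
  apply summable_of_ne_finset_zero (s := cube d n)
  intro x hx
  have : c n x = 0 := by
    by_contra h
    exact hx (c_supp h)
  rw [this, mul_zero]

/-- Euclidean norm squared -/
noncomputable def n2 (x : V d) : ℝ := ∑ i, (x i : ℝ) ^ 2

/-- sum of the squared distances -/
noncomputable def M2 (d n : ℕ) : ℝ := ∑' x : V d, n2 x * c n x

theorem one_le_Cnz (hd : 1 ≤ d) (n : ℕ) : 1 ≤ Cn d n * zc d ^ n := by
  have h1 := mu_pow_le hd n
  have h2 := mul_le_mul_of_nonneg_right h1 (pow_nonneg (zc_pos d).le n)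
  rw [← mul_pow, mul_comm (mu d), zc_mul, one_pow] at h2
  exact h2

theorem Cn_eq_sum (n : ℕ) : Cn d n = ∑ x ∈ cube d n, c n x := by
  have := tsum_c n (fun _ : V d => 1)
  simpa [Cn] using this

/-- second moment of one coordinate -/
theorem Crit.coord_le (h : Crit d ε) (hε : ε ≤ 1 / 2) (n : ℕ) (i : Fin d) :
    (∑' x : V d, (x i : ℝ) ^ 2 * c n x) * zc d ^ n ≤ 20 * (n + 1) / d := by
  have hpi := Real.pi_pos
  have hd := h.hd
  have hd0 : (0 : ℝ) < d := by positivity
  have hz := zc_pos d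
  set t : ℝ := Real.pi / (n + 1) with ht
  have htpos : 0 < t := by positivity
  set k : Fin d → ℝ := fun j => if j = i then t else 0 with hk
  have h1 := h.defect hε n k
  have hdot : ∀ x : V d, dotk k x = t * x i := by
    intro x
    unfold dotk
    rw [Finset.sum_eq_single i]
    · simp [hk]
    · intro j _ hj
      simp [hk, hj]
    · simp
  have hDh : 1 - Dh k = (1 - Real.cos t) / d := by
    unfold Dh
    have e1 : ∑ j, Real.cos (k j) = (d - 1) + Real.cos t := by
      have e2 : ∀ j, Real.cos (k j) = 1 + (if j = i then Real.cos t - 1 else 0) := by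
        intro j
        by_cases hj : j = i
        · simp [hk, hj]
        · simp [hk, hj]
      rw [Finset.sum_congr rfl fun j _ => e2 j, Finset.sum_add_distrib]
      simp
      ring
    rw [e1]
    field_simp
    ring
  have hl : PowerSeries.coeff n (aS (0 : Fin d → ℝ)) - PowerSeries.coeff n (aS k) =
      (∑' x : V d, (1 - Real.cos (t * x i)) * c n x) * zc d ^ n := by
    simp only [aS, PowerSeries.coeff_mk]
    rw [← sub_mul]
    congr 1
    unfold ct
    have s1 : Summable fun x : V d => c n x * Real.cos (dotk 0 x) := by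
      have := c_summable' n (fun x : V d => Real.cos (dotk 0 x))
      simpa only [mul_comm] using this
    have s2 : Summable fun x : V d => c n x * Real.cos (dotk k x) := by
      have := c_summable' n (fun x : V d => Real.cos (dotk k x))
      simpa only [mul_comm] using this
    rw [← s1.tsum_sub s2]
    refine tsum_congr fun x => ?_
    rw [hdot]
    have : dotk (0 : Fin d → ℝ) x = 0 := by unfold dotk; simp
    rw [this, Real.cos_zero]
    ring
  rw [hl, hDh] at h1
  have h2 : 2 / Real.pi ^ 2 * t ^ 2 * (∑' x : V d, (x i : ℝ) ^ 2 * c n x) ≤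
      ∑' x : V d, (1 - Real.cos (t * x i)) * c n x := by
    rw [← tsum_mul_left]
    refine Summable.tsum_le_tsum (fun x => ?_) ((c_summable' n _).mul_left _) (c_summable' n _)
    by_cases hx : c n x = 0
    · rw [hx]; simp
    · have h3 := mem_cube.1 (c_supp hx) i
      have h4 : |t * (x i : ℝ)| ≤ Real.pi := by
        rw [abs_mul, abs_of_pos htpos, ht]
        have h5 : |(x i : ℝ)| ≤ n := by exact_mod_cast h3
        rw [div_mul_eq_mul_div, div_le_iff₀ (by positivity)]
        have := mul_le_mul_of_nonneg_left h5 hpi.le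
        nlinarith
      have h5 := Real.cos_le_one_sub_mul_cos_sq h4
      rw [← mul_assoc]
      refine mul_le_mul_of_nonneg_right ?_ (c_nonneg n x)
      have e : 2 / Real.pi ^ 2 * t ^ 2 * (x i : ℝ) ^ 2 = 2 / Real.pi ^ 2 * (t * (x i : ℝ)) ^ 2 := by
        ring
      rw [e]
      linarith
  have h3 : 1 - Real.cos t ≤ t ^ 2 / 2 := by
    have := Real.one_sub_sq_div_two_le_cos (x := t)
    linarith
  have h4 := mul_le_mul_of_nonneg_right h2 (pow_nonneg hz.le n)
  set S := (∑' x : V d, (x i : ℝ) ^ 2 * c n x) with hS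
  have h5 : 2 / Real.pi ^ 2 * t ^ 2 * (S * zc d ^ n) ≤ 8 * (n + 1) * (t ^ 2 / 2 / d) := by
    have h6 : (1 - Real.cos t) / d ≤ t ^ 2 / 2 / d := div_le_div_of_nonneg_right h3 hd0.le
    have h7 := mul_le_mul_of_nonneg_left h6 (by positivity : (0 : ℝ) ≤ 8 * (n + 1))
    linarith
  have h6 : S * zc d ^ n ≤ 2 * Real.pi ^ 2 * (n + 1) / d := by
    have ht2 : 0 < 2 / Real.pi ^ 2 * t ^ 2 := by positivity
    have h7 : 8 * (n + 1) * (t ^ 2 / 2 / d) =
        2 / Real.pi ^ 2 * t ^ 2 * (2 * Real.pi ^ 2 * (n + 1) / d) := by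
      field_simp
      ring
    rw [h7] at h5
    exact le_of_mul_le_mul_left h5 ht2
  refine h6.trans ?_
  rw [div_le_div_iff_of_pos_right hd0]
  have hpi2 : Real.pi ^ 2 ≤ 10 := by
    have := Real.pi_lt_d2
    nlinarith
  have hn0 : (0 : ℝ) ≤ n + 1 := by positivity
  nlinarith

theorem Crit.M2_le (h : Crit d ε) (hε : ε ≤ 1 / 2) (n : ℕ) : M2 d n * zc d ^ n ≤ 20 * (n + 1) := by
  have hd := h.hd
  have hd0 : (0 : ℝ) < d := by positivity
  have h1 : M2 d n = ∑ i : Fin d, ∑' x : V d, (x i : ℝ) ^ 2 * c n x := by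
    unfold M2 n2
    simp only [Finset.sum_mul]
    rw [Summable.tsum_finsetSum fun i _ => c_summable' n _]
  rw [h1, Finset.sum_mul]
  refine (Finset.sum_le_sum fun i _ => h.coord_le hε n i).trans (le_of_eq ?_)
  rw [Finset.sum_const, Finset.card_univ, Fintype.card_fin, nsmul_eq_mul]
  field_simp

theorem n2_ge {r : ℕ} {x : V d} (hx : x ∉ cube d r) : ((r : ℝ) + 1) ^ 2 ≤ n2 x := by
  rw [mem_cube] at hx
  push Not at hx
  obtain ⟨i, hi⟩ := hx
  have h1 : (r : ℝ) + 1 ≤ |(x i : ℝ)| := by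
    have : (r : ℤ) + 1 ≤ |x i| := hi
    exact_mod_cast this
  have h2 : (x i : ℝ) ^ 2 ≤ n2 x :=
    Finset.single_le_sum (f := fun i => (x i : ℝ) ^ 2) (fun i _ => sq_nonneg _)
      (Finset.mem_univ i)
  refine le_trans ?_ h2
  rw [← sq_abs (x i : ℝ)]
  exact pow_le_pow_left₀ (by positivity) h1 2

theorem n2_nonneg (x : V d) : 0 ≤ n2 x := Finset.sum_nonneg fun _ _ => sq_nonneg _

/-- lower bound of the second moment -/
theorem M2_ge {B : ℝ} (n r : ℕ) (hB : ∀ x : V d, c n x * zc d ^ n ≤ B) :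
    ((r : ℝ) + 1) ^ 2 * (Cn d n * zc d ^ n - (2 * r + 1) ^ d * B) ≤ M2 d n * zc d ^ n := by
  have hz := zc_pos d
  have h1 : ∀ x : V d, ((r : ℝ) + 1) ^ 2 * c n x ≤ n2 x * c n x +
      (if x ∈ cube d r then ((r : ℝ) + 1) ^ 2 * c n x else 0) := by
    intro x
    have hc := c_nonneg n x
    by_cases hx : x ∈ cube d r
    · rw [if_pos hx]
      have := mul_nonneg (n2_nonneg x) hc
      linarith
    · rw [if_neg hx, add_zero]
      exact mul_le_mul_of_nonneg_right (n2_ge hx) hc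
  have s3 : Summable fun x : V d => (if x ∈ cube d r then ((r : ℝ) + 1) ^ 2 * c n x else 0) := by
    apply summable_of_ne_finset_zero (s := cube d r)
    intro x hx
    rw [if_neg hx]
  have h2 := Summable.tsum_le_tsum h1 (c_summable' n _) ((c_summable' n _).add s3)
  rw [(c_summable' n _).tsum_add s3, tsum_mul_left] at h2
  have h3 : ∑' x : V d, (if x ∈ cube d r then ((r : ℝ) + 1) ^ 2 * c n x else 0) =
      ∑ x ∈ cube d r, ((r : ℝ) + 1) ^ 2 * c n x := by
    rw [tsum_eq_sum (s := cube d r) (fun x hx => by rw [if_neg hx])]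
    exact Finset.sum_congr rfl fun x hx => by rw [if_pos hx]
  rw [h3] at h2
  have h4 : (∑ x ∈ cube d r, ((r : ℝ) + 1) ^ 2 * c n x) * zc d ^ n ≤
      ((r : ℝ) + 1) ^ 2 * ((2 * r + 1) ^ d * B) := by
    rw [Finset.sum_mul]
    have h5 : ∀ x ∈ cube d r, ((r : ℝ) + 1) ^ 2 * c n x * zc d ^ n ≤ ((r : ℝ) + 1) ^ 2 * B := by
      intro x _
      rw [mul_assoc]
      exact mul_le_mul_of_nonneg_left (hB x) (by positivity)
    refine (Finset.sum_le_sum h5).trans (le_of_eq ?_)
    rw [Finset.sum_const, card_cube, nsmul_eq_mul]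
    push_cast
    ring
  have h5 := mul_le_mul_of_nonneg_right h2 (pow_nonneg hz.le n)
  have h6 : ∑' x : V d, c n x = Cn d n := rfl
  have h7 : ∑' x : V d, n2 x * c n x = M2 d n := rfl
  rw [h6, h7] at h5
  nlinarith

/-- the mean square displacement is of order `n` -/
theorem Crit.msd (h : Crit d ε) (hε : ε ≤ 1 / 12) : ∃ κ : ℝ, 0 < κ ∧ ∃ n₀ : ℕ, ∀ n ≥ n₀,
    κ * n ≤ M2 d n / Cn d n ∧ M2 d n / Cn d n ≤ 40 * n := by
  obtain ⟨B, hB, hsup⟩ := h.sup_bound hε
  have hd := h.hd
  have hz := zc_pos d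
  set ρ : ℝ := 1 / (3 * (2 * B + 1)) with hρ
  have hρ0 : 0 < ρ := by positivity
  obtain ⟨n₁, hn₁⟩ := exists_nat_gt (1 / ρ ^ 2)
  refine ⟨ρ ^ 2 / 2, by positivity, max n₁ 1, fun n hn => ?_⟩
  have hn1 : 1 ≤ n := le_trans (le_max_right _ _) hn
  have hn0 : (0 : ℝ) < n := by exact_mod_cast hn1
  have hnn : 1 / ρ ^ 2 < n := lt_of_lt_of_le hn₁ (by exact_mod_cast le_trans (le_max_left _ _) hn)
  have hC1 := one_le_Cnz hd n
  have hCn : 0 < Cn d n := by
    have := one_le_Cn hd n
    linarith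
  constructor
  · -- lower bound
    set r : ℕ := ⌊ρ * Real.sqrt n⌋₊ with hr
    have hsn : 0 < Real.sqrt n := Real.sqrt_pos.2 hn0
    have h1 : (r : ℝ) ≤ ρ * Real.sqrt n := Nat.floor_le (by positivity)
    have h2 : ρ * Real.sqrt n < r + 1 := Nat.lt_floor_add_one _
    have h3 : 1 ≤ ρ * Real.sqrt n := by
      rw [← Real.sqrt_sq hρ0.le, ← Real.sqrt_mul (sq_nonneg ρ), ← Real.sqrt_one]
      apply Real.sqrt_le_sqrt
      rw [div_lt_iff₀ (by positivity)] at hnn
      linarith
    have h4 := M2_ge n r (hsup n hn1)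
    have h5 : (2 * (r : ℝ) + 1) ^ d * (B * (n : ℝ) ^ (-(d : ℝ) / 2)) ≤ 1 / 2 := by
      have h6 : (2 * (r : ℝ) + 1) ^ d ≤ (3 * ρ * Real.sqrt n) ^ d :=
        pow_le_pow_left₀ (by positivity) (by linarith) d
      have h7 : (3 * ρ * Real.sqrt n) ^ d * (n : ℝ) ^ (-(d : ℝ) / 2) = (3 * ρ) ^ d := by
        rw [mul_pow, mul_assoc]
        have : Real.sqrt n ^ d * (n : ℝ) ^ (-(d : ℝ) / 2) = 1 := by
          rw [Real.sqrt_eq_rpow, ← Real.rpow_natCast, ← Real.rpow_mul hn0.le,
            ← Real.rpow_add hn0]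
          rw [show 1 / 2 * (d : ℝ) + -(d : ℝ) / 2 = 0 by ring, Real.rpow_zero]
        rw [this, mul_one]
      have h8 : (3 * ρ) ^ d ≤ 3 * ρ := by
        have h9 : 3 * ρ ≤ 1 := by
          rw [hρ, mul_one_div, div_le_one (by positivity)]
          linarith
        calc (3 * ρ) ^ d ≤ (3 * ρ) ^ 1 := pow_le_pow_of_le_one (by positivity) h9 hd
          _ = 3 * ρ := pow_one _
      have h9 : 3 * ρ * B ≤ 1 / 2 := by
        have : 3 * ρ * B = B / (2 * B + 1) := by
          rw [hρ]; field_simp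
        rw [this, div_le_iff₀ (by positivity)]
        linarith
      have hnp : 0 < (n : ℝ) ^ (-(d : ℝ) / 2) := Real.rpow_pos_of_pos hn0 _
      calc (2 * (r : ℝ) + 1) ^ d * (B * (n : ℝ) ^ (-(d : ℝ) / 2))
          ≤ (3 * ρ * Real.sqrt n) ^ d * (B * (n : ℝ) ^ (-(d : ℝ) / 2)) :=
            mul_le_mul_of_nonneg_right h6 (by positivity)
        _ = (3 * ρ * Real.sqrt n) ^ d * (n : ℝ) ^ (-(d : ℝ) / 2) * B := by ring
        _ = (3 * ρ) ^ d * B := by rw [h7]
        _ ≤ 3 * ρ * B := mul_le_mul_of_nonneg_right h8 hB.le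
        _ ≤ 1 / 2 := h9
    rw [le_div_iff₀ hCn]
    have h6 : ((r : ℝ) + 1) ^ 2 * (Cn d n * zc d ^ n / 2) ≤ M2 d n * zc d ^ n := by
      refine le_trans ?_ h4
      refine mul_le_mul_of_nonneg_left ?_ (by positivity)
      linarith
    have h7 : ρ ^ 2 * n ≤ ((r : ℝ) + 1) ^ 2 := by
      calc ρ ^ 2 * n = (ρ * Real.sqrt n) ^ 2 := by rw [mul_pow, Real.sq_sqrt hn0.le]
        _ ≤ ((r : ℝ) + 1) ^ 2 := pow_le_pow_left₀ (by positivity) h2.le 2
    have h8 : (ρ ^ 2 * n) * (Cn d n * zc d ^ n / 2) ≤ M2 d n * zc d ^ n :=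
      le_trans (mul_le_mul_of_nonneg_right h7 (by positivity)) h6
    have hzn : 0 < zc d ^ n := pow_pos hz n
    have h9 : (ρ ^ 2 / 2 * n * Cn d n) * zc d ^ n ≤ M2 d n * zc d ^ n := by linarith
    exact le_of_mul_le_mul_right h9 hzn
  · -- upper bound
    rw [div_le_iff₀ hCn]
    have h1 := h.M2_le (by linarith) n
    have hzn : 0 < zc d ^ n := pow_pos hz n
    have hn1' : (1 : ℝ) ≤ n := by exact_mod_cast hn1
    have h2 : M2 d n * zc d ^ n ≤ (40 * n * Cn d n) * zc d ^ n := by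
      have h3 : 40 * (n : ℝ) * 1 ≤ 40 * n * (Cn d n * zc d ^ n) :=
        mul_le_mul_of_nonneg_left hC1 (by positivity)
      nlinarith
    exact le_of_mul_le_mul_right h2 hzn

end Pool.Agent.helper91.SW
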