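import Pool.Agent.helper91.SW.Steps

/-!
# Self-avoiding walks in high dimensions: polygons, monotonicity of their number
-/

set_option autoImplicit false

open Finset
open Pool.Agent.helper55.FP hiding chi

namespace Pool.Agent.helper91.SW

variable {d : ℕ}

/-- closed self-avoiding lists of steps -/
def CL (l : List (St d)) : Prop :=
  pos l = 0 ∧ ∀ i j, i < j → j < l.length → pos (l.take i) ≠ pos (l.take j)

open Classical in
/-- the self-avoiding polygons of length `n` rooted at the origin, with an orientation -/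
noncomputable def PG (d n : ℕ) : Finset (List (St d)) := (LL d n).filter CL

theorem mem_PG {n : ℕ} {l : List (St d)} : l ∈ PG d n ↔ l.length = n ∧ CL l := by
  classical
  unfold PG
  rw [Finset.mem_filter, mem_LL]

/-- positions -/
noncomputable def Pw (l : List (St d)) (k : ℕ) : V d := pos (l.take k)

theorem Pw_zero (l : List (St d)) : Pw l 0 = 0 := by
  unfold Pw
  rw [List.take_zero, pos_nil]

theorem Pw_length (l : List (St d)) : Pw l l.length = pos l := by
  unfold Pw
  rw [List.take_length]

theorem Pw_succ (l : List (St d)) (k : ℕ) (hk : k < l.length) :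
    Pw l (k + 1) = Pw l k + nb l[k] := by
  unfold Pw
  rw [List.take_add_one, pos_append, List.getElem?_eq_getElem hk]
  simp only [Option.toList_some, pos_cons, pos_nil, add_zero]

theorem nb_cases (i₀ : Fin d) (s : St d) :
    (nb s : V d) i₀ = 0 ∨ s = (i₀, true) ∨ s = (i₀, false) := by
  obtain ⟨j, b⟩ := s
  by_cases h : j = i₀
  · subst h
    right
    cases b
    · right; rfl
    · left; rfl
  · left
    cases b <;> simp [nb, LCt_nb, Ne.symm h]

theorem nb_true (i₀ : Fin d) : (nb (i₀, true) : V d) i₀ = 1 := by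
  simp [nb, LCt_nb]

theorem nb_false_eq (i₀ : Fin d) : (nb (i₀, false) : V d) = -nb (i₀, true) := by
  rw [nb_neg]
  rfl

theorem nb_false (i₀ : Fin d) : (nb (i₀, false) : V d) i₀ = -1 := by
  rw [nb_false_eq, Pi.neg_apply, nb_true]

/-- there is an edge in the top layer -/
theorem exists_top (i₀ : Fin d) (l : List (St d)) (hl : CL l) (hn : 3 ≤ l.length) :
    ∃ k, ∃ hk : k < l.length, (nb l[k] : V d) i₀ = 0 ∧
      ∀ j ≤ l.length, Pw l j i₀ ≤ Pw l k i₀ := by
  have hend : Pw l l.length = 0 := by rw [Pw_length]; exact hl.1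
  have hne : ∀ i j, i < j → j < l.length → Pw l i ≠ Pw l j := hl.2
  obtain ⟨k₀, hk₀, hmax⟩ := Finset.exists_max_image (Finset.range (l.length + 1))
    (fun k => Pw l k i₀) ⟨0, by simp⟩
  rw [Finset.mem_range] at hk₀
  have hmax' : ∀ j ≤ l.length, Pw l j i₀ ≤ Pw l k₀ i₀ := fun j hj =>
    hmax j (Finset.mem_range.2 (by omega))
  by_cases hA : 1 ≤ k₀ ∧ k₀ < l.length
  · obtain ⟨hA1, hA2⟩ := hA
    obtain ⟨k, rfl⟩ : ∃ k, k₀ = k + 1 := ⟨k₀ - 1, by omega⟩
    have hk : k < l.length := by omega
    have e1 := Pw_succ l k hk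
    rcases nb_cases i₀ l[k] with h1 | h1 | h1
    · refine ⟨k, hk, h1, fun j hj => ?_⟩
      have := hmax' j hj
      rw [e1, Pi.add_apply, h1, add_zero] at this
      exact this
    · rw [h1] at e1
      have e2 := Pw_succ l (k + 1) hA2
      rcases nb_cases i₀ l[k + 1] with h2 | h2 | h2
      · exact ⟨k + 1, hA2, h2, hmax'⟩
      · exfalso
        have := hmax' (k + 1 + 1) (by omega)
        rw [e2, h2, Pi.add_apply, nb_true] at this
        omega
      · exfalso
        have e3 : Pw l (k + 1 + 1) = Pw l k := by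
          rw [e2, h2, e1, nb_false_eq]
          abel
        by_cases h3 : k + 1 + 1 < l.length
        · exact hne k (k + 1 + 1) (by omega) h3 e3.symm
        · have h4 : k + 1 + 1 = l.length := by omega
          rw [h4, hend, ← Pw_zero l] at e3
          exact hne 0 k (by omega) hk e3
    · exfalso
      have := hmax' k (by omega)
      rw [e1, h1, Pi.add_apply, nb_false] at this
      omega
  · have h0 : Pw l k₀ = 0 := by
      have : k₀ = 0 ∨ k₀ = l.length := by omega
      rcases this with h | h
      · rw [h, Pw_zero]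
      · rw [h, hend]
    have hmax0 : ∀ j ≤ l.length, Pw l j i₀ ≤ 0 := by
      intro j hj
      have := hmax' j hj
      rwa [h0] at this
    have e1 := Pw_succ l 0 (by omega)
    rw [Pw_zero, zero_add, zero_add] at e1
    obtain ⟨n, hn'⟩ : ∃ n, l.length = n + 1 := ⟨l.length - 1, by omega⟩
    have e2 := Pw_succ l n (by omega)
    rw [← hn', hend] at e2
    rcases nb_cases i₀ l[0] with h1 | h1 | h1
    · refine ⟨0, by omega, h1, fun j hj => ?_⟩
      rw [Pw_zero]
      exact hmax0 j hj
    · exfalso
      have := hmax0 1 (by omega)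
      rw [e1, h1, nb_true] at this
      omega
    · rcases nb_cases i₀ (l[n]'(by omega)) with h2 | h2 | h2
      · refine ⟨n, by omega, h2, fun j hj => ?_⟩
        have h3 : Pw l n i₀ = 0 := by
          have := congrFun e2 i₀
          rw [Pi.add_apply, h2, add_zero] at this
          exact this.symm
        rw [h3]
        exact hmax0 j hj
      · exfalso
        apply hne 1 n (by omega) (by omega)
        rw [e1, h1, nb_false_eq]
        rw [h2] at e2
        exact neg_eq_of_add_eq_zero_left e2.symm
      · exfalso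
        have := hmax0 n (by omega)
        have h3 := congrFun e2 i₀
        rw [Pi.add_apply, h2, nb_false] at h3
        have h4 : (0 : V d) i₀ = 0 := rfl
        rw [h4] at h3
        omega

/-- insertion of a detour -/
def ins (i₀ : Fin d) (u : List (St d)) (s : St d) (v : List (St d)) : List (St d) :=
  u ++ (i₀, true) :: s :: (i₀, false) :: v

theorem ins_length (i₀ : Fin d) (u : List (St d)) (s : St d) (v : List (St d)) :
    (ins i₀ u s v).length = (u ++ s :: v).length + 2 := by
  simp [ins]
  omega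

theorem Pw_ins1 (i₀ : Fin d) (u : List (St d)) (s : St d) (v : List (St d)) {k : ℕ}
    (hk : k ≤ u.length) : Pw (ins i₀ u s v) k = Pw (u ++ s :: v) k := by
  unfold Pw ins
  rw [List.take_append_of_le_length hk, List.take_append_of_le_length hk]

theorem Pw_ins2 (i₀ : Fin d) (u : List (St d)) (s : St d) (v : List (St d)) :
    Pw (ins i₀ u s v) (u.length + 1) = pos u + nb (i₀, true) := by
  unfold Pw ins
  rw [pos_take_append, List.take_succ_cons, List.take_zero, pos_cons, pos_nil, add_zero]

theorem Pw_ins3 (i₀ : Fin d) (u : List (St d)) (s : St d) (v : List (St d)) :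
    Pw (ins i₀ u s v) (u.length + 2) = pos u + nb (i₀, true) + nb s := by
  unfold Pw ins
  rw [pos_take_append, List.take_succ_cons, List.take_succ_cons, List.take_zero, pos_cons,
    pos_cons, pos_nil, add_zero, add_assoc]

theorem Pw_ins4 (i₀ : Fin d) (u : List (St d)) (s : St d) (v : List (St d)) (j : ℕ) :
    Pw (ins i₀ u s v) (u.length + (j + 3)) = Pw (u ++ s :: v) (u.length + (j + 1)) := by
  unfold Pw ins
  rw [pos_take_append, pos_take_append, List.take_succ_cons, List.take_succ_cons,
    List.take_succ_cons, List.take_succ_cons, pos_cons, pos_cons, pos_cons, pos_cons, nb_false_eq]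
  abel

theorem Pw_u (u : List (St d)) (s : St d) (v : List (St d)) :
    Pw (u ++ s :: v) u.length = pos u := by
  unfold Pw
  rw [List.take_append_of_le_length le_rfl, List.take_length]

/-- heights after the insertion -/
theorem height_ins (i₀ : Fin d) (u : List (St d)) (s : St d) (v : List (St d))
    (hs : (nb s : V d) i₀ = 0)
    (hmax : ∀ j ≤ (u ++ s :: v).length, Pw (u ++ s :: v) j i₀ ≤ pos u i₀) {k : ℕ}
    (hk : k ≤ (ins i₀ u s v).length) :
    ((k = u.length + 1 ∨ k = u.length + 2) ∧ Pw (ins i₀ u s v) k i₀ = pos u i₀ + 1) ∨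
    ((k ≠ u.length + 1 ∧ k ≠ u.length + 2) ∧ Pw (ins i₀ u s v) k i₀ ≤ pos u i₀) := by
  rw [ins_length] at hk
  have hlen : (u ++ s :: v).length = u.length + (v.length + 1) := by simp
  rcases Nat.lt_or_ge k (u.length + 1) with h1 | h1
  · right
    refine ⟨⟨by omega, by omega⟩, ?_⟩
    rw [Pw_ins1 _ _ _ _ (by omega)]
    exact hmax k (by omega)
  rcases Nat.eq_or_lt_of_le h1 with h2 | h2
  · left
    subst h2
    refine ⟨Or.inl rfl, ?_⟩
    rw [Pw_ins2, Pi.add_apply, nb_true]
  rcases Nat.lt_or_ge k (u.length + 3) with h3 | h3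
  · left
    have h4 : k = u.length + 2 := by omega
    subst h4
    refine ⟨Or.inr rfl, ?_⟩
    rw [Pw_ins3, Pi.add_apply, Pi.add_apply, nb_true, hs, add_zero]
  · right
    refine ⟨⟨by omega, by omega⟩, ?_⟩
    obtain ⟨j, rfl⟩ : ∃ j, k = u.length + (j + 3) := ⟨k - u.length - 3, by omega⟩
    rw [Pw_ins4]
    exact hmax _ (by omega)

theorem ins_CL (i₀ : Fin d) (u : List (St d)) (s : St d) (v : List (St d))
    (hs : (nb s : V d) i₀ = 0)
    (hmax : ∀ j ≤ (u ++ s :: v).length, Pw (u ++ s :: v) j i₀ ≤ pos u i₀)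
    (hl : CL (u ++ s :: v)) : CL (ins i₀ u s v) := by
  have hlen : (u ++ s :: v).length = u.length + (v.length + 1) := by simp
  have hlen' := ins_length i₀ u s v
  constructor
  · rw [← hl.1]
    unfold ins
    rw [pos_append, pos_append, pos_cons, pos_cons, pos_cons, pos_cons, nb_false_eq]
    abel
  · have hne : ∀ i j, i < j → j < (u ++ s :: v).length →
        Pw (u ++ s :: v) i ≠ Pw (u ++ s :: v) j := hl.2
    intro i j hij hj
    change Pw (ins i₀ u s v) i ≠ Pw (ins i₀ u s v) j
    have hi' := height_ins i₀ u s v hs hmax (k := i) (by omega)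
    have hj' := height_ins i₀ u s v hs hmax (k := j) (by omega)
    rcases hi' with ⟨hi1, hi2⟩ | ⟨hi1, hi2⟩
    · rcases hj' with ⟨hj1, hj2⟩ | ⟨hj1, hj2⟩
      · have h1 : i = u.length + 1 := by omega
        have h2 : j = u.length + 2 := by omega
        rw [h1, h2, Pw_ins2, Pw_ins3]
        intro h3
        exact nb_ne_zero s (left_eq_add.1 h3)
      · intro h
        rw [h] at hi2
        omega
    · rcases hj' with ⟨hj1, hj2⟩ | ⟨hj1, hj2⟩
      · intro h
        rw [h] at hi2
        omega
      · rw [hlen'] at hj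
        rcases Nat.lt_or_ge i (u.length + 1) with h1 | h1
        · rw [Pw_ins1 _ _ _ _ (by omega : i ≤ u.length)]
          rcases Nat.lt_or_ge j (u.length + 1) with h2 | h2
          · rw [Pw_ins1 _ _ _ _ (by omega : j ≤ u.length)]
            exact hne i j hij (by omega)
          · obtain ⟨k, rfl⟩ : ∃ k, j = u.length + (k + 3) := ⟨j - u.length - 3, by omega⟩
            rw [Pw_ins4]
            exact hne _ _ (by omega) (by omega)
        · obtain ⟨k', rfl⟩ : ∃ k', i = u.length + (k' + 3) := ⟨i - u.length - 3, by omega⟩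
          obtain ⟨k, rfl⟩ : ∃ k, j = u.length + (k + 3) := ⟨j - u.length - 3, by omega⟩
          rw [Pw_ins4, Pw_ins4]
          exact hne _ _ (by omega) (by omega)

/-- monotonicity of the number of polygons -/
theorem card_PG_mono (hd : 1 ≤ d) {n : ℕ} (hn : 3 ≤ n) :
    (PG d n).card ≤ (PG d (n + 2)).card := by
  set i₀ : Fin d := ⟨0, hd⟩ with hi₀
  have hex : ∀ l : List (St d), ∃ q : List (St d) × St d × List (St d), l ∈ PG d n →
      l = q.1 ++ q.2.1 :: q.2.2 ∧ (nb q.2.1 : V d) i₀ = 0 ∧
      ∀ j ≤ (q.1 ++ q.2.1 :: q.2.2).length, Pw (q.1 ++ q.2.1 :: q.2.2) j i₀ ≤ pos q.1 i₀ := by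
    intro l
    by_cases hl : l ∈ PG d n
    · have hl' := mem_PG.1 hl
      obtain ⟨k, hk, h1, h2⟩ := exists_top i₀ l hl'.2 (by omega)
      refine ⟨(l.take k, l[k], l.drop (k + 1)), fun _ => ?_⟩
      have e : l.take k ++ l[k] :: l.drop (k + 1) = l := by
        rw [← List.drop_eq_getElem_cons hk, List.take_append_drop]
      dsimp only
      rw [e]
      exact ⟨rfl, h1, h2⟩
    · exact ⟨([], (i₀, true), []), fun h => absurd h hl⟩
  choose q hq using hex
  apply Finset.card_le_card_of_injOn (fun l => ins i₀ (q l).1 (q l).2.1 (q l).2.2)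
  · intro l hl
    have hl0 : l ∈ PG d n := hl
    have hl' := mem_PG.1 hl0
    obtain ⟨h1, h2, h3⟩ := hq l hl0
    change ins i₀ (q l).1 (q l).2.1 (q l).2.2 ∈ PG d (n + 2)
    rw [mem_PG, ins_length, ← h1]
    refine ⟨by omega, ?_⟩
    apply ins_CL _ _ _ _ h2 h3
    rw [← h1]
    exact hl'.2
  · intro l hl l' hl' h
    have hl0 : l ∈ PG d n := hl
    have hl0' : l' ∈ PG d n := hl'
    obtain ⟨h1, h2, h3⟩ := hq l hl0
    obtain ⟨h1', h2', h3'⟩ := hq l' hl0'
    dsimp only at h
    have hlen1 := ins_length i₀ (q l).1 (q l).2.1 (q l).2.2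
    have hlen2 := ins_length i₀ (q l').1 (q l').2.1 (q l').2.2
    have hlen3 : ((q l).1 ++ (q l).2.1 :: (q l).2.2).length =
      (q l).1.length + ((q l).2.2.length + 1) := by simp
    have hlen4 : ((q l').1 ++ (q l').2.1 :: (q l').2.2).length =
      (q l').1.length + ((q l').2.2.length + 1) := by simp
    have hu : (q l).1.length = (q l').1.length := by
      have hA := height_ins i₀ (q l).1 (q l).2.1 (q l).2.2 h2 h3 (k := (q l).1.length + 1)
        (by omega)
      have hB := height_ins i₀ (q l).1 (q l).2.1 (q l).2.2 h2 h3 (k := (q l).1.length + 2)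
        (by omega)
      have hC := height_ins i₀ (q l').1 (q l').2.1 (q l').2.2 h2' h3'
        (k := (q l').1.length + 1) (by omega)
      have hD := height_ins i₀ (q l').1 (q l').2.1 (q l').2.2 h2' h3'
        (k := (q l').1.length + 2) (by omega)
      have hA' := height_ins i₀ (q l').1 (q l').2.1 (q l').2.2 h2' h3'
        (k := (q l).1.length + 1) (by rw [← h]; omega)
      have hB' := height_ins i₀ (q l').1 (q l').2.1 (q l').2.2 h2' h3'
        (k := (q l).1.length + 2) (by rw [← h]; omega)
      have hC' := height_ins i₀ (q l).1 (q l).2.1 (q l).2.2 h2 h3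
        (k := (q l').1.length + 1) (by rw [h]; omega)
      have hD' := height_ins i₀ (q l).1 (q l).2.1 (q l).2.2 h2 h3
        (k := (q l').1.length + 2) (by rw [h]; omega)
      rw [h] at hA hB hC' hD'
      omega
    unfold ins at h
    obtain ⟨h4, h5⟩ := List.append_inj h hu
    rw [List.cons_eq_cons, List.cons_eq_cons, List.cons_eq_cons] at h5
    rw [h1, h1', h4, h5.2.1, h5.2.2.2]

end Pool.Agent.helper91.SW
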