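import Pool.Agent.helper90.FP.LCt

/-!
# Self-avoiding walks in high dimensions (MP_c0584e_pr): path sums

`A n β y x` = number of `n`-step walks from `y` to `x` which avoid the finite set `β` (containing
`y`) and themselves.  `PS n β y Φ` = sum over the same walks of `Φ (visited set) (endpoint)`.
`HS n γ β y Φ` = sum over the walks which hit the set `γ` for the first time at their endpoint.
-/

set_option autoImplicit false

open Finset
open Pool.Agent.helper55.FP (V LCt_nb LCt_nb_inj)

namespace Pool.Agent.helper91.SW

variable {d : ℕ}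

/-- the unit steps -/
abbrev nb (s : Fin d × Bool) : V d := LCt_nb s

/-- walks from `y` to `x` avoiding `β` -/
noncomputable def A : ℕ → Finset (V d) → V d → V d → ℝ
  | 0, _, y, x => if y = x then 1 else 0
  | n + 1, β, y, x => ∑ s : Fin d × Bool,
      if y + nb s ∈ β then 0 else A n (insert (y + nb s) β) (y + nb s) x

/-- sums over the walks from `y` avoiding `β` -/
noncomputable def PS : ℕ → Finset (V d) → V d → (Finset (V d) → V d → ℝ) → ℝ
  | 0, β, y, Φ => Φ β y
  | n + 1, β, y, Φ => ∑ s : Fin d × Bool,
      if y + nb s ∈ β then 0 else PS n (insert (y + nb s) β) (y + nb s) Φ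

/-- sums over the walks from `y` avoiding `β` which hit `γ` at their endpoint and not before -/
noncomputable def HS : ℕ → Finset (V d) → Finset (V d) → V d → (Finset (V d) → V d → ℝ) → ℝ
  | 0, _, _, _, _ => 0
  | n + 1, γ, β, y, Φ => ∑ s : Fin d × Bool,
      if y + nb s ∈ β then 0 else
        if y + nb s ∈ γ then (if n = 0 then Φ (insert (y + nb s) β) (y + nb s) else 0) else
          HS n γ (insert (y + nb s) β) (y + nb s) Φ

/-- number of self-avoiding walks from the origin -/
noncomputable def c (n : ℕ) (x : V d) : ℝ := A n {0} 0 x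

/-! ## basic properties of `A` -/

theorem A_nonneg (n : ℕ) : ∀ (β : Finset (V d)) (y x : V d), 0 ≤ A n β y x := by
  induction n with
  | zero => intro β y x; simp only [A]; split_ifs <;> norm_num
  | succ n ih =>
    intro β y x
    simp only [A]
    refine Finset.sum_nonneg fun s _ => ?_
    split_ifs
    · exact le_rfl
    · exact ih _ _ _

theorem A_mono (n : ℕ) : ∀ {β β' : Finset (V d)} (_ : β ⊆ β') (y x : V d),
    A n β' y x ≤ A n β y x := by
  induction n with
  | zero => intro β β' _ y x; exact le_rfl
  | succ n ih =>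
    intro β β' h y x
    simp only [A]
    refine Finset.sum_le_sum fun s _ => ?_
    by_cases h1 : y + nb s ∈ β
    · rw [if_pos h1, if_pos (h h1)]
    · rw [if_neg h1]
      split_ifs
      · exact A_nonneg _ _ _ _
      · exact ih (Finset.insert_subset_insert _ h) _ _

theorem c_nonneg (n : ℕ) (x : V d) : 0 ≤ c n x := A_nonneg _ _ _ _

/-- invariance under the symmetries of the lattice -/
theorem A_map (f : V d → V d) (hf : Function.Injective f) (g : Fin d × Bool → Fin d × Bool)
    (hg : Function.Bijective g) (hfg : ∀ y s, f (y + nb s) = f y + nb (g s)) (n : ℕ) :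
    ∀ (β : Finset (V d)) (y x : V d), A n (β.image f) (f y) (f x) = A n β y x := by
  induction n with
  | zero =>
    intro β y x
    simp only [A, hf.eq_iff]
  | succ n ih =>
    intro β y x
    simp only [A]
    rw [← (Equiv.ofBijective g hg).sum_comp]
    refine Finset.sum_congr rfl fun s _ => ?_
    rw [Equiv.ofBijective_apply, ← hfg, ← Finset.image_insert, ih]
    have : f (y + nb s) ∈ β.image f ↔ y + nb s ∈ β := by
      rw [Finset.mem_image]
      constructor
      · rintro ⟨z, hz, hz'⟩
        rwa [← hf hz']
      · exact fun h => ⟨_, h, rfl⟩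
    simp only [this]

theorem A_translate (n : ℕ) (a y x : V d) :
    A n {y + a} (y + a) (x + a) = A n {y} y x := by
  have h := A_map (fun z : V d => z + a) (add_left_injective a) id Function.bijective_id
    (fun y s => by simp only [id]; abel) n {y} y x
  rwa [Finset.image_singleton] at h

theorem A_eq_c (n : ℕ) (y x : V d) : A n {y} y x = c n (x - y) := by
  have h := A_translate n y 0 (x - y)
  rw [zero_add, sub_add_cancel] at h
  exact h

theorem A_le_c (n : ℕ) {β : Finset (V d)} {y : V d} (hy : y ∈ β) (x : V d) :
    A n β y x ≤ c n (x - y) := by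
  rw [← A_eq_c]
  exact A_mono n (Finset.singleton_subset_iff.2 hy) y x

theorem nb_neg (s : Fin d × Bool) : -nb s = nb (s.1, !s.2) := by
  obtain ⟨i, b⟩ := s
  cases b <;> simp [nb, LCt_nb]

theorem c_even (n : ℕ) (x : V d) : c n (-x) = c n x := by
  have h := A_map (fun z : V d => -z) neg_injective (fun s => (s.1, !s.2))
    (by
      constructor
      · rintro ⟨i, b⟩ ⟨j, c⟩ h
        simpa using h
      · rintro ⟨i, b⟩
        exact ⟨(i, !b), by simp⟩)
    (fun y s => by rw [neg_add, nb_neg]) n {0} 0 x
  rw [Finset.image_singleton, neg_zero] at h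
  exact h

theorem c_perm (σ : Equiv.Perm (Fin d)) (n : ℕ) (x : V d) : c n (fun i => x (σ i)) = c n x := by
  have h := A_map (fun (z : V d) i => z (σ i)) (by
      intro z w hzw
      funext i
      have := congrFun hzw (σ.symm i)
      simpa using this) (fun s => (σ.symm s.1, s.2))
    (by
      constructor
      · rintro ⟨i, b⟩ ⟨j, c⟩ h
        simpa using h
      · rintro ⟨i, b⟩
        exact ⟨(σ i, b), by simp⟩)
    (fun y s => by
      obtain ⟨i, b⟩ := s
      funext j
      have e : (Pi.single i (1 : ℤ) : V d) (σ j) = (Pi.single (σ.symm i) 1 : V d) j := by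
        simp only [Pi.single_apply]
        congr 1
        rw [eq_iff_iff, Equiv.eq_symm_apply]
      cases b <;> simp [nb, LCt_nb, e]) n {0} 0 x
  rw [Finset.image_singleton] at h
  exact h

/-- the endpoint is at distance at most `n` -/
theorem A_support (n : ℕ) : ∀ (β : Finset (V d)) (y x : V d), A n β y x ≠ 0 →
    ∑ i, |x i - y i| ≤ n := by
  induction n with
  | zero =>
    intro β y x h
    simp only [A] at h
    have : y = x := by
      by_contra h'
      rw [if_neg h'] at h
      exact h rfl
    simp [this]
  | succ n ih =>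
    intro β y x h
    simp only [A] at h
    obtain ⟨s, _, hs⟩ := Finset.exists_ne_zero_of_sum_ne_zero h
    have h1 : A n (insert (y + nb s) β) (y + nb s) x ≠ 0 := by
      intro h0
      apply hs
      rw [h0]
      split_ifs <;> rfl
    have h2 := ih _ _ _ h1
    have h3 : ∑ i, |(nb s : V d) i| = 1 := by
      obtain ⟨j, b⟩ := s
      have : ∀ i, |(nb (j, b) : V d) i| = if i = j then 1 else 0 := by
        intro i
        by_cases hij : i = j
        · subst hij
          cases b <;> simp [nb, LCt_nb]
        · cases b <;> simp [nb, LCt_nb, hij]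
      rw [Finset.sum_congr rfl fun i _ => this i]
      simp
    have h4 : ∀ i, |x i - y i| ≤ |x i - (y + nb s) i| + |(nb s : V d) i| := by
      intro i
      have : x i - y i = (x i - (y + nb s) i) + (nb s : V d) i := by
        rw [Pi.add_apply]; ring
      rw [this]
      exact abs_add_le _ _
    calc ∑ i, |x i - y i| ≤ ∑ i, (|x i - (y + nb s) i| + |(nb s : V d) i|) :=
          Finset.sum_le_sum fun i _ => h4 i
      _ = ∑ i, |x i - (y + nb s) i| + 1 := by rw [Finset.sum_add_distrib, h3]
      _ ≤ n + 1 := by linarith
      _ = ((n + 1 : ℕ) : ℤ) := by push_cast; ring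

theorem nb_sum (s : Fin d × Bool) : ∑ i, (nb s : V d) i = 1 ∨ ∑ i, (nb s : V d) i = -1 := by
  obtain ⟨j, b⟩ := s
  cases b
  · right
    simp [nb, LCt_nb]
  · left
    simp [nb, LCt_nb]

/-- parity -/
theorem A_parity (n : ℕ) : ∀ (β : Finset (V d)) (y x : V d), A n β y x ≠ 0 →
    ∃ k : ℤ, ∑ i, x i = ∑ i, y i + n + 2 * k := by
  induction n with
  | zero =>
    intro β y x h
    simp only [A] at h
    have : y = x := by
      by_contra h'
      rw [if_neg h'] at h
      exact h rfl
    exact ⟨0, by simp [this]⟩
  | succ n ih =>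
    intro β y x h
    simp only [A] at h
    obtain ⟨s, _, hs⟩ := Finset.exists_ne_zero_of_sum_ne_zero h
    have h1 : A n (insert (y + nb s) β) (y + nb s) x ≠ 0 := by
      intro h0
      apply hs
      rw [h0]
      split_ifs <;> rfl
    obtain ⟨k, hk⟩ := ih _ _ _ h1
    have h5 : ∑ i, (y + nb s) i = ∑ i, y i + ∑ i, (nb s : V d) i := by
      rw [← Finset.sum_add_distrib]
      rfl
    rw [h5] at hk
    rcases nb_sum s with h6 | h6
    · refine ⟨k, ?_⟩
      rw [hk, h6]
      push_cast
      ring
    · refine ⟨k - 1, ?_⟩
      rw [hk, h6]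
      push_cast
      ring

end Pool.Agent.helper91.SW
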