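import Pool.Agent.helper91.SW.Surg

/-!
# Self-avoiding walks in high dimensions: the number of polygons
-/

set_option autoImplicit false

open Finset
open Pool.Agent.helper55.FP hiding chi

namespace Pool.Agent.helper91.SW

variable {d : ℕ} {ε : ℝ}

theorem PR_le1 (h : Crit d ε) (hε : ε ≤ 1 / 2) {B : ℝ} (hB : 0 < B)
    (hsup : ∀ n : ℕ, 1 ≤ n → ∀ x : V d, c n x * zc d ^ n ≤ B * (n : ℝ) ^ (-(d : ℝ) / 2))
    {i : ℕ} (hi : 1 ≤ i) (j : ℕ) :
    ((PR d i j).card : ℝ) * zc d ^ (i + j) ≤ 2 * B * (i : ℝ) ^ (-(d : ℝ) / 2) := by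
  have hz := zc_pos d
  have hi0 : (0 : ℝ) < i := by exact_mod_cast hi
  have hq : 0 < (i : ℝ) ^ (-(d : ℝ) / 2) := Real.rpow_pos_of_pos hi0 _
  have h1 : ((PR d i j).card : ℝ) * zc d ^ i ≤
      (SAW d j).card * (B * (i : ℝ) ^ (-(d : ℝ) / 2)) := by
    rw [card_PR, Finset.sum_mul]
    refine (Finset.sum_le_sum fun l _ => hsup i hi (pos l)).trans (le_of_eq ?_)
    rw [Finset.sum_const, nsmul_eq_mul]
  have h2 := h.Cn_le hε j
  rw [Cn_eq_card] at h2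
  calc ((PR d i j).card : ℝ) * zc d ^ (i + j)
      = ((PR d i j).card : ℝ) * zc d ^ i * zc d ^ j := by rw [pow_add]; ring
    _ ≤ (SAW d j).card * (B * (i : ℝ) ^ (-(d : ℝ) / 2)) * zc d ^ j :=
        mul_le_mul_of_nonneg_right h1 (pow_nonneg hz.le _)
    _ = ((SAW d j).card * zc d ^ j) * (B * (i : ℝ) ^ (-(d : ℝ) / 2)) := by ring
    _ ≤ 2 * (B * (i : ℝ) ^ (-(d : ℝ) / 2)) := mul_le_mul_of_nonneg_right h2 (by positivity)
    _ = 2 * B * (i : ℝ) ^ (-(d : ℝ) / 2) := by ring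

theorem PR_le (h : Crit d ε) (hε : ε ≤ 1 / 2) {B : ℝ} (hB : 0 < B)
    (hsup : ∀ n : ℕ, 1 ≤ n → ∀ x : V d, c n x * zc d ^ n ≤ B * (n : ℝ) ^ (-(d : ℝ) / 2))
    {i j : ℕ} (hij : 1 ≤ max i j) :
    ((PR d i j).card : ℝ) * zc d ^ (i + j) ≤ 2 * B * ((max i j : ℕ) : ℝ) ^ (-(d : ℝ) / 2) := by
  rcases le_total j i with h1 | h1
  · rw [max_eq_left h1] at hij ⊢
    exact PR_le1 h hε hB hsup hij j
  · rw [max_eq_right h1] at hij ⊢
    rw [card_PR_comm, add_comm]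
    exact PR_le1 h hε hB hsup hij i

theorem q_small (hd : 10 ≤ d) {ℓ M i j : ℕ} (hℓ : 1 ≤ ℓ) (hM : ℓ ≤ M) (hi : i ≤ M)
    (hj : j ≤ M) : (M : ℝ) ^ (-(d : ℝ) / 2) ≤
      16 / ℓ * (1 / ((i : ℝ) + 1) ^ 2 * (1 / ((j : ℝ) + 1) ^ 2)) := by
  have hℓ0 : (0 : ℝ) < ℓ := by exact_mod_cast hℓ
  have hMℓ : (ℓ : ℝ) ≤ M := by exact_mod_cast hM
  have hM1 : (1 : ℝ) ≤ M := by exact_mod_cast le_trans hℓ hM
  have hM0 : (0 : ℝ) < M := by linarith
  have h1 : (M : ℝ) ^ (-(d : ℝ) / 2) ≤ (M : ℝ) ^ (-(5 : ℝ)) := by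
    apply Real.rpow_le_rpow_of_exponent_le hM1
    have : (10 : ℝ) ≤ d := by exact_mod_cast hd
    linarith
  have h2 : (M : ℝ) ^ (-(5 : ℝ)) = 1 / (M : ℝ) ^ 5 := by
    rw [Real.rpow_neg hM0.le, one_div]
    norm_num
  rw [h2] at h1
  refine h1.trans ?_
  have hi' : (i : ℝ) + 1 ≤ 2 * M := by
    have : (i : ℝ) ≤ M := by exact_mod_cast hi
    linarith
  have hj' : (j : ℝ) + 1 ≤ 2 * M := by
    have : (j : ℝ) ≤ M := by exact_mod_cast hj
    linarith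
  have hi2 : ((i : ℝ) + 1) ^ 2 ≤ (2 * M) ^ 2 := pow_le_pow_left₀ (by positivity) hi' 2
  have hj2 : ((j : ℝ) + 1) ^ 2 ≤ (2 * M) ^ 2 := pow_le_pow_left₀ (by positivity) hj' 2
  have h3 : ((i : ℝ) + 1) ^ 2 * ((j : ℝ) + 1) ^ 2 ≤ (2 * M) ^ 2 * (2 * M) ^ 2 :=
    mul_le_mul hi2 hj2 (by positivity) (by positivity)
  have e : 16 / (ℓ : ℝ) * (1 / ((i : ℝ) + 1) ^ 2 * (1 / ((j : ℝ) + 1) ^ 2)) =
      16 / (ℓ * (((i : ℝ) + 1) ^ 2 * ((j : ℝ) + 1) ^ 2)) := by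
    field_simp
  rw [e, div_le_div_iff₀ (by positivity) (by positivity)]
  have h4 : (ℓ : ℝ) * (((i : ℝ) + 1) ^ 2 * ((j : ℝ) + 1) ^ 2) ≤ M * ((2 * M) ^ 2 * (2 * M) ^ 2) :=
    mul_le_mul hMℓ h3 (by positivity) (by positivity)
  nlinarith

theorem sum_inv_sq (n : ℕ) : ∑ i ∈ Finset.range (n + 1), 1 / ((i : ℝ) + 1) ^ 2 ≤ 2 := by
  have h : ∀ n : ℕ, ∑ i ∈ Finset.range (n + 1), 1 / ((i : ℝ) + 1) ^ 2 ≤ 2 - 1 / ((n : ℝ) + 1) := by
    intro n
    induction n with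
    | zero => norm_num
    | succ n ih =>
      rw [Finset.sum_range_succ]
      have h1 : 1 / (((n + 1 : ℕ) : ℝ) + 1) ^ 2 ≤ 1 / ((n : ℝ) + 1) - 1 / (((n + 1 : ℕ) : ℝ) + 1) := by
        push_cast
        rw [div_sub_div _ _ (by positivity) (by positivity), div_le_div_iff₀ (by positivity)
          (by positivity)]
        nlinarith [sq_nonneg (n : ℝ)]
      linarith
  have := h n
  have h2 : 0 < 1 / ((n : ℝ) + 1) := by positivity
  linarith

/-- many pairs of walks have the same endpoint -/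
theorem T_ge (h : Crit d ε) (hε : ε ≤ 1 / 2) {m : ℕ} (hm : 1 ≤ m) :
    1 / 4 * (1 / 19 ^ d) * (m : ℝ) ^ (-(d : ℝ) / 2) ≤ (PR d m m).card * zc d ^ (m + m) := by
  classical
  have hz := zc_pos d
  have hd := h.hd
  have hm0 : (0 : ℝ) < m := by exact_mod_cast hm
  have hm1 : (1 : ℝ) ≤ m := by exact_mod_cast hm
  set r : ℕ := ⌊Real.sqrt (40 * (m + 1))⌋₊ with hr
  have hr1 : (r : ℝ) ≤ Real.sqrt (40 * (m + 1)) := Nat.floor_le (Real.sqrt_nonneg _)
  have hr2 : Real.sqrt (40 * (m + 1)) < r + 1 := Nat.lt_floor_add_one _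
  have hr3 : 40 * ((m : ℝ) + 1) ≤ ((r : ℝ) + 1) ^ 2 := by
    have h1 : (Real.sqrt (40 * (m + 1))) ^ 2 = 40 * ((m : ℝ) + 1) := Real.sq_sqrt (by positivity)
    rw [← h1]
    exact pow_le_pow_left₀ (Real.sqrt_nonneg _) hr2.le 2
  -- most of the walks end in the cube
  set inn := (SAW d m).filter fun l => pos l ∈ cube d r with hinn
  set out := (SAW d m).filter fun l => pos l ∉ cube d r with hout
  have hcard : ((SAW d m).card : ℝ) = inn.card + out.card := by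
    rw [hinn, hout]
    exact_mod_cast (Finset.card_filter_add_card_filter_not (s := SAW d m)
      (p := fun l => pos l ∈ cube d r)).symm
  have hout1 : ((r : ℝ) + 1) ^ 2 * out.card ≤ M2 d m := by
    rw [M2_eq_sum]
    calc ((r : ℝ) + 1) ^ 2 * out.card = ∑ l ∈ out, ((r : ℝ) + 1) ^ 2 := by
          rw [Finset.sum_const, nsmul_eq_mul, mul_comm]
      _ ≤ ∑ l ∈ out, n2 (pos l) := Finset.sum_le_sum fun l hl =>
          n2_ge (Finset.mem_filter.1 hl).2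
      _ ≤ ∑ l ∈ SAW d m, n2 (pos l) :=
          Finset.sum_le_sum_of_subset_of_nonneg (Finset.filter_subset _ _)
            fun l _ _ => n2_nonneg _
  have hM2 := h.M2_le hε m
  have hC := one_le_Cnz hd m
  rw [Cn_eq_card, hcard] at hC
  have hzm : 0 < zc d ^ m := pow_pos hz m
  have hout2 : (out.card : ℝ) * zc d ^ m ≤ 1 / 2 := by
    have h1 : ((r : ℝ) + 1) ^ 2 * (out.card * zc d ^ m) ≤ 20 * (m + 1) := by
      have := mul_le_mul_of_nonneg_right hout1 hzm.le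
      linarith
    have h2 : 40 * ((m : ℝ) + 1) * (out.card * zc d ^ m) ≤ 20 * (m + 1) :=
      le_trans (mul_le_mul_of_nonneg_right hr3 (by positivity)) h1
    have h3 : (40 * ((m : ℝ) + 1)) * (out.card * zc d ^ m) ≤ (40 * ((m : ℝ) + 1)) * (1 / 2) := by
      linarith
    exact le_of_mul_le_mul_left h3 (by positivity)
  have hinn1 : 1 / 2 ≤ (inn.card : ℝ) * zc d ^ m := by
    rw [add_mul] at hC
    linarith
  have hinn2 : (inn.card : ℝ) = ∑ x ∈ cube d r, c m x := by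
    have h1 : inn.card = ∑ x ∈ cube d r, (inn.filter fun l => pos l = x).card := by
      apply Finset.card_eq_sum_card_fiberwise
      intro l hl
      exact (Finset.mem_filter.1 (Finset.mem_coe.1 hl)).2
    rw [h1, Nat.cast_sum]
    refine Finset.sum_congr rfl fun x hx => ?_
    rw [c_eq_card]
    congr 2
    ext l
    rw [hinn, Finset.mem_filter, Finset.mem_filter, Finset.mem_filter]
    constructor
    · rintro ⟨⟨h2, h3⟩, h4⟩
      exact ⟨h2, h4⟩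
    · rintro ⟨h2, h3⟩
      exact ⟨⟨h2, by rw [h3]; exact hx⟩, h3⟩
  have hsq : ∑ x ∈ cube d r, c m x ^ 2 ≤ (PR d m m).card := by
    rw [card_PR_sq]
    calc ∑ x ∈ cube d r, c m x ^ 2 ≤ ∑ x ∈ cube d r ∪ cube d m, c m x ^ 2 :=
          Finset.sum_le_sum_of_subset_of_nonneg Finset.subset_union_left
            fun x _ _ => sq_nonneg _
      _ = ∑ x ∈ cube d m, c m x ^ 2 := by
          symm
          apply Finset.sum_subset Finset.subset_union_right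
          intro x _ hx
          have : c m x = 0 := by
            by_contra h1
            exact hx (c_supp h1)
          rw [this]
          norm_num
  have hcs : (∑ x ∈ cube d r, c m x) ^ 2 ≤ (cube d r).card * ∑ x ∈ cube d r, c m x ^ 2 :=
    sq_sum_le_card_mul_sum_sq
  rw [card_cube] at hcs
  have hcube : ((2 * (r : ℝ) + 1)) ^ d ≤ 19 ^ d * (m : ℝ) ^ ((d : ℝ) / 2) := by
    have h1 : 2 * (r : ℝ) + 1 ≤ 19 * Real.sqrt m := by
      have h2 : Real.sqrt (40 * (m + 1)) ≤ 9 * Real.sqrt m := by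
        rw [show (9 : ℝ) * Real.sqrt m = Real.sqrt (9 ^ 2 * m) by
          rw [Real.sqrt_mul (by norm_num), Real.sqrt_sq (by norm_num)]]
        apply Real.sqrt_le_sqrt
        linarith
      have h3 : 1 ≤ Real.sqrt m := by
        rw [← Real.sqrt_one]
        exact Real.sqrt_le_sqrt hm1
      linarith
    refine (pow_le_pow_left₀ (by positivity) h1 d).trans (le_of_eq ?_)
    rw [mul_pow, Real.sqrt_eq_rpow, ← Real.rpow_natCast ((m : ℝ) ^ (1 / 2 : ℝ)),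
      ← Real.rpow_mul hm0.le]
    congr 2
    ring
  have hT : 1 / 4 ≤ 19 ^ d * (m : ℝ) ^ ((d : ℝ) / 2) * ((PR d m m).card * zc d ^ (m + m)) := by
    calc (1 : ℝ) / 4 = (1 / 2) ^ 2 := by norm_num
      _ ≤ ((inn.card : ℝ) * zc d ^ m) ^ 2 := pow_le_pow_left₀ (by norm_num) hinn1 2
      _ = (∑ x ∈ cube d r, c m x) ^ 2 * zc d ^ (m + m) := by rw [hinn2]; ring
      _ ≤ (((2 * r + 1) ^ d : ℕ) * ∑ x ∈ cube d r, c m x ^ 2) * zc d ^ (m + m) :=
          mul_le_mul_of_nonneg_right hcs (pow_nonneg hz.le _)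
      _ ≤ ((19 ^ d * (m : ℝ) ^ ((d : ℝ) / 2)) * (PR d m m).card) * zc d ^ (m + m) := by
          refine mul_le_mul_of_nonneg_right ?_ (pow_nonneg hz.le _)
          push_cast
          exact mul_le_mul hcube hsq (Finset.sum_nonneg fun x _ => sq_nonneg _) (by positivity)
      _ = _ := by ring
  have hq : (m : ℝ) ^ (-(d : ℝ) / 2) * (m : ℝ) ^ ((d : ℝ) / 2) = 1 := by
    rw [← Real.rpow_add hm0]
    rw [show -(d : ℝ) / 2 + (d : ℝ) / 2 = 0 by ring, Real.rpow_zero]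
  have hqp : 0 < (m : ℝ) ^ (-(d : ℝ) / 2) := Real.rpow_pos_of_pos hm0 _
  have h19 : (0 : ℝ) < 19 ^ d := by positivity
  calc 1 / 4 * (1 / 19 ^ d) * (m : ℝ) ^ (-(d : ℝ) / 2)
      = (1 / 19 ^ d) * (m : ℝ) ^ (-(d : ℝ) / 2) * (1 / 4) := by ring
    _ ≤ (1 / 19 ^ d) * (m : ℝ) ^ (-(d : ℝ) / 2) *
        (19 ^ d * (m : ℝ) ^ ((d : ℝ) / 2) * ((PR d m m).card * zc d ^ (m + m))) :=
        mul_le_mul_of_nonneg_left hT (by positivity)
    _ = (1 / 19 ^ d * 19 ^ d) * ((m : ℝ) ^ (-(d : ℝ) / 2) * (m : ℝ) ^ ((d : ℝ) / 2)) *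
        ((PR d m m).card * zc d ^ (m + m)) := by ring
    _ = (PR d m m).card * zc d ^ (m + m) := by
        rw [hq, one_div, inv_mul_cancel₀ h19.ne']
        ring

open Classical in
/-- few pairs are bad -/
theorem bad_le (h : Crit d ε) (hε : ε ≤ 1 / 2) {B : ℝ} (hB : 0 < B)
    (hsup : ∀ n : ℕ, 1 ≤ n → ∀ x : V d, c n x * zc d ^ n ≤ B * (n : ℝ) ^ (-(d : ℝ) / 2))
    (hd : 10 ≤ d) {ℓ m : ℕ} (hℓ : 1 ≤ ℓ) (hm : 1 ≤ m) :
    (((PR d m m).filter fun p => ¬ Good ℓ m p).card : ℝ) * zc d ^ (m + m) ≤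
      512 * B ^ 2 * (2 : ℝ) ^ ((d : ℝ) / 2) / ℓ * (m : ℝ) ^ (-(d : ℝ) / 2) := by
  have hz := zc_pos d
  have hm0 : (0 : ℝ) < m := by exact_mod_cast hm
  have hℓ0 : (0 : ℝ) < ℓ := by exact_mod_cast hℓ
  have hneg : -(d : ℝ) / 2 ≤ 0 := by
    have : (0 : ℝ) ≤ d := Nat.cast_nonneg d
    linarith
  set g : ℕ → ℝ := fun i => 1 / ((i : ℝ) + 1) ^ 2 with hg
  have hg0 : ∀ i, 0 ≤ g i := fun i => by positivity
  set R := ((Finset.range (m + 1)) ×ˢ (Finset.range (m + 1))).filter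
      (fun r => ¬ ((r.1 < ℓ ∧ r.2 < ℓ) ∨ (m < r.1 + ℓ ∧ m < r.2 + ℓ))) with hR
  set Q : ℝ := 4 * B ^ 2 * (((m : ℝ) / 2) ^ (-(d : ℝ) / 2)) * (16 / ℓ) with hQ
  have hQ0 : 0 ≤ Q := by positivity
  have h1 : (((PR d m m).filter fun p => ¬ Good ℓ m p).card : ℝ) * zc d ^ (m + m) ≤
      ∑ r ∈ R, ((PR d r.1 r.2).card * zc d ^ (r.1 + r.2)) *
        ((PR d (m - r.1) (m - r.2)).card * zc d ^ ((m - r.1) + (m - r.2))) := by
    have h2 : (((PR d m m).filter fun p => ¬ Good ℓ m p).card : ℝ) ≤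
        ∑ r ∈ R, ((PR d r.1 r.2).card : ℝ) * (PR d (m - r.1) (m - r.2)).card := by
      exact_mod_cast card_bad_le (d := d) ℓ m
    refine (mul_le_mul_of_nonneg_right h2 (pow_nonneg hz.le _)).trans (le_of_eq ?_)
    rw [Finset.sum_mul]
    refine Finset.sum_congr rfl fun r hr => ?_
    rw [hR, Finset.mem_filter, Finset.mem_product, Finset.mem_range, Finset.mem_range] at hr
    have h3 : m + m = (r.1 + r.2) + ((m - r.1) + (m - r.2)) := by omega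
    conv_lhs => rw [h3, pow_add]
    ring
  have h2 : ∀ r ∈ R, ((PR d r.1 r.2).card * zc d ^ (r.1 + r.2)) *
        ((PR d (m - r.1) (m - r.2)).card * zc d ^ ((m - r.1) + (m - r.2))) ≤
        Q * (g r.1 * g r.2 + g (m - r.1) * g (m - r.2)) := by
    rintro ⟨i, j⟩ hr
    rw [hR, Finset.mem_filter, Finset.mem_product, Finset.mem_range, Finset.mem_range] at hr
    obtain ⟨⟨hi, hj⟩, hr⟩ := hr
    dsimp only at hi hj hr ⊢
    set M := max i j with hM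
    set M' := max (m - i) (m - j) with hM'
    have hMℓ : ℓ ≤ M := by
      by_contra h3
      apply hr
      left
      have h4 := le_max_left i j
      have h5 := le_max_right i j
      omega
    have hMℓ' : ℓ ≤ M' := by
      by_contra h3
      apply hr
      right
      have h4 := le_max_left (m - i) (m - j)
      have h5 := le_max_right (m - i) (m - j)
      omega
    have hsum : m ≤ M + M' := by
      have h4 := le_max_left (m - i) (m - j)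
      have h5 := le_max_left i j
      omega
    have p1 := PR_le h hε hB hsup (i := i) (j := j) (le_trans hℓ hMℓ)
    have p2 := PR_le h hε hB hsup (i := m - i) (j := m - j) (le_trans hℓ hMℓ')
    rw [← hM] at p1
    rw [← hM'] at p2
    have hM0 : (0 : ℝ) < M := by exact_mod_cast le_trans hℓ hMℓ
    have hM0' : (0 : ℝ) < M' := by exact_mod_cast le_trans hℓ hMℓ'
    have q0 : 0 < (M : ℝ) ^ (-(d : ℝ) / 2) := Real.rpow_pos_of_pos hM0 _
    have q0' : 0 < (M' : ℝ) ^ (-(d : ℝ) / 2) := Real.rpow_pos_of_pos hM0' _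
    have hprod : ((PR d i j).card * zc d ^ (i + j)) *
        ((PR d (m - i) (m - j)).card * zc d ^ ((m - i) + (m - j))) ≤
        (2 * B * (M : ℝ) ^ (-(d : ℝ) / 2)) * (2 * B * (M' : ℝ) ^ (-(d : ℝ) / 2)) :=
      mul_le_mul p1 p2 (by positivity) (by positivity)
    refine hprod.trans ?_
    have s1 := q_small hd hℓ hMℓ (le_max_left i j) (le_max_right i j)
    have s2 := q_small hd hℓ hMℓ' (le_max_left (m - i) (m - j)) (le_max_right (m - i) (m - j))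
    have hhalf : (m : ℝ) / 2 ≤ M ∨ (m : ℝ) / 2 ≤ M' := by
      by_contra h3
      push Not at h3
      have h4 : (m : ℝ) ≤ M + M' := by exact_mod_cast hsum
      linarith [h3.1, h3.2]
    have hg1 : 0 ≤ 16 / (ℓ : ℝ) * (g i * g j) := mul_nonneg (by positivity)
      (mul_nonneg (hg0 _) (hg0 _))
    have hg2 : 0 ≤ 16 / (ℓ : ℝ) * (g (m - i) * g (m - j)) := mul_nonneg (by positivity)
      (mul_nonneg (hg0 _) (hg0 _))
    have hm2 : (0 : ℝ) < (m : ℝ) / 2 := by positivity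
    have hqm : 0 < ((m : ℝ) / 2) ^ (-(d : ℝ) / 2) := Real.rpow_pos_of_pos hm2 _
    have hfin : (M : ℝ) ^ (-(d : ℝ) / 2) * (M' : ℝ) ^ (-(d : ℝ) / 2) ≤
        ((m : ℝ) / 2) ^ (-(d : ℝ) / 2) * (16 / ℓ * (g i * g j) + 16 / ℓ * (g (m - i) * g (m - j))) := by
      rcases hhalf with h3 | h3
      · have h4 : (M : ℝ) ^ (-(d : ℝ) / 2) ≤ ((m : ℝ) / 2) ^ (-(d : ℝ) / 2) :=
          Real.rpow_le_rpow_of_nonpos hm2 h3 hneg
        refine mul_le_mul h4 (s2.trans ?_) q0'.le hqm.le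
        change 16 / (ℓ : ℝ) * (g (m - i) * g (m - j)) ≤ _
        linarith
      · have h4 : (M' : ℝ) ^ (-(d : ℝ) / 2) ≤ ((m : ℝ) / 2) ^ (-(d : ℝ) / 2) :=
          Real.rpow_le_rpow_of_nonpos hm2 h3 hneg
        rw [mul_comm]
        refine mul_le_mul h4 (s1.trans ?_) q0.le hqm.le
        change 16 / (ℓ : ℝ) * (g i * g j) ≤ _
        linarith
    have hB2 : 0 ≤ 4 * B ^ 2 := by positivity
    have := mul_le_mul_of_nonneg_left hfin hB2
    calc (2 * B * (M : ℝ) ^ (-(d : ℝ) / 2)) * (2 * B * (M' : ℝ) ^ (-(d : ℝ) / 2))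
        = 4 * B ^ 2 * ((M : ℝ) ^ (-(d : ℝ) / 2) * (M' : ℝ) ^ (-(d : ℝ) / 2)) := by ring
      _ ≤ 4 * B ^ 2 * (((m : ℝ) / 2) ^ (-(d : ℝ) / 2) *
          (16 / ℓ * (g i * g j) + 16 / ℓ * (g (m - i) * g (m - j)))) := this
      _ = Q * (g i * g j + g (m - i) * g (m - j)) := by rw [hQ]; ring
  have h3 : ∑ r ∈ R, Q * (g r.1 * g r.2 + g (m - r.1) * g (m - r.2)) ≤
      ∑ r ∈ (Finset.range (m + 1)) ×ˢ (Finset.range (m + 1)),
        Q * (g r.1 * g r.2 + g (m - r.1) * g (m - r.2)) := by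
    apply Finset.sum_le_sum_of_subset_of_nonneg (Finset.filter_subset _ _)
    intro r _ _
    exact mul_nonneg hQ0 (add_nonneg (mul_nonneg (hg0 _) (hg0 _)) (mul_nonneg (hg0 _) (hg0 _)))
  have h4 : ∑ r ∈ (Finset.range (m + 1)) ×ˢ (Finset.range (m + 1)),
        Q * (g r.1 * g r.2 + g (m - r.1) * g (m - r.2)) =
      Q * ((∑ i ∈ Finset.range (m + 1), g i) * (∑ i ∈ Finset.range (m + 1), g i) +
        (∑ i ∈ Finset.range (m + 1), g (m - i)) * (∑ i ∈ Finset.range (m + 1), g (m - i))) := by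
    rw [← Finset.mul_sum, Finset.sum_add_distrib, Finset.sum_product, Finset.sum_product,
      Finset.sum_mul_sum, Finset.sum_mul_sum]
  have h5 : ∑ i ∈ Finset.range (m + 1), g (m - i) = ∑ i ∈ Finset.range (m + 1), g i := by
    have := Finset.sum_range_reflect g (m + 1)
    simpa using this
  have h6 : ∑ i ∈ Finset.range (m + 1), g i ≤ 2 := sum_inv_sq m
  have h7 : 0 ≤ ∑ i ∈ Finset.range (m + 1), g i := Finset.sum_nonneg fun i _ => hg0 i
  have h8 : ((m : ℝ) / 2) ^ (-(d : ℝ) / 2) = (2 : ℝ) ^ ((d : ℝ) / 2) * (m : ℝ) ^ (-(d : ℝ) / 2) := by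
    rw [Real.div_rpow hm0.le (by norm_num), div_eq_mul_inv, ← Real.rpow_neg (by norm_num)]
    rw [show -(-(d : ℝ) / 2) = (d : ℝ) / 2 by ring]
    ring
  calc (((PR d m m).filter fun p => ¬ Good ℓ m p).card : ℝ) * zc d ^ (m + m)
      ≤ _ := h1
    _ ≤ _ := Finset.sum_le_sum h2
    _ ≤ _ := h3
    _ = _ := h4
    _ ≤ Q * (2 * 2 + 2 * 2) := by
        rw [h5]
        apply mul_le_mul_of_nonneg_left _ hQ0
        nlinarith
    _ = 512 * B ^ 2 * (2 : ℝ) ^ ((d : ℝ) / 2) / ℓ * (m : ℝ) ^ (-(d : ℝ) / 2) := by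
        rw [hQ, h8]
        ring

/-- lower bound for the number of polygons -/
theorem Crit.polygon_lower (h : Crit d ε) (hε : ε ≤ 1 / 12) (hd : 10 ≤ d) :
    ∃ κ : ℝ, 0 < κ ∧ ∃ m₀ : ℕ, ∀ m ≥ m₀,
      κ * (m : ℝ) ^ (-(d : ℝ) / 2) ≤ (PG d (2 * m)).card * zc d ^ (2 * m) := by
  classical
  obtain ⟨B, hB, hsup⟩ := h.sup_bound hε
  have hz := zc_pos d
  set C : ℝ := 512 * B ^ 2 * (2 : ℝ) ^ ((d : ℝ) / 2) with hC
  have hC0 : 0 < C := by positivity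
  set δ : ℝ := 1 / 8 * (1 / 19 ^ d) with hδ
  have hδ0 : 0 < δ := by positivity
  obtain ⟨ℓ, hℓ⟩ := exists_nat_gt (C / δ)
  have hℓ0 : (0 : ℝ) < ℓ := lt_trans (by positivity) hℓ
  have hℓ1 : 1 ≤ ℓ := by exact_mod_cast hℓ0
  have hd0 : (0 : ℝ) < d := by
    have : 0 < d := by omega
    exact_mod_cast this
  set W : ℝ := (ℓ : ℝ) ^ 4 * (2 * d) ^ (4 * ℓ) with hW
  have hW0 : 0 < W := by positivity
  refine ⟨δ / W, by positivity, 2 * ℓ + 2, fun m hm => ?_⟩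
  have hm1 : 1 ≤ m := by omega
  have hm0 : (0 : ℝ) < m := by exact_mod_cast hm1
  have hq : 0 < (m : ℝ) ^ (-(d : ℝ) / 2) := Real.rpow_pos_of_pos hm0 _
  have h1 := T_ge h (by linarith) hm1
  have h2 := bad_le h (by linarith) hB hsup hd hℓ1 hm1
  have h3 : (((PR d m m).filter (Good ℓ m)).card : ℝ) ≤ W * (PG d (2 * m)).card := by
    rw [hW]
    exact_mod_cast card_good_le (by omega) hℓ1 hm
  have h4 : ((PR d m m).card : ℝ) = ((PR d m m).filter (Good ℓ m)).card +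
      ((PR d m m).filter fun p => ¬ Good ℓ m p).card := by
    exact_mod_cast (Finset.card_filter_add_card_filter_not (s := PR d m m)
      (p := Good ℓ m)).symm
  have h5 : C / ℓ ≤ δ := by
    rw [div_le_iff₀ hℓ0]
    rw [div_lt_iff₀ hδ0] at hℓ
    linarith
  have h6 : C / ℓ * (m : ℝ) ^ (-(d : ℝ) / 2) ≤ δ * (m : ℝ) ^ (-(d : ℝ) / 2) :=
    mul_le_mul_of_nonneg_right h5 hq.le
  rw [← hC] at h2
  have hzm : 0 < zc d ^ (m + m) := pow_pos hz _
  have h7 : δ * (m : ℝ) ^ (-(d : ℝ) / 2) ≤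
      ((PR d m m).filter (Good ℓ m)).card * zc d ^ (m + m) := by
    rw [h4, add_mul] at h1
    have : 1 / 4 * (1 / 19 ^ d) * (m : ℝ) ^ (-(d : ℝ) / 2) = 2 * (δ * (m : ℝ) ^ (-(d : ℝ) / 2)) := by
      rw [hδ]; ring
    linarith
  have h8 := mul_le_mul_of_nonneg_right h3 hzm.le
  rw [div_mul_eq_mul_div, div_le_iff₀ hW0, show 2 * m = m + m by ring]
  rw [show 2 * m = m + m by ring] at h8
  linarith

/-- upper bound for the number of polygons -/
theorem Crit.polygon_upper (h : Crit d ε) (hε : ε ≤ 1 / 12) :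
    ∃ K : ℝ, 0 < K ∧ ∀ m : ℕ, 1 ≤ m →
      (PG d (2 * m)).card * zc d ^ (2 * m) ≤ K * (m : ℝ) ^ (-(d : ℝ) / 2) := by
  obtain ⟨B, hB, hsup⟩ := h.sup_bound hε
  have hd := h.hd
  have hd0 : (0 : ℝ) < d := by exact_mod_cast hd
  have hz := zc_pos d
  refine ⟨2 * d * B * zc d, by positivity, fun m hm => ?_⟩
  obtain ⟨n, hn⟩ : ∃ n, 2 * m = n + 1 := ⟨2 * m - 1, by omega⟩
  have hm0 : (0 : ℝ) < m := by exact_mod_cast hm
  have hnm : (m : ℝ) ≤ n := by exact_mod_cast (by omega : m ≤ n)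
  have hneg : -(d : ℝ) / 2 ≤ 0 := by linarith
  have hq : (n : ℝ) ^ (-(d : ℝ) / 2) ≤ (m : ℝ) ^ (-(d : ℝ) / 2) :=
    Real.rpow_le_rpow_of_nonpos hm0 hnm hneg
  rw [hn]
  have h1 := card_PG_le (d := d) n
  have h2 : ((PG d (n + 1)).card : ℝ) * zc d ^ n ≤ 2 * d * (B * (m : ℝ) ^ (-(d : ℝ) / 2)) := by
    refine (mul_le_mul_of_nonneg_right h1 (pow_nonneg hz.le _)).trans ?_
    rw [Finset.sum_mul]
    have h3 : ∀ s ∈ (Finset.univ : Finset (St d)), c n (-nb s) * zc d ^ n ≤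
        B * (m : ℝ) ^ (-(d : ℝ) / 2) := fun s _ =>
      (hsup n (by omega) _).trans (mul_le_mul_of_nonneg_left hq hB.le)
    refine (Finset.sum_le_sum h3).trans (le_of_eq ?_)
    rw [Finset.sum_const, nsmul_eq_mul, Finset.card_univ, Fintype.card_prod, Fintype.card_fin,
      Fintype.card_bool]
    push_cast
    ring
  calc ((PG d (n + 1)).card : ℝ) * zc d ^ (n + 1)
      = ((PG d (n + 1)).card : ℝ) * zc d ^ n * zc d := by rw [pow_succ]; ring
    _ ≤ 2 * d * (B * (m : ℝ) ^ (-(d : ℝ) / 2)) * zc d := mul_le_mul_of_nonneg_right h2 hz.le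
    _ = 2 * d * B * zc d * (m : ℝ) ^ (-(d : ℝ) / 2) := by ring

end Pool.Agent.helper91.SW
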