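import Pool.Agent.helper91.SW.Crit

/-!
# Self-avoiding walks in high dimensions: renewal analysis with partial norms of power series
-/

set_option autoImplicit false

open Finset Filter Topology PowerSeries
open Pool.Agent.helper55.FP hiding chi

namespace Pool.Agent.helper91.SW

/-! ## partial norms -/

/-- partial `ℓ¹` norm -/
noncomputable def nrm (N : ℕ) (f : ℝ⟦X⟧) : ℝ := ∑ n ∈ range N, |coeff n f|

theorem nrm_nonneg (N : ℕ) (f : ℝ⟦X⟧) : 0 ≤ nrm N f := Finset.sum_nonneg fun _ _ => abs_nonneg _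

theorem nrm_add (N : ℕ) (f g : ℝ⟦X⟧) : nrm N (f + g) ≤ nrm N f + nrm N g := by
  unfold nrm
  rw [← Finset.sum_add_distrib]
  exact Finset.sum_le_sum fun n _ => by rw [map_add]; exact abs_add_le _ _

theorem nrm_neg (N : ℕ) (f : ℝ⟦X⟧) : nrm N (-f) = nrm N f := by
  unfold nrm
  simp

theorem nrm_sub (N : ℕ) (f g : ℝ⟦X⟧) : nrm N (f - g) ≤ nrm N f + nrm N g := by
  rw [sub_eq_add_neg]
  exact (nrm_add N f (-g)).trans (by rw [nrm_neg])

theorem nrm_mul (N : ℕ) (f g : ℝ⟦X⟧) : nrm N (f * g) ≤ nrm N f * nrm N g := by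
  unfold nrm
  have h1 : ∀ n ∈ range N, |coeff n (f * g)| ≤
      ∑ k ∈ range (n + 1), |coeff k f| * |coeff (n - k) g| := by
    intro n _
    rw [coeff_mul, Finset.Nat.sum_antidiagonal_eq_sum_range_succ
      (fun i j => coeff i f * coeff j g)]
    refine (Finset.abs_sum_le_sum_abs _ _).trans (le_of_eq ?_)
    exact Finset.sum_congr rfl fun k _ => abs_mul _ _
  refine (Finset.sum_le_sum h1).trans ?_
  rw [Finset.sum_range_diag_flip N (fun k j => |coeff k f| * |coeff j g|), Finset.sum_mul_sum]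
  refine Finset.sum_le_sum fun k _ => ?_
  exact Finset.sum_le_sum_of_subset_of_nonneg (Finset.range_mono (by omega))
    fun _ _ _ => by positivity

theorem nrm_one_le (N : ℕ) : nrm N 1 ≤ 1 := by
  unfold nrm
  rcases Nat.eq_zero_or_pos N with h | h
  · subst h; simp
  · rw [Finset.sum_eq_single 0]
    · simp
    · intro n _ hn
      rw [coeff_one, if_neg hn, abs_zero]
    · intro h'
      exact absurd (Finset.mem_range.2 h) h'

theorem nrm_X_le (N : ℕ) : nrm N (X : ℝ⟦X⟧) ≤ 1 := by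
  unfold nrm
  by_cases h : 1 < N
  · rw [Finset.sum_eq_single 1]
    · simp
    · intro n _ hn
      rw [coeff_X, if_neg hn, abs_zero]
    · intro h'
      exact absurd (Finset.mem_range.2 h) h'
  · refine le_trans (le_of_eq ?_) zero_le_one
    refine Finset.sum_eq_zero fun n hn => ?_
    rw [Finset.mem_range] at hn
    rw [coeff_X, if_neg (by omega), abs_zero]

theorem nrm_X_mul_le (N : ℕ) (f : ℝ⟦X⟧) : nrm N (X * f) ≤ nrm N f := by
  refine (nrm_mul N _ _).trans ?_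
  have := nrm_nonneg N f
  have := nrm_X_le N
  nlinarith

theorem nrm_C_mul (N : ℕ) (a : ℝ) (f : ℝ⟦X⟧) : nrm N (C a * f) = |a| * nrm N f := by
  unfold nrm
  rw [Finset.mul_sum]
  exact Finset.sum_congr rfl fun n _ => by rw [coeff_C_mul, abs_mul]

theorem nrm_C_le (N : ℕ) (a : ℝ) : nrm N (C a) ≤ |a| := by
  have h := nrm_C_mul N a 1
  rw [mul_one] at h
  rw [h]
  have := nrm_one_le N
  have := abs_nonneg a
  nlinarith

theorem coeff_le_nrm {N n : ℕ} (h : n < N) (f : ℝ⟦X⟧) : |coeff n f| ≤ nrm N f :=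
  Finset.single_le_sum (f := fun n => |coeff n f|) (fun _ _ => abs_nonneg _)
    (Finset.mem_range.2 h)

/-! ## the series -/

variable {d : ℕ} {ε : ℝ}

/-- `∑ a_n(k) X^n` -/
noncomputable def aS (k : Fin d → ℝ) : ℝ⟦X⟧ :=
  PowerSeries.mk fun n => ct (c n : V d → ℝ) k * zc d ^ n

/-- `∑ π_{m+1}(k) X^m` -/
noncomputable def rS (k : Fin d → ℝ) : ℝ⟦X⟧ :=
  PowerSeries.mk fun m => ct (pi m : V d → ℝ) k * zc d ^ (m + 1)

/-- the kernel -/
noncomputable def sS (k : Fin d → ℝ) : ℝ⟦X⟧ := C (2 * d * zc d * Dh k) + rS k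

theorem aS_eqn (k : Fin d → ℝ) : aS k = 1 + X * (sS k * aS k) := by
  ext n
  cases n with
  | zero => simp [aS, ct_c_zero]
  | succ n =>
    rw [map_add, coeff_succ_X_mul, coeff_one, if_neg (Nat.succ_ne_zero n), zero_add, sS, add_mul,
      map_add, coeff_C_mul, coeff_mul, Finset.Nat.sum_antidiagonal_eq_sum_range_succ
      (fun i j => coeff i (rS k) * coeff j (aS k))]
    simp only [aS, rS, coeff_mk]
    rw [ct_lace, add_mul, Finset.sum_mul]
    congr 1
    · ring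
    · refine Finset.sum_congr rfl fun m hm => ?_
      rw [Finset.mem_range] at hm
      have : zc d ^ (n + 1) = zc d ^ (m + 1) * zc d ^ (n - m) := by
        rw [← pow_add]; congr 1; omega
      rw [this]
      ring

theorem one_sub_mul_aS (k : Fin d → ℝ) : (1 - X * sS k) * aS k = 1 := by
  have h := aS_eqn k
  linear_combination h

/-- tails of the kernel at `k = 0` -/
noncomputable def phiS (d : ℕ) : ℝ⟦X⟧ :=
  PowerSeries.mk fun n => ∑' i : ℕ, ct (pi (n + 1 + i) : V d → ℝ) 0 * zc d ^ (n + 1 + i + 1)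

theorem Crit.summable (h : Crit d ε) (k : Fin d → ℝ) :
    Summable fun m : ℕ => ct (pi m : V d → ℝ) k * zc d ^ (m + 1) :=
  h.pib.ph_summable (zc_pos d).le k

theorem Crit.eps_nonneg (h : Crit d ε) : 0 ≤ ε := by simpa using h.pib 0

theorem ct_pi_zero (k : Fin d → ℝ) : ct (pi 0 : V d → ℝ) k = 0 := by
  rw [pi_zero]
  simp [ct]

theorem Crit.factor (h : Crit d ε) : (1 : ℝ⟦X⟧) - X * sS (0 : Fin d → ℝ) =
    (1 - X) * (1 + X * phiS d) := by
  have hs := h.summable (0 : Fin d → ℝ)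
  have key : sS (0 : Fin d → ℝ) = 1 - phiS d + X * phiS d := by
    ext n
    cases n with
    | zero =>
      simp only [sS, rS, phiS, map_add, map_sub, coeff_mk, coeff_zero_eq_constantCoeff,
        constantCoeff_C, constantCoeff_one, map_mul, constantCoeff_X, zero_mul, add_zero]
      have e0 := hs.sum_add_tsum_nat_add 1
      simp only [Finset.sum_range_one, ct_pi_zero, zero_mul, zero_add] at e0
      have e2 : ∑' i : ℕ, ct (pi (0 + 1 + i) : V d → ℝ) 0 * zc d ^ (0 + 1 + i + 1) =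
          ph d (zc d) 0 := by
        unfold ph
        rw [← e0]
        refine tsum_congr fun i => ?_
        rw [show 0 + 1 + i = i + 1 by ring]
      rw [e2, ct_pi_zero, Dh_zero h.hd]
      have := h.root
      linarith
    | succ n =>
      rw [map_add, map_sub, coeff_succ_X_mul, coeff_one, if_neg (Nat.succ_ne_zero n)]
      simp only [sS, rS, phiS, map_add, coeff_mk]
      rw [coeff_C, if_neg (Nat.succ_ne_zero n), zero_add]
      have hs' : Summable fun i : ℕ => ct (pi (n + 1 + i) : V d → ℝ) 0 *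
          zc d ^ (n + 1 + i + 1) := by
        have := (summable_nat_add_iff (n + 1)).2 hs
        refine this.congr fun i => ?_
        rw [show i + (n + 1) = n + 1 + i by ring]
      have e1 := hs'.tsum_eq_zero_add
      have e2 : ∑' i : ℕ, ct (pi (n + 1 + (i + 1)) : V d → ℝ) 0 * zc d ^ (n + 1 + (i + 1) + 1) =
          ∑' i : ℕ, ct (pi (n + 1 + 1 + i) : V d → ℝ) 0 * zc d ^ (n + 1 + 1 + i + 1) := by
        refine tsum_congr fun i => ?_
        rw [show n + 1 + (i + 1) = n + 1 + 1 + i by ring]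
      rw [e2, add_zero] at e1
      linarith
  rw [key]
  ring

theorem Crit.phi_coeff (h : Crit d ε) (n : ℕ) :
    |coeff n (phiS d)| ≤ ε / ((n : ℝ) + 3) ^ 2 := by
  have hzc := zc_pos d
  simp only [phiS, coeff_mk]
  have hterm : ∀ i : ℕ, ‖ct (pi (n + 1 + i) : V d → ℝ) 0 * zc d ^ (n + 1 + i + 1)‖ ≤
      ((2 + (n + 1 + i : ℕ) : ℝ) ^ 2 * zc d ^ (n + 1 + i + 1) * npi d (n + 1 + i)) *
        (1 / ((n : ℝ) + 3) ^ 2) := by
    intro i
    rw [Real.norm_eq_abs, abs_mul, abs_of_nonneg (by positivity : 0 ≤ zc d ^ (n + 1 + i + 1))]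
    have e1 := abs_ct_pi_le (d := d) (n + 1 + i) 0
    have e2 := npi_nonneg (d := d) (n + 1 + i)
    have e3 : ((n : ℝ) + 3) ^ 2 ≤ (2 + (n + 1 + i : ℕ) : ℝ) ^ 2 := by
      apply pow_le_pow_left₀ (by positivity)
      push_cast
      have : (0 : ℝ) ≤ i := Nat.cast_nonneg i
      linarith
    have e4 : 1 ≤ (2 + (n + 1 + i : ℕ) : ℝ) ^ 2 * (1 / ((n : ℝ) + 3) ^ 2) := by
      rw [mul_one_div, le_div_iff₀ (by positivity), one_mul]; exact e3
    calc |ct (pi (n + 1 + i) : V d → ℝ) 0| * zc d ^ (n + 1 + i + 1)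
        ≤ npi d (n + 1 + i) * zc d ^ (n + 1 + i + 1) :=
          mul_le_mul_of_nonneg_right e1 (by positivity)
      _ = 1 * (zc d ^ (n + 1 + i + 1) * npi d (n + 1 + i)) := by ring
      _ ≤ ((2 + (n + 1 + i : ℕ) : ℝ) ^ 2 * (1 / ((n : ℝ) + 3) ^ 2)) *
          (zc d ^ (n + 1 + i + 1) * npi d (n + 1 + i)) :=
          mul_le_mul_of_nonneg_right e4 (by positivity)
      _ = _ := by ring
  have hsum := h.pib.summable hzc.le
  have hsum' : Summable fun i : ℕ => (2 + (n + 1 + i : ℕ) : ℝ) ^ 2 * zc d ^ (n + 1 + i + 1) *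
      npi d (n + 1 + i) := by
    have := (summable_nat_add_iff (n + 1)).2 hsum
    refine this.congr fun i => ?_
    rw [show i + (n + 1) = n + 1 + i by ring]
  have hle : ∑' i : ℕ, (2 + (n + 1 + i : ℕ) : ℝ) ^ 2 * zc d ^ (n + 1 + i + 1) *
      npi d (n + 1 + i) ≤ ε := by
    have e1 := hsum.sum_add_tsum_nat_add (n + 1)
    have e2 : ∑' i : ℕ, (2 + (n + 1 + i : ℕ) : ℝ) ^ 2 * zc d ^ (n + 1 + i + 1) *
        npi d (n + 1 + i) = ∑' i : ℕ, (2 + (i + (n + 1) : ℕ) : ℝ) ^ 2 *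
          zc d ^ (i + (n + 1) + 1) * npi d (i + (n + 1)) := by
      refine tsum_congr fun i => ?_
      rw [show i + (n + 1) = n + 1 + i by ring]
    rw [e2]
    have e3 := h.pib.tsum_le hzc.le
    have e4 : 0 ≤ ∑ i ∈ range (n + 1), (2 + i : ℝ) ^ 2 * zc d ^ (i + 1) * npi d i :=
      Finset.sum_nonneg fun i _ => mul_nonneg (by positivity) (npi_nonneg i)
    linarith
  have hs1 : Summable fun i : ℕ => ‖ct (pi (n + 1 + i) : V d → ℝ) 0 *
      zc d ^ (n + 1 + i + 1)‖ :=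
    Summable.of_nonneg_of_le (fun i => norm_nonneg _) hterm (hsum'.mul_right _)
  refine (norm_tsum_le_tsum_norm hs1).trans ?_
  refine (Summable.tsum_le_tsum hterm hs1 (hsum'.mul_right _)).trans ?_
  rw [tsum_mul_right]
  have hfin := mul_le_mul_of_nonneg_right hle (by positivity : (0 : ℝ) ≤ 1 / ((n : ℝ) + 3) ^ 2)
  refine hfin.trans (le_of_eq ?_)
  rw [mul_one_div]

theorem sum_inv_sq_le (N : ℕ) : ∑ n ∈ range N, 1 / ((n : ℝ) + 3) ^ 2 ≤ 1 := by
  have h : ∑ n ∈ range N, 1 / ((n : ℝ) + 3) ^ 2 ≤ 1 - 1 / ((N : ℝ) + 1) := by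
    induction N with
    | zero => norm_num
    | succ N ih =>
      rw [Finset.sum_range_succ]
      have h1 : 1 / ((N : ℝ) + 3) ^ 2 ≤ 1 / ((N : ℝ) + 1) - 1 / (((N + 1 : ℕ) : ℝ) + 1) := by
        have hN : (0 : ℝ) ≤ N := Nat.cast_nonneg N
        push_cast
        rw [div_sub_div _ _ (by positivity) (by positivity),
          div_le_div_iff₀ (by positivity) (by positivity)]
        nlinarith
      linarith
  have : (0 : ℝ) ≤ 1 / ((N : ℝ) + 1) := by positivity
  linarith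

theorem Crit.nrm_phi (h : Crit d ε) (N : ℕ) : nrm N (phiS d) ≤ ε := by
  unfold nrm
  refine (Finset.sum_le_sum fun n _ => h.phi_coeff n).trans ?_
  have h1 : ∑ n ∈ range N, ε / ((n : ℝ) + 3) ^ 2 = ε * ∑ n ∈ range N, 1 / ((n : ℝ) + 3) ^ 2 := by
    rw [Finset.mul_sum]
    exact Finset.sum_congr rfl fun n _ => by ring
  rw [h1]
  have := sum_inv_sq_le N
  have := h.eps_nonneg
  nlinarith

/-- inverse of `1 + X φ` -/
noncomputable def psiS (d : ℕ) : ℝ⟦X⟧ := (1 - X) * aS (0 : Fin d → ℝ)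

theorem Crit.psi_mul (h : Crit d ε) : (1 + X * phiS d) * psiS d = 1 := by
  have h1 := one_sub_mul_aS (0 : Fin d → ℝ)
  rw [h.factor] at h1
  unfold psiS
  linear_combination h1

theorem Crit.nrm_psi (h : Crit d ε) (hε : ε ≤ 1 / 2) (N : ℕ) : nrm N (psiS d) ≤ 2 := by
  have h1 : psiS d = 1 - X * (phiS d * psiS d) := by
    have := h.psi_mul
    linear_combination this
  have h2 : nrm N (psiS d) ≤ 1 + ε * nrm N (psiS d) := by
    conv_lhs => rw [h1]
    refine (nrm_sub N _ _).trans (add_le_add (nrm_one_le N) ?_)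
    refine (nrm_X_mul_le N _).trans ((nrm_mul N _ _).trans ?_)
    exact mul_le_mul_of_nonneg_right (h.nrm_phi N) (nrm_nonneg _ _)
  have h3 := nrm_nonneg N (psiS d)
  nlinarith

theorem Crit.nrm_psi_sub (h : Crit d ε) (hε : ε ≤ 1 / 2) (N : ℕ) :
    nrm N (psiS d - 1) ≤ 2 * ε := by
  have h1 : psiS d - 1 = -(X * (phiS d * psiS d)) := by
    have := h.psi_mul
    linear_combination this
  rw [h1, nrm_neg]
  refine (nrm_X_mul_le N _).trans ((nrm_mul N _ _).trans ?_)
  have h2 := h.nrm_psi hε N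
  have h3 := nrm_nonneg N (psiS d)
  have h4 := h.nrm_phi N
  have h5 := nrm_nonneg N (phiS d)
  have h6 := h.eps_nonneg
  calc nrm N (phiS d) * nrm N (psiS d) ≤ ε * 2 := mul_le_mul h4 h2 h3 h6
    _ = 2 * ε := by ring

theorem coeff_aS_zero (n : ℕ) : coeff n (aS (0 : Fin d → ℝ)) = Cn d n * zc d ^ n := by
  simp only [aS, coeff_mk]
  rw [ct_zero]
  rfl

/-- the number of walks is at most `2 μ^n` -/
theorem Crit.Cn_le (h : Crit d ε) (hε : ε ≤ 1 / 2) (n : ℕ) : Cn d n * zc d ^ n ≤ 2 := by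
  have h1 : ∀ n, coeff n (aS (0 : Fin d → ℝ)) = ∑ i ∈ range (n + 1), coeff i (psiS d) := by
    intro n
    induction n with
    | zero =>
      simp [psiS]
    | succ n ih =>
      rw [Finset.sum_range_succ, ← ih]
      have e : psiS d = aS (0 : Fin d → ℝ) - X * aS (0 : Fin d → ℝ) := by
        unfold psiS; ring
      rw [e, map_sub, coeff_succ_X_mul]
      ring
  rw [← coeff_aS_zero, h1]
  refine (Finset.sum_le_sum fun i _ => le_abs_self _).trans ?_
  exact h.nrm_psi hε (n + 1)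

theorem abs_coeff_aS_le (n : ℕ) (k : Fin d → ℝ) : |coeff n (aS k)| ≤ Cn d n * zc d ^ n := by
  simp only [aS, coeff_mk]
  have hz := (zc_pos d).le
  rw [abs_mul, abs_of_nonneg (pow_nonneg hz n)]
  exact mul_le_mul_of_nonneg_right (abs_ct_c_le n k) (pow_nonneg hz n)

/-- difference of the kernels -/
theorem Crit.nrm_sS_sub (h : Crit d ε) (k : Fin d → ℝ) (N : ℕ) :
    nrm N (sS (0 : Fin d → ℝ) - sS k - C (1 - Dh k)) ≤ 2 * ε * (1 - Dh k) := by
  have hD : 0 ≤ 1 - Dh k := by linarith [(abs_le.1 (abs_Dh_le_one k)).2]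
  have hzc := zc_pos d
  have e1 : sS (0 : Fin d → ℝ) - sS k - C (1 - Dh k) =
      C ((2 * d * zc d - 1) * (1 - Dh k)) + (rS (0 : Fin d → ℝ) - rS k) := by
    unfold sS
    rw [Dh_zero h.hd]
    have : (C ((2 * d * zc d - 1) * (1 - Dh k)) : ℝ⟦X⟧) =
        C (2 * d * zc d * 1) - C (2 * d * zc d * Dh k) - C (1 - Dh k) := by
      rw [← map_sub, ← map_sub]
      congr 1
      ring
    rw [this]
    ring
  rw [e1]
  refine (nrm_add N _ _).trans ?_
  have e2 : nrm N (C ((2 * d * zc d - 1) * (1 - Dh k))) ≤ ε * (1 - Dh k) := by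
    refine (nrm_C_le N _).trans ?_
    rw [abs_mul, abs_of_nonneg hD]
    refine mul_le_mul_of_nonneg_right ?_ hD
    have h1 := h.pib.abs_ph_le hzc.le (0 : Fin d → ℝ)
    have h2 : 2 * d * zc d - 1 = -ph d (zc d) 0 := by linarith [h.root]
    rw [h2, abs_neg]
    exact h1
  have e3 : nrm N (rS (0 : Fin d → ℝ) - rS k) ≤ ε * (1 - Dh k) := by
    unfold nrm
    have h1 : ∀ n ∈ range N, |coeff n (rS (0 : Fin d → ℝ) - rS k)| ≤
        (2 + n : ℝ) ^ 2 * zc d ^ (n + 1) * npi d n * (1 - Dh k) := by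
      intro n _
      rw [map_sub]
      simp only [rS, coeff_mk]
      exact pib_sub_term h.hd hzc.le n k
    refine (Finset.sum_le_sum h1).trans ?_
    rw [← Finset.sum_mul]
    exact mul_le_mul_of_nonneg_right (h.pib N) hD
  linarith

theorem Crit.nrm_sS_sub' (h : Crit d ε) (hε : ε ≤ 1 / 2) (k : Fin d → ℝ) (N : ℕ) :
    nrm N (sS (0 : Fin d → ℝ) - sS k) ≤ 2 * (1 - Dh k) := by
  have hD : 0 ≤ 1 - Dh k := by linarith [(abs_le.1 (abs_Dh_le_one k)).2]
  have h1 := h.nrm_sS_sub k N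
  have h2 : sS (0 : Fin d → ℝ) - sS k =
      (sS (0 : Fin d → ℝ) - sS k - C (1 - Dh k)) + C (1 - Dh k) := by ring
  rw [h2]
  refine (nrm_add N _ _).trans ?_
  have h3 := nrm_C_le N (1 - Dh k)
  rw [abs_of_nonneg hD] at h3
  nlinarith

/-- geometric series -/
noncomputable def geoS (D : ℝ) : ℝ⟦X⟧ := PowerSeries.mk fun n => D ^ n

theorem geoS_mul (D : ℝ) : (1 - X * C D) * geoS D = 1 := by
  have h : geoS D = 1 + X * (C D * geoS D) := by
    ext n
    cases n with
    | zero => simp [geoS]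
    | succ n =>
      rw [map_add, coeff_succ_X_mul, coeff_one, if_neg (Nat.succ_ne_zero n), zero_add, coeff_C_mul]
      simp only [geoS, coeff_mk]
      rw [pow_succ]; ring
  linear_combination h

theorem nrm_geoS {D : ℝ} (h0 : 0 ≤ D) (h1 : D < 1) (N : ℕ) : nrm N (geoS D) ≤ (1 - D)⁻¹ := by
  unfold nrm geoS
  simp only [coeff_mk]
  have e : ∀ n ∈ range N, |D ^ n| = D ^ n := fun n _ => abs_of_nonneg (pow_nonneg h0 n)
  rw [Finset.sum_congr rfl e, ← tsum_geometric_of_lt_one h0 h1]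
  exact (summable_geometric_of_lt_one h0 h1).sum_le_tsum _ fun n _ => pow_nonneg h0 n

/-- the renewal bound -/
theorem Crit.renewal (h : Crit d ε) (hε : ε ≤ 1 / 12) {k : Fin d → ℝ} (h0 : 0 ≤ Dh k)
    (h1 : Dh k < 1) (N : ℕ) : nrm N (aS k) ≤ 4 * (1 - Dh k)⁻¹ := by
  set D := Dh k with hD
  have hε0 := h.eps_nonneg
  have hpos : 0 < 1 - D := by linarith
  set R : ℝ⟦X⟧ := sS (0 : Fin d → ℝ) - sS k - C (1 - D) with hR
  have hRn : nrm N R ≤ 2 * ε * (1 - D) := h.nrm_sS_sub k N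
  set R2 : ℝ⟦X⟧ := (psiS d - 1) * C (1 - D) + psiS d * R with hR2
  have hR2n : nrm N R2 ≤ 6 * ε * (1 - D) := by
    refine (nrm_add N _ _).trans ?_
    have e1 := nrm_mul N (psiS d - 1) (C (1 - D))
    have e2 := nrm_mul N (psiS d) R
    have e3 := h.nrm_psi_sub (by linarith) N
    have e4 := h.nrm_psi (by linarith) N
    have e5 := nrm_C_le N (1 - D)
    rw [abs_of_pos hpos] at e5
    have e6 : nrm N (psiS d - 1) * nrm N (C (1 - D)) ≤ 2 * ε * (1 - D) :=
      mul_le_mul e3 e5 (nrm_nonneg _ _) (by positivity)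
    have e7 : nrm N (psiS d) * nrm N R ≤ 2 * (2 * ε * (1 - D)) :=
      mul_le_mul e4 hRn (nrm_nonneg _ _) (by norm_num)
    linarith
  set B : ℝ⟦X⟧ := (1 + X * phiS d) * aS k with hB
  have hpsi := h.psi_mul
  have hfac := h.factor
  have hak := one_sub_mul_aS k
  have hC : (C (1 - D) : ℝ⟦X⟧) = 1 - C D := by rw [map_sub, map_one]
  -- ψ F_k = 1 - D X + X R2
  have e1 : psiS d * (1 - X * sS k) = 1 - X * C D + X * R2 := by
    have e2 : (1 : ℝ⟦X⟧) - X * sS k = (1 - X) * (1 + X * phiS d) + X * (C (1 - D) + R) := by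
      rw [← hfac, hR]; ring
    rw [e2, hR2, hC]
    linear_combination (1 - X) * hpsi
  have e2 : (1 - X * C D + X * R2) * B = 1 := by
    rw [← e1, hB]
    linear_combination hpsi * ((1 - X * sS k) * aS k) + hak
  have hgeo := geoS_mul D
  have e3 : B = geoS D - geoS D * (X * (R2 * B)) := by
    linear_combination (-B) * hgeo + geoS D * e2
  have e4 : nrm N B ≤ (1 - D)⁻¹ + (1 - D)⁻¹ * (6 * ε * (1 - D) * nrm N B) := by
    conv_lhs => rw [e3]
    refine (nrm_sub N _ _).trans (add_le_add (nrm_geoS h0 h1 N) ?_)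
    refine (nrm_mul N _ _).trans ?_
    refine mul_le_mul (nrm_geoS h0 h1 N) ?_ (nrm_nonneg _ _) (inv_nonneg.2 hpos.le)
    refine (nrm_X_mul_le N _).trans ((nrm_mul N _ _).trans ?_)
    exact mul_le_mul_of_nonneg_right hR2n (nrm_nonneg _ _)
  have e5 : (1 - D)⁻¹ * (6 * ε * (1 - D) * nrm N B) = 6 * ε * nrm N B := by
    field_simp
  rw [e5] at e4
  have e6 := nrm_nonneg N B
  have e7 : nrm N B ≤ 2 * (1 - D)⁻¹ := by nlinarith
  have e8 : aS k = psiS d * B := by
    rw [hB]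
    linear_combination (-aS k) * hpsi
  rw [e8]
  refine (nrm_mul N _ _).trans ?_
  have e9 := h.nrm_psi (by linarith) N
  calc nrm N (psiS d) * nrm N B ≤ 2 * (2 * (1 - D)⁻¹) := mul_le_mul e9 e7 e6 (by norm_num)
    _ = 4 * (1 - D)⁻¹ := by ring

/-- the cosine defect grows linearly -/
theorem Crit.defect (h : Crit d ε) (hε : ε ≤ 1 / 2) (n : ℕ) (k : Fin d → ℝ) :
    coeff n (aS (0 : Fin d → ℝ)) - coeff n (aS k) ≤ 8 * (n + 1) * (1 - Dh k) := by
  have h0 := one_sub_mul_aS (0 : Fin d → ℝ)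
  have hk := one_sub_mul_aS k
  have e1 : aS (0 : Fin d → ℝ) - aS k =
      X * ((sS (0 : Fin d → ℝ) - sS k) * (aS (0 : Fin d → ℝ) * aS k)) := by
    linear_combination aS k * h0 - aS (0 : Fin d → ℝ) * hk
  have hco : ∀ (i : ℕ) (k : Fin d → ℝ), |coeff i (aS k)| ≤ 2 := fun i k =>
    (abs_coeff_aS_le i k).trans (h.Cn_le hε i)
  rw [← map_sub, e1]
  have hD : 0 ≤ 1 - Dh k := by linarith [(abs_le.1 (abs_Dh_le_one k)).2]
  cases n with
  | zero =>
    refine le_trans (le_of_eq ?_) (mul_nonneg (by positivity) hD)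
    simp
  | succ n =>
    rw [coeff_succ_X_mul, coeff_mul, Finset.Nat.sum_antidiagonal_eq_sum_range_succ
      (fun i j => coeff i (sS (0 : Fin d → ℝ) - sS k) * coeff j (aS (0 : Fin d → ℝ) * aS k))]
    have e2 : ∀ j ≤ n, |coeff j (aS (0 : Fin d → ℝ) * aS k)| ≤ 4 * (n + 1) := by
      intro j hj
      rw [coeff_mul, Finset.Nat.sum_antidiagonal_eq_sum_range_succ
        (fun i l => coeff i (aS (0 : Fin d → ℝ)) * coeff l (aS k))]
      refine (Finset.abs_sum_le_sum_abs _ _).trans ?_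
      have e3 : ∀ i ∈ range j.succ, |coeff i (aS (0 : Fin d → ℝ)) * coeff (j - i) (aS k)| ≤ 4 := by
        intro i _
        rw [abs_mul]
        have := mul_le_mul (hco i 0) (hco (j - i) k) (abs_nonneg _) (by norm_num)
        linarith
      refine (Finset.sum_le_sum e3).trans ?_
      rw [Finset.sum_const, Finset.card_range, nsmul_eq_mul]
      have : ((j.succ : ℕ) : ℝ) ≤ n + 1 := by
        have : j.succ ≤ n + 1 := by omega
        exact_mod_cast this
      linarith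
    refine (Finset.sum_le_sum fun i _ => le_abs_self _).trans ?_
    have e4 : ∀ i ∈ range n.succ, |coeff i (sS (0 : Fin d → ℝ) - sS k) *
        coeff (n - i) (aS (0 : Fin d → ℝ) * aS k)| ≤
          |coeff i (sS (0 : Fin d → ℝ) - sS k)| * (4 * (n + 1)) := by
      intro i _
      rw [abs_mul]
      exact mul_le_mul_of_nonneg_left (e2 (n - i) (by omega)) (abs_nonneg _)
    refine (Finset.sum_le_sum e4).trans ?_
    rw [← Finset.sum_mul]
    have e5 : ∑ i ∈ range n.succ, |coeff i (sS (0 : Fin d → ℝ) - sS k)| ≤ 2 * (1 - Dh k) :=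
      h.nrm_sS_sub' hε k (n + 1)
    have e6 := mul_le_mul_of_nonneg_right e5 (by positivity : (0 : ℝ) ≤ 4 * (n + 1))
    refine e6.trans ?_
    push_cast
    nlinarith

end Pool.Agent.helper91.SW
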