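import Pool.Agent.helper91.SW.MSD

/-!
# Self-avoiding walks in high dimensions: walks as lists of steps
-/

set_option autoImplicit false

open Finset
open Pool.Agent.helper55.FP hiding chi

namespace Pool.Agent.helper91.SW

variable {d : ℕ}

/-- steps -/
abbrev St (d : ℕ) : Type := Fin d × Bool

/-- the endpoint of a list of steps -/
noncomputable def pos (l : List (St d)) : V d := (l.map nb).sum

theorem pos_nil : pos ([] : List (St d)) = 0 := by simp [pos]

theorem pos_cons (s : St d) (l : List (St d)) : pos (s :: l) = nb s + pos l := by simp [pos]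

theorem pos_append (l l' : List (St d)) : pos (l ++ l') = pos l + pos l' := by simp [pos]

/-- the lists of steps of length `n` -/
noncomputable def LL (d n : ℕ) : Finset (List (St d)) :=
  (Finset.univ : Finset (Fin n → St d)).image List.ofFn

theorem mem_LL {n : ℕ} {l : List (St d)} : l ∈ LL d n ↔ l.length = n := by
  unfold LL
  rw [Finset.mem_image]
  constructor
  · rintro ⟨f, _, rfl⟩
    exact List.length_ofFn
  · rintro rfl
    exact ⟨l.get, Finset.mem_univ _, List.ofFn_get l⟩

theorem card_LL (n : ℕ) : (LL d n).card = (2 * d) ^ n := by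
  unfold LL
  rw [Finset.card_image_of_injective _ List.ofFn_injective, Finset.card_univ, Fintype.card_fun,
    Fintype.card_prod, Fintype.card_bool, Fintype.card_fin, Fintype.card_fin, mul_comm d 2]

theorem card_filter_succ (n : ℕ) (p : List (St d) → Prop) [DecidablePred p] :
    ((LL d (n + 1)).filter p).card = ∑ s : St d, ((LL d n).filter fun l => p (s :: l)).card := by
  have h1 : (LL d (n + 1)).filter p = Finset.univ.biUnion fun s : St d =>
      ((LL d n).filter fun l => p (s :: l)).image (List.cons s) := by
    ext l
    simp only [Finset.mem_filter, Finset.mem_biUnion, Finset.mem_univ, true_and, Finset.mem_image,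
      mem_LL]
    constructor
    · rintro ⟨h, hp⟩
      cases l with
      | nil => simp at h
      | cons s l =>
        exact ⟨s, l, ⟨by simpa using h, hp⟩, rfl⟩
    · rintro ⟨s, l', ⟨h, hp⟩, rfl⟩
      exact ⟨by simp [h], hp⟩
  rw [h1, Finset.card_biUnion]
  · refine Finset.sum_congr rfl fun s _ => ?_
    exact Finset.card_image_of_injective _ (List.cons_injective)
  · intro s _ t _ hst
    change Disjoint (Finset.image (List.cons s) _) (Finset.image (List.cons t) _)
    rw [Finset.disjoint_left]
    intro l hl hl'
    rw [Finset.mem_image] at hl hl'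
    obtain ⟨l1, _, rfl⟩ := hl
    obtain ⟨l2, _, h2⟩ := hl'
    rw [List.cons_eq_cons] at h2
    exact hst h2.1.symm

/-- the walk from `y` with steps `l` avoids `β` and itself -/
def Av : Finset (V d) → V d → List (St d) → Prop
  | _, _, [] => True
  | β, y, s :: l => y + nb s ∉ β ∧ Av (insert (y + nb s) β) (y + nb s) l

open Classical in
theorem A_eq_card (n : ℕ) : ∀ (β : Finset (V d)) (y x : V d),
    A n β y x = (((LL d n).filter fun l => Av β y l ∧ y + pos l = x).card : ℝ) := by
  induction n with
  | zero =>
    intro β y x
    have h0 : LL d 0 = {[]} := by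
      ext l
      rw [mem_LL, Finset.mem_singleton, List.length_eq_zero_iff]
    simp only [A]
    rw [h0]
    by_cases h : y = x
    · rw [if_pos h, Finset.filter_true_of_mem]
      · simp
      · intro l hl
        rw [Finset.mem_singleton] at hl
        subst hl
        exact ⟨by simp [Av], by rw [pos_nil, add_zero, h]⟩
    · rw [if_neg h, Finset.filter_false_of_mem]
      · simp
      · intro l hl
        rw [Finset.mem_singleton] at hl
        subst hl
        rintro ⟨_, h2⟩
        rw [pos_nil, add_zero] at h2
        exact h h2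
  | succ n ih =>
    intro β y x
    simp only [A]
    rw [card_filter_succ, Nat.cast_sum]
    refine Finset.sum_congr rfl fun s _ => ?_
    by_cases h : y + nb s ∈ β
    · rw [if_pos h, Finset.filter_false_of_mem]
      · simp
      · intro l _
        simp only [Av]
        tauto
    · rw [if_neg h, ih]
      congr 2
      apply Finset.filter_congr
      intro l _
      simp only [Av]
      rw [pos_cons, ← add_assoc]
      tauto

theorem Av_iff : ∀ (l : List (St d)) (β : Finset (V d)) (y : V d), Av β y l ↔
    (∀ j, 1 ≤ j → j ≤ l.length → y + pos (l.take j) ∉ β) ∧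
    (∀ i j, 1 ≤ i → i < j → j ≤ l.length → pos (l.take i) ≠ pos (l.take j)) := by
  intro l
  induction l with
  | nil =>
    intro β y
    simp only [Av, true_iff]
    constructor
    · intro j h1 h2
      simp at h2
      omega
    · intro i j h1 h2 h3
      simp at h3
      omega
  | cons s l ih =>
    intro β y
    simp only [Av]
    rw [ih]
    constructor
    · rintro ⟨h0, h1, h2⟩
      constructor
      · intro j hj1 hj2
        obtain ⟨j, rfl⟩ : ∃ k, j = k + 1 := ⟨j - 1, by omega⟩
        rw [List.take_succ_cons, pos_cons, ← add_assoc]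
        rcases Nat.eq_zero_or_pos j with hj | hj
        · subst hj
          rw [List.take_zero, pos_nil, add_zero]
          exact h0
        · have := h1 j hj (by simpa using hj2)
          rw [Finset.mem_insert, not_or] at this
          exact this.2
      · intro i j hi hij hj
        obtain ⟨i, rfl⟩ : ∃ k, i = k + 1 := ⟨i - 1, by omega⟩
        obtain ⟨j, rfl⟩ : ∃ k, j = k + 1 := ⟨j - 1, by omega⟩
        rw [List.take_succ_cons, List.take_succ_cons, pos_cons, pos_cons]
        intro h
        have h3 := add_left_cancel h
        have hj' : j ≤ l.length := by simpa using hj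
        rcases Nat.eq_zero_or_pos i with hi0 | hi0
        · subst hi0
          have := h1 j (by omega) hj'
          rw [Finset.mem_insert, not_or] at this
          apply this.1
          rw [← h3, List.take_zero, pos_nil, add_zero]
        · exact h2 i j hi0 (by omega) hj' h3
    · rintro ⟨h1, h2⟩
      refine ⟨?_, ?_, ?_⟩
      · have := h1 1 le_rfl (by simp)
        rwa [List.take_succ_cons, List.take_zero, pos_cons, pos_nil, add_zero] at this
      · intro j hj1 hj2
        rw [Finset.mem_insert, not_or]
        constructor
        · intro h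
          have h3 := h2 1 (j + 1) le_rfl (by omega) (by simpa using hj2)
          rw [List.take_succ_cons, List.take_succ_cons, List.take_zero, pos_cons, pos_cons,
            pos_nil] at h3
          apply h3
          congr 1
          have : y + nb s + pos (l.take j) = y + nb s + 0 := by rw [h, add_zero]
          exact (add_left_cancel this).symm
        · have := h1 (j + 1) (by omega) (by simpa using hj2)
          rwa [List.take_succ_cons, pos_cons, ← add_assoc] at this
      · intro i j hi hij hj h
        have h3 := h2 (i + 1) (j + 1) (by omega) (by omega) (by simpa using hj)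
        rw [List.take_succ_cons, List.take_succ_cons, pos_cons, pos_cons, h] at h3
        exact h3 rfl

/-- self-avoiding lists of steps -/
def SA (l : List (St d)) : Prop :=
  ∀ i j, i < j → j ≤ l.length → pos (l.take i) ≠ pos (l.take j)

theorem SA_iff (l : List (St d)) : SA l ↔ Av {0} 0 l := by
  rw [Av_iff]
  constructor
  · intro h
    refine ⟨fun j hj1 hj2 => ?_, fun i j _ hij hj => h i j hij hj⟩
    rw [Finset.mem_singleton, zero_add]
    intro h1
    apply h 0 j (by omega) hj2
    rw [List.take_zero, pos_nil, h1]
  · rintro ⟨h1, h2⟩ i j hij hj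
    rcases Nat.eq_zero_or_pos i with hi | hi
    · subst hi
      have := h1 j (by omega) hj
      rw [Finset.mem_singleton, zero_add] at this
      rw [List.take_zero, pos_nil]
      exact fun h => this h.symm
    · exact h2 i j hi hij hj

open Classical in
/-- the self-avoiding walks -/
noncomputable def SAW (d n : ℕ) : Finset (List (St d)) := (LL d n).filter SA

theorem mem_SAW {n : ℕ} {l : List (St d)} : l ∈ SAW d n ↔ l.length = n ∧ SA l := by
  classical
  unfold SAW
  rw [Finset.mem_filter, mem_LL]

open Classical in
theorem c_eq_card (n : ℕ) (x : V d) : c n x = (((SAW d n).filter fun l => pos l = x).card : ℝ) := by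
  unfold c SAW
  rw [A_eq_card, Finset.filter_filter]
  congr 2
  apply Finset.filter_congr
  intro l _
  rw [SA_iff, zero_add]

theorem pos_mem_cube {n : ℕ} {l : List (St d)} (hl : l ∈ SAW d n) : pos l ∈ cube d n := by
  classical
  apply c_supp
  rw [c_eq_card]
  have : 0 < ((SAW d n).filter fun l' => pos l' = pos l).card :=
    Finset.card_pos.2 ⟨l, Finset.mem_filter.2 ⟨hl, rfl⟩⟩
  positivity

theorem sum_c (n : ℕ) (f : V d → ℝ) : ∑' x, f x * c n x = ∑ l ∈ SAW d n, f (pos l) := by
  classical
  rw [tsum_c, ← Finset.sum_fiberwise_of_maps_to (g := pos) (t := cube d n)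
    (fun l hl => pos_mem_cube hl)]
  refine Finset.sum_congr rfl fun x _ => ?_
  rw [c_eq_card, Finset.sum_congr rfl (g := fun _ => f x)
    (fun l hl => by rw [(Finset.mem_filter.1 hl).2]), Finset.sum_const, nsmul_eq_mul, mul_comm]

theorem Cn_eq_card (n : ℕ) : Cn d n = ((SAW d n).card : ℝ) := by
  have h := sum_c (d := d) n (fun _ => 1)
  simp only [one_mul, Finset.sum_const, nsmul_eq_mul, mul_one] at h
  exact h

theorem M2_eq_sum (n : ℕ) : M2 d n = ∑ l ∈ SAW d n, n2 (pos l) := sum_c n n2

/-! ## pieces of walks -/

theorem SA_left {l l' : List (St d)} (h : SA (l ++ l')) : SA l := by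
  intro i j hij hj
  have := h i j hij (by rw [List.length_append]; omega)
  rwa [List.take_append_of_le_length (by omega), List.take_append_of_le_length hj] at this

theorem pos_take_append (l l' : List (St d)) (j : ℕ) :
    pos ((l ++ l').take (l.length + j)) = pos l + pos (l'.take j) := by
  rw [List.take_length_add_append, pos_append]

theorem SA_right {l l' : List (St d)} (h : SA (l ++ l')) : SA l' := by
  intro i j hij hj h1
  apply h (l.length + i) (l.length + j) (by omega) (by rw [List.length_append]; omega)
  rw [pos_take_append, pos_take_append, h1]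

/-- pairs of walks with the same endpoint -/
noncomputable def PR (d i j : ℕ) : Finset (List (St d) × List (St d)) :=
  (SAW d i ×ˢ SAW d j).filter fun p => pos p.1 = pos p.2

theorem mem_PR {i j : ℕ} {p : List (St d) × List (St d)} : p ∈ PR d i j ↔
    p.1 ∈ SAW d i ∧ p.2 ∈ SAW d j ∧ pos p.1 = pos p.2 := by
  unfold PR
  rw [Finset.mem_filter, Finset.mem_product, and_assoc]

theorem card_PR (i j : ℕ) : ((PR d i j).card : ℝ) = ∑ l ∈ SAW d j, c i (pos l) := by
  classical
  have h1 : (PR d i j).card = ∑ l ∈ SAW d j, ((PR d i j).filter fun p => p.2 = l).card := by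
    apply Finset.card_eq_sum_card_fiberwise
    intro p hp
    exact (mem_PR.1 hp).2.1
  rw [h1, Nat.cast_sum]
  refine Finset.sum_congr rfl fun l hl => ?_
  rw [c_eq_card]
  congr 1
  apply Finset.card_bij (fun p _ => p.1)
  · intro p hp
    rw [Finset.mem_filter] at hp ⊢
    obtain ⟨hp, rfl⟩ := hp
    rw [mem_PR] at hp
    exact ⟨hp.1, hp.2.2⟩
  · rintro ⟨p, p'⟩ hp ⟨q, q'⟩ hq h
    rw [Finset.mem_filter] at hp hq
    simp only at h hp hq
    rw [h, hp.2, hq.2]
  · intro l' hl'
    rw [Finset.mem_filter] at hl'
    exact ⟨(l', l), Finset.mem_filter.2 ⟨mem_PR.2 ⟨hl'.1, hl, hl'.2⟩, rfl⟩, rfl⟩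

theorem card_PR_comm (i j : ℕ) : (PR d i j).card = (PR d j i).card := by
  apply Finset.card_bij (fun p _ => (p.2, p.1))
  · intro p hp
    rw [mem_PR] at hp ⊢
    exact ⟨hp.2.1, hp.1, hp.2.2.symm⟩
  · rintro ⟨p, p'⟩ hp ⟨q, q'⟩ hq h
    simp only [Prod.mk.injEq] at h ⊢
    exact ⟨h.2, h.1⟩
  · rintro ⟨p, p'⟩ hp
    rw [mem_PR] at hp
    exact ⟨(p', p), mem_PR.2 ⟨hp.2.1, hp.1, hp.2.2.symm⟩, rfl⟩

theorem card_PR_sq (m : ℕ) : ((PR d m m).card : ℝ) = ∑ x ∈ cube d m, c m x ^ 2 := by
  have h := sum_c (d := d) m (fun x => c m x)
  rw [card_PR, ← h, tsum_c]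
  exact Finset.sum_congr rfl fun x _ => by ring

end Pool.Agent.helper91.SW
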