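import Pool.Agent.helper91.SW.Renew
import Pool.Agent.helper90.FP.LRW
import Pool.Agent.helper90.FP.LInv

/-!
# Self-avoiding walks in high dimensions: the number of walks with a given endpoint, part 1
-/

set_option autoImplicit false

open Finset MeasureTheory
open Pool.Agent.helper55.FP hiding chi

namespace Pool.Agent.helper91.SW

variable {d : ℕ} {ε : ℝ}

/-! ### parity -/

theorem ct_c_shift (n : ℕ) (k : Fin d → ℝ) :
    ct (c n : V d → ℝ) (fun i => k i + Real.pi) = (-1) ^ n * ct (c n : V d → ℝ) k := by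
  unfold ct
  rw [← tsum_mul_left]
  refine tsum_congr fun x => ?_
  by_cases hx : c n x = 0
  · rw [hx]; ring
  · obtain ⟨m, hm⟩ := A_parity n {0} 0 x hx
    have h1 : dotk (fun i => k i + Real.pi) x = dotk k x + Real.pi * ((∑ i, x i : ℤ) : ℝ) := by
      unfold dotk
      push_cast
      rw [Finset.mul_sum, ← Finset.sum_add_distrib]
      exact Finset.sum_congr rfl fun i _ => by ring
    have h2 : ∑ i, x i = n + 2 * m := by simpa using hm
    rw [h1, h2]
    push_cast
    have h3 : dotk k x + Real.pi * ((n : ℝ) + 2 * m) =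
        (dotk k x + n * Real.pi) + m * (2 * Real.pi) := by ring
    rw [h3, Real.cos_add_int_mul_two_pi, Real.cos_add_nat_mul_pi]
    ring

theorem Dh_shift (k : Fin d → ℝ) : Dh (fun i => k i + Real.pi) = - Dh k := by
  unfold Dh
  simp only [Real.cos_add_pi, Finset.sum_neg_distrib]
  ring

theorem nrm_shift (N : ℕ) (k : Fin d → ℝ) :
    nrm N (aS (fun i => k i + Real.pi)) = nrm N (aS k) := by
  unfold nrm
  refine Finset.sum_congr rfl fun n _ => ?_
  simp only [aS, PowerSeries.coeff_mk]
  rw [ct_c_shift, mul_assoc, abs_mul, abs_pow]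
  simp

theorem Crit.coeff_le (h : Crit d ε) (hε : ε ≤ 1 / 2) (n : ℕ) (k : Fin d → ℝ) :
    |PowerSeries.coeff n (aS k)| ≤ 2 :=
  (abs_coeff_aS_le n k).trans (h.Cn_le hε n)

theorem Crit.nrm_le_two (h : Crit d ε) (hε : ε ≤ 1 / 2) (k : Fin d → ℝ) (N : ℕ) :
    nrm N (aS k) ≤ 2 * N := by
  unfold nrm
  refine (Finset.sum_le_sum fun n _ => h.coeff_le hε n k).trans ?_
  simp
  linarith

theorem Crit.renewal_abs (h : Crit d ε) (hε : ε ≤ 1 / 12) {k : Fin d → ℝ} (h1 : |Dh k| < 1)
    (N : ℕ) : nrm N (aS k) ≤ 4 * (1 - |Dh k|)⁻¹ := by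
  rcases le_total 0 (Dh k) with h0 | h0
  · rw [abs_of_nonneg h0] at h1 ⊢
    exact h.renewal hε h0 h1 N
  · rw [abs_of_nonpos h0] at h1 ⊢
    have h2 := h.renewal hε (k := fun i => k i + Real.pi) (by rw [Dh_shift]; linarith)
      (by rw [Dh_shift]; exact h1) N
    rwa [nrm_shift, Dh_shift] at h2

theorem Crit.nrm_bound (h : Crit d ε) (hε : ε ≤ 1 / 12) (k : Fin d → ℝ) (N : ℕ) :
    nrm N (aS k) ≤ 8 * N / (1 + N * (1 - |Dh k|)) := by
  have hD : |Dh k| ≤ 1 := abs_Dh_le_one k
  have hN : (0 : ℝ) ≤ N := Nat.cast_nonneg N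
  have hu : 0 ≤ 1 - |Dh k| := by linarith
  have hden : 0 < 1 + N * (1 - |Dh k|) := by positivity
  rw [le_div_iff₀ hden]
  have h2 := h.nrm_le_two (by linarith) k N
  rcases le_total (N * (1 - |Dh k|)) 1 with h3 | h3
  · have h4 : nrm N (aS k) * (1 + N * (1 - |Dh k|)) ≤ 2 * N * 2 :=
      mul_le_mul h2 (by linarith) hden.le (by positivity)
    linarith
  · have h1 : |Dh k| < 1 := by
      by_contra hcon
      have : 1 - |Dh k| = 0 := by linarith
      rw [this, mul_zero] at h3
      linarith
    have h4 := h.renewal_abs hε h1 N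
    have hpos : 0 < 1 - |Dh k| := by linarith
    have h5 : nrm N (aS k) * (1 + N * (1 - |Dh k|)) ≤
        4 * (1 - |Dh k|)⁻¹ * (2 * (N * (1 - |Dh k|))) :=
      mul_le_mul h4 (by linarith) hden.le (by positivity)
    refine h5.trans (le_of_eq ?_)
    field_simp
    ring

/-! ### the product estimate -/

theorem nrm_cont (N : ℕ) : Continuous fun k : Fin d → ℝ => nrm N (aS k) := by
  unfold nrm
  refine continuous_finsetSum _ fun n _ => ?_
  simp only [aS, PowerSeries.coeff_mk]
  exact ((ct_continuous (c_summable n)).mul continuous_const).abs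

theorem Crit.int_pow (h : Crit d ε) (hε : ε ≤ 1 / 2) {g : V d → ℝ} (hg : Summable g) (N r : ℕ) :
    Integrable (fun k => |ct g k| * nrm N (aS k) ^ r) (muT d) := by
  refine Integrable.of_bound (C := (∑' x, |g x|) * (2 * N) ^ r) ?_
    (Filter.Eventually.of_forall fun k => ?_)
  · exact (((ct_continuous hg).abs).mul ((nrm_cont N).pow r)).aestronglyMeasurable
  · have h1 := abs_ct_le hg k
    have h2 := nrm_nonneg N (aS k)
    have h3 := h.nrm_le_two hε k N
    rw [Real.norm_eq_abs, abs_mul, abs_abs, abs_of_nonneg (pow_nonneg h2 r)]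
    exact mul_le_mul h1 (pow_le_pow_left₀ h2 h3 r) (pow_nonneg h2 r)
      (tsum_nonneg fun _ => abs_nonneg _)

theorem Crit.prod_claim (h : Crit d ε) (hε : ε ≤ 1 / 2) (q : ℕ) : ∀ (r : ℕ) (g : V d → ℝ),
    Summable g → (∀ x, g (-x) = g x) → (∀ x, 0 ≤ g x) → ∀ n, r * q ≤ n → ∀ x,
      ((q : ℝ) + 1) ^ r * (zc d ^ n * conv g (c n) x) ≤
        2 * ∫ k, |ct g k| * nrm (q + 1) (aS k) ^ r ∂muT d := by
  intro r
  induction r with
  | zero =>
    intro g hg hge hg0 n _ x
    have hz := zc_pos d
    have h1 := abs_le_int_ct (conv_summable hg (c_summable n))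
      (conv_even hge (c_even n)) x
    have h2 : conv g (c n) x ≤ ∫ k, |ct (conv g (c n)) k| ∂muT d := (le_abs_self _).trans h1
    rw [pow_zero, one_mul]
    refine (mul_le_mul_of_nonneg_left h2 (pow_nonneg hz.le n)).trans ?_
    rw [← integral_const_mul, ← integral_const_mul]
    refine integral_mono ((ct_integrable (conv_summable hg (c_summable n))).abs.const_mul _)
      ((h.int_pow hε hg (q + 1) 0).const_mul _) fun k => ?_
    simp only [pow_zero, mul_one]
    rw [ct_conv hg (c_summable n) (c_even n), abs_mul]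
    have h3 := h.coeff_le hε n k
    simp only [aS, PowerSeries.coeff_mk, abs_mul, abs_pow, abs_of_pos hz] at h3
    have h4 := mul_le_mul_of_nonneg_left h3 (abs_nonneg (ct g k))
    linarith
  | succ r ih =>
    intro g hg hge hg0 n hn x
    have hz := zc_pos d
    have hterm : ∀ j ∈ range (q + 1), ((q : ℝ) + 1) ^ r * (zc d ^ n * conv g (c n) x) ≤
        2 * ∫ k, |ct g k| * nrm (q + 1) (aS k) ^ r * |PowerSeries.coeff j (aS k)| ∂muT d := by
      intro j hj
      have hjq : j ≤ q := Nat.lt_succ_iff.1 (mem_range.1 hj)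
      have hrq : r * q + q ≤ n := by rw [← Nat.succ_mul]; exact hn
      have hjn : j ≤ n := by omega
      set g' : V d → ℝ := fun x => zc d ^ j * conv g (c j) x with hg'
      have hs' : Summable g' := (conv_summable hg (c_summable j)).mul_left _
      have h1 : zc d ^ n * conv g (c n) x ≤ zc d ^ (n - j) * conv g' (c (n - j)) x := by
        have e1 : conv g' (c (n - j)) x = zc d ^ j * conv g (conv (c j) (c (n - j))) x := by
          rw [hg', conv_smul_left, conv_assoc hg (c_summable j) (c_summable (n - j))]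
        have e2 : conv g (c n) x ≤ conv g (conv (c j) (c (n - j))) x := by
          refine conv_mono hg (conv_summable (c_summable j) (c_summable (n - j))) hg0
            (c_nonneg n) (fun y => le_rfl) (fun y => ?_) x
          have := c_submul j (n - j) y
          rwa [Nat.add_sub_cancel' hjn] at this
        rw [e1, ← mul_assoc, ← pow_add, Nat.sub_add_cancel hjn]
        exact mul_le_mul_of_nonneg_left e2 (pow_nonneg hz.le n)
      have h2 := ih g' hs' (fun x => by simp only [hg']; rw [conv_even hge (c_even j)])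
        (fun x => mul_nonneg (pow_nonneg hz.le j) (conv_nonneg hg0 (c_nonneg j) x)) (n - j)
        (by omega) x
      refine (mul_le_mul_of_nonneg_left h1 (by positivity)).trans (h2.trans ?_)
      refine le_of_eq ?_
      congr 1
      refine integral_congr_ae (Filter.Eventually.of_forall fun k => ?_)
      simp only
      have e3 : ct g' k = zc d ^ j * (ct g k * ct (c j) k) := by
        rw [hg', ct_smul, ct_conv hg (c_summable j) (c_even j)]
      rw [e3]
      simp only [aS, PowerSeries.coeff_mk, abs_mul, abs_pow, abs_of_pos hz]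
      ring
    have hsum := Finset.sum_le_sum hterm
    rw [Finset.sum_const, card_range, nsmul_eq_mul] at hsum
    have e4 : ∑ j ∈ range (q + 1), 2 * ∫ k, |ct g k| * nrm (q + 1) (aS k) ^ r *
        |PowerSeries.coeff j (aS k)| ∂muT d =
        2 * ∫ k, |ct g k| * nrm (q + 1) (aS k) ^ (r + 1) ∂muT d := by
      rw [← Finset.mul_sum, ← integral_finsetSum]
      · congr 1
        refine integral_congr_ae (Filter.Eventually.of_forall fun k => ?_)
        simp only
        rw [← Finset.mul_sum, pow_succ, ← mul_assoc]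
        rfl
      · intro j _
        refine Integrable.of_bound (C := (∑' x, |g x|) * (2 * (q + 1 : ℕ)) ^ r * 2) ?_
          (Filter.Eventually.of_forall fun k => ?_)
        · refine Continuous.aestronglyMeasurable ?_
          refine (((ct_continuous hg).abs).mul ((nrm_cont (q + 1)).pow r)).mul ?_
          simp only [aS, PowerSeries.coeff_mk]
          exact ((ct_continuous (c_summable j)).mul continuous_const).abs
        · have h1 := abs_ct_le hg k
          have h2 := nrm_nonneg (q + 1) (aS k)
          have h3 := h.nrm_le_two hε k (q + 1)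
          have h4 := h.coeff_le hε j k
          rw [Real.norm_eq_abs, abs_mul, abs_mul, abs_abs, abs_abs,
            abs_of_nonneg (pow_nonneg h2 r)]
          refine mul_le_mul (mul_le_mul h1 (pow_le_pow_left₀ h2 h3 r) (pow_nonneg h2 r)
            (tsum_nonneg fun _ => abs_nonneg _)) h4 (abs_nonneg _) ?_
          exact mul_nonneg (tsum_nonneg fun _ => abs_nonneg _) (by positivity)
    rw [e4] at hsum
    refine le_trans (le_of_eq ?_) hsum
    push_cast
    ring

theorem Crit.sup_int (h : Crit d ε) (hε : ε ≤ 1 / 2) (n q : ℕ) (hq : d * q ≤ n) (x : V d) :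
    ((q : ℝ) + 1) ^ d * (zc d ^ n * c n x) ≤
      2 * ∫ k, nrm (q + 1) (aS k) ^ d ∂muT d := by
  have h1 := h.prod_claim hε q d (dirac0 : V d → ℝ) dirac0_summable (fun x => by
    unfold dirac0
    simp) (fun x => by unfold dirac0; split_ifs <;> norm_num) n hq x
  rw [conv_comm, conv_dirac0] at h1
  simp only [ct_dirac0, abs_one, one_mul] at h1
  exact h1

end Pool.Agent.helper91.SW
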