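import Pool.Agent.helper91.SW.Sup1
import Mathlib.Analysis.SpecialFunctions.ImproperIntegrals

/-!
# Self-avoiding walks in high dimensions: the number of walks with a given endpoint, part 2
-/

set_option autoImplicit false

open Finset MeasureTheory
open Pool.Agent.helper55.FP hiding chi

namespace Pool.Agent.helper91.SW

variable {d : ℕ} {ε : ℝ}

/-! ### one-dimensional integrals -/

/-- comparison function -/
noncomputable def hh (N : ℕ) (t : ℝ) : ℝ := (1 + (Real.sqrt (2 * N) / Real.pi * t) ^ 2)⁻¹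

theorem hh_pos (N : ℕ) (t : ℝ) : 0 < hh N t := by
  unfold hh
  positivity

theorem hh_integral {N : ℕ} (hN : 1 ≤ N) : ∫ t, hh N t = Real.pi * (Real.pi / Real.sqrt (2 * N)) := by
  have hpi := Real.pi_pos
  have hN' : (0 : ℝ) < N := by exact_mod_cast hN
  have ha : 0 < Real.sqrt (2 * N) / Real.pi := by positivity
  unfold hh
  have h1 := Measure.integral_comp_mul_left (fun x : ℝ => (1 + x ^ 2)⁻¹) (Real.sqrt (2 * N) / Real.pi)
  rw [h1, integral_univ_inv_one_add_sq, abs_of_pos (inv_pos.2 ha), smul_eq_mul, inv_div, mul_comm]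

theorem hh_integrable {N : ℕ} (hN : 1 ≤ N) : Integrable (hh N) := by
  have hpi := Real.pi_pos
  have hN' : (0 : ℝ) < N := by exact_mod_cast hN
  have ha : Real.sqrt (2 * N) / Real.pi ≠ 0 := by positivity
  unfold hh
  exact integrable_inv_one_add_sq.comp_mul_left' ha

/-- the sum of three translates -/
noncomputable def h3 (N : ℕ) (t : ℝ) : ℝ := hh N t + (hh N (t - Real.pi) + hh N (t + Real.pi))

theorem h3_integral {N : ℕ} (hN : 1 ≤ N) :
    ∫ t, h3 N t = 3 * (Real.pi * (Real.pi / Real.sqrt (2 * N))) := by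
  have h1 := hh_integrable hN
  have h2 : Integrable (fun t => hh N (t - Real.pi)) := h1.comp_sub_right _
  have h4 : Integrable (fun t => hh N (t + Real.pi)) := h1.comp_add_right _
  have e1 : ∫ t, h3 N t = ∫ t, hh N t + ((fun t => hh N (t - Real.pi)) + fun t =>
      hh N (t + Real.pi)) t := rfl
  have e2 : ∫ t, ((fun t => hh N (t - Real.pi)) + fun t => hh N (t + Real.pi)) t =
      ∫ t, hh N (t - Real.pi) + hh N (t + Real.pi) := rfl
  rw [e1, integral_add h1 (h2.add h4), e2, integral_add h2 h4, integral_sub_right_eq_self (hh N),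
    integral_add_right_eq_self (hh N), hh_integral hN]
  ring

theorem h3_integrable {N : ℕ} (hN : 1 ≤ N) : Integrable (h3 N) := by
  have h1 := hh_integrable hN
  have h2 : Integrable (fun t => hh N (t - Real.pi)) := h1.comp_sub_right _
  have h4 : Integrable (fun t => hh N (t + Real.pi)) := h1.comp_add_right _
  exact h1.add (h2.add h4)

theorem cos_le' {t : ℝ} (ht : |t| ≤ Real.pi) : 2 / Real.pi ^ 2 * t ^ 2 ≤ 1 - Real.cos t := by
  have := Real.cos_le_one_sub_mul_cos_sq ht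
  linarith

theorem inv_le_hh {N : ℕ} {u t : ℝ} (h : 2 / Real.pi ^ 2 * t ^ 2 ≤ u) :
    (1 + N * u)⁻¹ ≤ hh N t := by
  have hpi := Real.pi_pos
  have hN : (0 : ℝ) ≤ N := Nat.cast_nonneg N
  unfold hh
  have h1 : (Real.sqrt (2 * N) / Real.pi * t) ^ 2 = N * (2 / Real.pi ^ 2 * t ^ 2) := by
    rw [mul_pow, div_pow, Real.sq_sqrt (by positivity)]
    ring
  rw [h1]
  have h2 := mul_le_mul_of_nonneg_left h hN
  refine inv_anti₀ (by positivity) (by linarith)

theorem f_minus_le (N : ℕ) {t : ℝ} (ht : t ∈ Set.Ioc (-Real.pi) Real.pi) :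
    (1 + N * (1 - Real.cos t))⁻¹ ≤ h3 N t := by
  have h1 : |t| ≤ Real.pi := abs_le.2 ⟨ht.1.le, ht.2⟩
  have h2 := inv_le_hh (N := N) (cos_le' h1)
  have h4 := (hh_pos N (t - Real.pi)).le
  have h5 := (hh_pos N (t + Real.pi)).le
  unfold h3
  linarith

theorem f_plus_le (N : ℕ) {t : ℝ} (ht : t ∈ Set.Ioc (-Real.pi) Real.pi) :
    (1 + N * (1 + Real.cos t))⁻¹ ≤ h3 N t := by
  have hpi := Real.pi_pos
  have h0 := (hh_pos N t).le
  have h4 := (hh_pos N (t - Real.pi)).le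
  have h5 := (hh_pos N (t + Real.pi)).le
  unfold h3
  rcases le_total 0 t with h | h
  · have h1 : |t - Real.pi| ≤ Real.pi := abs_le.2 ⟨by linarith, by linarith [ht.2]⟩
    have h2 := cos_le' h1
    rw [Real.cos_sub_pi] at h2
    have h3 := inv_le_hh (N := N) (u := 1 + Real.cos t) (t := t - Real.pi) (by linarith)
    linarith
  · have h1 : |t + Real.pi| ≤ Real.pi := abs_le.2 ⟨by linarith [ht.1], by linarith⟩
    have h2 := cos_le' h1
    rw [Real.cos_add_pi] at h2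
    have h3 := inv_le_hh (N := N) (u := 1 + Real.cos t) (t := t + Real.pi) (by linarith)
    linarith

theorem circ_le {N : ℕ} (hN : 1 ≤ N) {f : ℝ → ℝ}
    (hf : ∀ t ∈ Set.Ioc (-Real.pi) Real.pi, f t ≤ h3 N t) (hfm : Continuous f) :
    ∫ t, f t ∂circ ≤ 4 / Real.sqrt N := by
  have hpi := Real.pi_pos
  have hN' : (0 : ℝ) < N := by exact_mod_cast hN
  have h3i := h3_integrable hN
  have h3n : ∀ t, 0 ≤ h3 N t := fun t => by
    unfold h3
    have := hh_pos N t
    have := hh_pos N (t - Real.pi)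
    have := hh_pos N (t + Real.pi)
    linarith
  unfold circ
  rw [integral_smul_measure, ENNReal.toReal_ofReal (by positivity), smul_eq_mul]
  have h1 : ∫ t in Set.Ioc (-Real.pi) Real.pi, f t ≤ ∫ t in Set.Ioc (-Real.pi) Real.pi, h3 N t := by
    refine setIntegral_mono_on ?_ h3i.integrableOn measurableSet_Ioc hf
    exact (hfm.integrableOn_Icc (a := -Real.pi) (b := Real.pi)).mono_set Set.Ioc_subset_Icc_self
  have h2 : ∫ t in Set.Ioc (-Real.pi) Real.pi, h3 N t ≤ ∫ t, h3 N t :=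
    setIntegral_le_integral h3i (Filter.Eventually.of_forall h3n)
  rw [h3_integral hN] at h2
  have h4 : 1 / (2 * Real.pi) * (∫ t in Set.Ioc (-Real.pi) Real.pi, f t) ≤
      1 / (2 * Real.pi) * (3 * (Real.pi * (Real.pi / Real.sqrt (2 * N)))) :=
    mul_le_mul_of_nonneg_left (h1.trans h2) (by positivity)
  refine h4.trans ?_
  have h5 : Real.sqrt (2 * N) = Real.sqrt 2 * Real.sqrt N := Real.sqrt_mul (by norm_num) _
  have hs2 : (1.4 : ℝ) ≤ Real.sqrt 2 := by
    rw [show (1.4 : ℝ) = Real.sqrt (1.4 ^ 2) by rw [Real.sqrt_sq (by norm_num)]]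
    exact Real.sqrt_le_sqrt (by norm_num)
  have hsN : 0 < Real.sqrt N := Real.sqrt_pos.2 hN'
  rw [h5]
  rw [show 1 / (2 * Real.pi) * (3 * (Real.pi * (Real.pi / (Real.sqrt 2 * Real.sqrt N)))) =
    (3 * Real.pi / (2 * Real.sqrt 2)) / Real.sqrt N by field_simp]
  refine div_le_div_of_nonneg_right ?_ hsN.le
  rw [div_le_iff₀ (by positivity)]
  have := Real.pi_lt_d2
  nlinarith

/-! ### AM-GM -/

theorem amgm (hd : 1 ≤ d) (z : Fin d → ℝ) (hz : ∀ i, 0 ≤ z i) :
    ∏ i, z i ≤ ((∑ i, z i) / d) ^ d := by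
  have hd0 : (0 : ℝ) < d := by positivity
  have h := Real.geom_mean_le_arith_mean_weighted Finset.univ (fun _ : Fin d => 1 / (d : ℝ)) z
    (fun _ _ => by positivity) (by simp; field_simp) (fun i _ => hz i)
  have h1 : ∏ i, z i = (∏ i, z i ^ (1 / (d : ℝ))) ^ d := by
    rw [← Finset.prod_pow]
    refine Finset.prod_congr rfl fun i _ => ?_
    rw [← Real.rpow_natCast, ← Real.rpow_mul (hz i)]
    rw [one_div, inv_mul_cancel₀ hd0.ne', Real.rpow_one]
  have h2 : ∑ i, 1 / (d : ℝ) * z i = (∑ i, z i) / d := by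
    rw [← Finset.mul_sum]; ring
  rw [h2] at h
  rw [h1]
  exact pow_le_pow_left₀ (Finset.prod_nonneg fun i _ => Real.rpow_nonneg (hz i) _) h d

theorem prod_minus (hd : 1 ≤ d) (N : ℕ) (k : Fin d → ℝ) :
    ∏ i, (1 + N * (1 - Real.cos (k i))) ≤ (1 + N * (1 - Dh k)) ^ d := by
  have hd0 : (d : ℝ) ≠ 0 := by positivity
  have hN : (0 : ℝ) ≤ N := Nat.cast_nonneg N
  have h := amgm hd (fun i => 1 + N * (1 - Real.cos (k i))) (fun i => by
    have := Real.cos_le_one (k i)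
    have := mul_nonneg hN (sub_nonneg.2 this)
    linarith)
  refine h.trans (le_of_eq ?_)
  congr 1
  rw [Finset.sum_add_distrib, ← Finset.mul_sum, Finset.sum_sub_distrib]
  simp only [Finset.sum_const, Finset.card_univ, Fintype.card_fin, nsmul_eq_mul, mul_one, Dh]
  field_simp

theorem prod_plus (hd : 1 ≤ d) (N : ℕ) (k : Fin d → ℝ) :
    ∏ i, (1 + N * (1 + Real.cos (k i))) ≤ (1 + N * (1 + Dh k)) ^ d := by
  have hd0 : (d : ℝ) ≠ 0 := by positivity
  have hN : (0 : ℝ) ≤ N := Nat.cast_nonneg N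
  have h := amgm hd (fun i => 1 + N * (1 + Real.cos (k i))) (fun i => by
    have := Real.neg_one_le_cos (k i)
    have := mul_nonneg hN (by linarith : 0 ≤ 1 + Real.cos (k i))
    linarith)
  refine h.trans (le_of_eq ?_)
  congr 1
  rw [Finset.sum_add_distrib, ← Finset.mul_sum, Finset.sum_add_distrib]
  simp only [Finset.sum_const, Finset.card_univ, Fintype.card_fin, nsmul_eq_mul, mul_one, Dh]
  field_simp

/-- pointwise bound of the `d`-th power -/
theorem Crit.pow_bound (h : Crit d ε) (hε : ε ≤ 1 / 12) (k : Fin d → ℝ) (N : ℕ) :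
    nrm N (aS k) ^ d ≤ (8 * N) ^ d * (∏ i, (1 + N * (1 - Real.cos (k i)))⁻¹ +
      ∏ i, (1 + N * (1 + Real.cos (k i)))⁻¹) := by
  have hN : (0 : ℝ) ≤ N := Nat.cast_nonneg N
  have hD := abs_Dh_le_one k
  have hn0 := nrm_nonneg N (aS k)
  have h1 := pow_le_pow_left₀ hn0 (h.nrm_bound hε k N) d
  refine h1.trans ?_
  rw [div_eq_mul_inv, mul_pow]
  refine mul_le_mul_of_nonneg_left ?_ (by positivity)
  have c1 : ∀ i, (0 : ℝ) < 1 + N * (1 - Real.cos (k i)) := fun i => by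
    have := mul_nonneg hN (sub_nonneg.2 (Real.cos_le_one (k i)))
    linarith
  have c2 : ∀ i, (0 : ℝ) < 1 + N * (1 + Real.cos (k i)) := fun i => by
    have := mul_nonneg hN (by linarith [Real.neg_one_le_cos (k i)] : 0 ≤ 1 + Real.cos (k i))
    linarith
  have p1 : (0 : ℝ) < ∏ i, (1 + N * (1 - Real.cos (k i))) := Finset.prod_pos fun i _ => c1 i
  have p2 : (0 : ℝ) < ∏ i, (1 + N * (1 + Real.cos (k i))) := Finset.prod_pos fun i _ => c2 i
  rw [Finset.prod_inv_distrib, Finset.prod_inv_distrib]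
  rcases le_total 0 (Dh k) with h0 | h0
  · rw [abs_of_nonneg h0]
    have h2 := inv_anti₀ p1 (prod_minus h.hd N k)
    rw [← inv_pow] at h2
    have := inv_pos.2 p2
    linarith
  · rw [abs_of_nonpos h0, sub_neg_eq_add]
    have h2 := inv_anti₀ p2 (prod_plus h.hd N k)
    rw [← inv_pow] at h2
    have := inv_pos.2 p1
    linarith

theorem prod_int (f : ℝ → ℝ) (hf : Continuous f) :
    Integrable (fun k : Fin d → ℝ => ∏ i, f (k i)) (muT d) ∧
      ∫ k, ∏ i, f (k i) ∂muT d = (∫ t, f t ∂circ) ^ d := by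
  have h1 : Integrable f circ := by
    rw [circ]
    refine Integrable.smul_measure ?_ ENNReal.ofReal_ne_top
    exact (hf.integrableOn_Icc (a := -Real.pi) (b := Real.pi)).mono_set Set.Ioc_subset_Icc_self
  refine ⟨Integrable.fintype_prod (f := fun _ t => f t) (fun _ => h1), ?_⟩
  rw [muT, integral_fintype_prod_eq_prod (f := fun _ t => f t), Finset.prod_const,
    Finset.card_univ, Fintype.card_fin]

theorem fm_cont (N : ℕ) : Continuous fun t : ℝ => (1 + N * (1 - Real.cos t))⁻¹ := by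
  refine Continuous.inv₀ (by fun_prop) fun t => ?_
  have := mul_nonneg (Nat.cast_nonneg (α := ℝ) N) (sub_nonneg.2 (Real.cos_le_one t))
  linarith

theorem fp_cont (N : ℕ) : Continuous fun t : ℝ => (1 + N * (1 + Real.cos t))⁻¹ := by
  refine Continuous.inv₀ (by fun_prop) fun t => ?_
  have := mul_nonneg (Nat.cast_nonneg (α := ℝ) N)
    (by linarith [Real.neg_one_le_cos t] : 0 ≤ 1 + Real.cos t)
  linarith

theorem Crit.int_bound (h : Crit d ε) (hε : ε ≤ 1 / 12) {N : ℕ} (hN : 1 ≤ N) :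
    ∫ k, nrm N (aS k) ^ d ∂muT d ≤ 2 * (8 * N * (4 / Real.sqrt N)) ^ d := by
  have hN0 : (0 : ℝ) ≤ N := Nat.cast_nonneg N
  obtain ⟨i1, e1⟩ := prod_int (d := d) _ (fm_cont N)
  obtain ⟨i2, e2⟩ := prod_int (d := d) _ (fp_cont N)
  have b1 : ∫ t, (1 + N * (1 - Real.cos t))⁻¹ ∂circ ≤ 4 / Real.sqrt N :=
    circ_le hN (fun t ht => f_minus_le N ht) (fm_cont N)
  have b2 : ∫ t, (1 + N * (1 + Real.cos t))⁻¹ ∂circ ≤ 4 / Real.sqrt N :=
    circ_le hN (fun t ht => f_plus_le N ht) (fp_cont N)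
  have n1 : 0 ≤ ∫ t, (1 + N * (1 - Real.cos t))⁻¹ ∂circ :=
    integral_nonneg fun t => inv_nonneg.2 (by
      have := mul_nonneg hN0 (sub_nonneg.2 (Real.cos_le_one t))
      linarith)
  have n2 : 0 ≤ ∫ t, (1 + N * (1 + Real.cos t))⁻¹ ∂circ :=
    integral_nonneg fun t => inv_nonneg.2 (by
      have := mul_nonneg hN0 (by linarith [Real.neg_one_le_cos t] : 0 ≤ 1 + Real.cos t)
      linarith)
  have hint : Integrable (fun k : Fin d → ℝ => nrm N (aS k) ^ d) (muT d) := by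
    have := h.int_pow (by linarith) (dirac0_summable (d := d)) N d
    simpa only [ct_dirac0, abs_one, one_mul] using this
  have h1 : ∫ k, nrm N (aS k) ^ d ∂muT d ≤ ∫ k, (8 * N) ^ d *
      (∏ i, (1 + N * (1 - Real.cos (k i)))⁻¹ + ∏ i, (1 + N * (1 + Real.cos (k i)))⁻¹) ∂muT d :=
    integral_mono hint ((i1.add i2).const_mul _) fun k => h.pow_bound hε k N
  rw [integral_const_mul, integral_add i1 i2, e1, e2] at h1
  have h2 := pow_le_pow_left₀ n1 b1 d
  have h3 := pow_le_pow_left₀ n2 b2 d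
  calc _ ≤ _ := h1
    _ ≤ (8 * N) ^ d * ((4 / Real.sqrt N) ^ d + (4 / Real.sqrt N) ^ d) :=
        mul_le_mul_of_nonneg_left (add_le_add h2 h3) (by positivity)
    _ = 2 * (8 * N * (4 / Real.sqrt N)) ^ d := by rw [mul_pow (8 * (N : ℝ))]; ring

/-- the sup bound -/
theorem Crit.sup_aux (h : Crit d ε) (hε : ε ≤ 1 / 12) (n : ℕ) (x : V d) :
    zc d ^ n * c n x ≤ 4 * (32 / Real.sqrt ((n / d + 1 : ℕ) : ℝ)) ^ d := by
  set q := n / d with hq
  have hdq : d * q ≤ n := Nat.mul_div_le n d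
  have h1 := h.sup_int (by linarith) n q hdq x
  have h2 := h.int_bound hε (N := q + 1) (Nat.le_add_left 1 q)
  set N : ℝ := ((q + 1 : ℕ) : ℝ) with hN
  have hNpos : 0 < N := by rw [hN]; positivity
  have hsN : 0 < Real.sqrt N := Real.sqrt_pos.2 hNpos
  have hN' : (q : ℝ) + 1 = N := by rw [hN]; push_cast; ring
  rw [hN'] at h1
  have h3 : N ^ d * (zc d ^ n * c n x) ≤ N ^ d * (4 * (32 / Real.sqrt N) ^ d) := by
    refine h1.trans ?_
    have h4 : (8 * N * (4 / Real.sqrt N)) ^ d = N ^ d * (32 / Real.sqrt N) ^ d := by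
      rw [← mul_pow]
      congr 1
      ring
    rw [h4] at h2
    linarith
  exact le_of_mul_le_mul_left h3 (pow_pos hNpos d)

theorem Crit.sup_bound (h : Crit d ε) (hε : ε ≤ 1 / 12) : ∃ B : ℝ, 0 < B ∧ ∀ n : ℕ, 1 ≤ n →
    ∀ x : V d, c n x * zc d ^ n ≤ B * (n : ℝ) ^ (-(d : ℝ) / 2) := by
  have hd := h.hd
  have hd0 : (0 : ℝ) < d := by positivity
  refine ⟨4 * (32 * Real.sqrt d) ^ d, by positivity, fun n hn x => ?_⟩
  have hn0 : (0 : ℝ) < n := by exact_mod_cast hn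
  rw [mul_comm]
  refine (h.sup_aux hε n x).trans ?_
  have h1 : (n : ℝ) / d ≤ ((n / d + 1 : ℕ) : ℝ) := by
    rw [div_le_iff₀ hd0]
    have : n < (n / d + 1) * d := by
      have h2 := Nat.div_add_mod n d
      have h3 := Nat.mod_lt n (show 0 < d by omega)
      nlinarith
    exact_mod_cast this.le
  have h2 : Real.sqrt ((n : ℝ) / d) ≤ Real.sqrt ((n / d + 1 : ℕ) : ℝ) := Real.sqrt_le_sqrt h1
  have h3 : 0 < Real.sqrt ((n : ℝ) / d) := Real.sqrt_pos.2 (by positivity)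
  have h4 : 32 / Real.sqrt ((n / d + 1 : ℕ) : ℝ) ≤ 32 * Real.sqrt d / Real.sqrt n := by
    have h5 : 32 / Real.sqrt ((n / d + 1 : ℕ) : ℝ) ≤ 32 / Real.sqrt ((n : ℝ) / d) :=
      div_le_div_of_nonneg_left (by norm_num) h3 h2
    refine h5.trans (le_of_eq ?_)
    rw [Real.sqrt_div hn0.le]
    field_simp
  have h5 : (32 * Real.sqrt d / Real.sqrt n) ^ d =
      (32 * Real.sqrt d) ^ d * (n : ℝ) ^ (-(d : ℝ) / 2) := by
    rw [div_pow, div_eq_mul_inv]
    congr 1
    rw [Real.sqrt_eq_rpow, ← Real.rpow_natCast, ← Real.rpow_mul hn0.le, ← Real.rpow_neg hn0.le]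
    congr 1
    ring
  calc 4 * (32 / Real.sqrt ((n / d + 1 : ℕ) : ℝ)) ^ d
      ≤ 4 * (32 * Real.sqrt d / Real.sqrt n) ^ d :=
        mul_le_mul_of_nonneg_left (pow_le_pow_left₀ (by positivity) h4 d) (by norm_num)
    _ = 4 * (32 * Real.sqrt d) ^ d * (n : ℝ) ^ (-(d : ℝ) / 2) := by rw [h5]; ring

end Pool.Agent.helper91.SW
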