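import Pool.Agent.helper91.SW.Mono

/-!
# Self-avoiding walks in high dimensions: polygons from pairs of walks
-/

set_option autoImplicit false

open Finset
open Pool.Agent.helper55.FP hiding chi

namespace Pool.Agent.helper91.SW

variable {d : ℕ}

/-- the number of polygons is bounded by the number of walks ending next to the origin -/
theorem card_PG_le (n : ℕ) : ((PG d (n + 1)).card : ℝ) ≤ ∑ s : St d, c n (-nb s) := by
  classical
  have h0 : (PG d (n + 1)).card = ∑ s : St d, ((LL d n).filter fun l => CL (s :: l)).card := by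
    unfold PG
    rw [card_filter_succ]
  rw [h0, Nat.cast_sum]
  refine Finset.sum_le_sum fun s _ => ?_
  rw [c_eq_card]
  have hsub : ((LL d n).filter fun l => CL (s :: l)) ⊆
      ((SAW d n).filter fun l => pos l = -nb s) := by
    intro l hl
    rw [Finset.mem_filter, mem_LL] at hl
    obtain ⟨hl, h1, h2⟩ := hl
    rw [pos_cons] at h1
    have hp : pos l = -nb s := (neg_eq_of_add_eq_zero_right h1).symm
    rw [Finset.mem_filter, mem_SAW]
    refine ⟨⟨hl, ?_⟩, hp⟩
    intro i j hij hj h3
    rcases Nat.lt_or_ge j l.length with hj' | hj'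
    · have := h2 (i + 1) (j + 1) (by omega) (by simpa using hj')
      rw [List.take_succ_cons, List.take_succ_cons, pos_cons, pos_cons, h3] at this
      exact this rfl
    · have h4 : j = l.length := le_antisymm hj hj'
      rw [h4, List.take_length, hp] at h3
      have := h2 0 (i + 1) (by omega) (by simpa using (by omega : i < l.length))
      rw [List.take_zero, List.take_succ_cons, pos_nil, pos_cons, h3, add_neg_cancel] at this
      exact this rfl
  exact_mod_cast Finset.card_le_card hsub

/-- parity -/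
theorem pos_parity : ∀ l : List (St d), ∃ k : ℤ, ∑ i, (pos l) i = l.length + 2 * k := by
  intro l
  induction l with
  | nil => exact ⟨0, by rw [pos_nil]; simp⟩
  | cons s l ih =>
    obtain ⟨k, hk⟩ := ih
    have h5 : ∑ i, (nb s + pos l) i = ∑ i, (nb s : V d) i + ∑ i, (pos l) i := by
      rw [← Finset.sum_add_distrib]
      rfl
    rw [pos_cons, h5, hk]
    rcases nb_sum s with h6 | h6
    · refine ⟨k, ?_⟩
      rw [h6, List.length_cons]
      push_cast
      ring
    · refine ⟨k - 1, ?_⟩
      rw [h6, List.length_cons]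
      push_cast
      ring

theorem PG_even {n : ℕ} (h : (PG d n).Nonempty) : Even n := by
  obtain ⟨l, hl⟩ := h
  rw [mem_PG] at hl
  obtain ⟨k, hk⟩ := pos_parity l
  rw [hl.2.1, hl.1] at hk
  have h0 : ∑ i, (0 : V d) i = 0 := by simp
  rw [h0] at hk
  have : (n : ℤ) = 2 * (-k) := by linarith
  have h2 : Even (n : ℤ) := ⟨-k, by linarith⟩
  exact_mod_cast h2

theorem card_PG_mono' (hd : 1 ≤ d) {n : ℕ} (hn : 3 ≤ n) (t : ℕ) :
    (PG d n).card ≤ (PG d (n + 2 * t)).card := by
  induction t with
  | zero => exact le_rfl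
  | succ t ih =>
    refine ih.trans ?_
    have := card_PG_mono hd (n := n + 2 * t) (by omega)
    rwa [show n + 2 * t + 2 = n + 2 * (t + 1) by ring] at this

theorem card_PG_le_of_le (hd : 1 ≤ d) {n m : ℕ} (hn : 3 ≤ n) (hnm : n ≤ 2 * m) :
    (PG d n).card ≤ (PG d (2 * m)).card := by
  by_cases h : (PG d n).Nonempty
  · obtain ⟨k, hk⟩ := PG_even h
    have := card_PG_mono' hd hn (m - k)
    rwa [show n + 2 * (m - k) = 2 * m by omega] at this
  · rw [Finset.not_nonempty_iff_eq_empty] at h
    rw [h, Finset.card_empty]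
    exact Nat.zero_le _

/-- the reversed walk -/
def rev (l : List (St d)) : List (St d) := (l.map fun s => (s.1, !s.2)).reverse

theorem rev_length (l : List (St d)) : (rev l).length = l.length := by simp [rev]

theorem rev_append (l l' : List (St d)) : rev (l ++ l') = rev l' ++ rev l := by simp [rev]

theorem rev_rev (l : List (St d)) : rev (rev l) = l := by
  simp [rev, Function.comp_def]

theorem pos_rev (l : List (St d)) : pos (rev l) = -pos l := by
  induction l with
  | nil => simp [rev, pos_nil]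
  | cons s l ih =>
    have h1 : rev (s :: l) = rev l ++ [(s.1, !s.2)] := by simp [rev]
    rw [h1, pos_append, ih, pos_cons, pos_nil, pos_cons, ← nb_neg, neg_add]
    abel

theorem pos_take_rev (l : List (St d)) (k : ℕ) (hk : k ≤ l.length) :
    pos ((rev l).take k) = pos (l.take (l.length - k)) - pos l := by
  have h1 : rev l = rev (l.drop (l.length - k)) ++ rev (l.take (l.length - k)) := by
    rw [← rev_append, List.take_append_drop]
  have h2 : (rev (l.drop (l.length - k))).length = k := by
    rw [rev_length, List.length_drop]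
    omega
  have h3 : (rev l).take k = rev (l.drop (l.length - k)) := by
    conv_lhs => rw [h1]
    exact List.take_left' h2
  rw [h3, pos_rev]
  have h4 : pos l = pos (l.take (l.length - k)) + pos (l.drop (l.length - k)) := by
    rw [← pos_append, List.take_append_drop]
  rw [h4]
  abel

/-- two walks from the same point to the same point which do not meet in between -/
theorem CL_of (x y : List (St d)) (hx : SA x) (hy : SA y) (hxy : pos x = pos y)
    (h : ∀ i j, 0 < i → i < x.length → j ≤ y.length → pos (x.take i) ≠ pos (y.take j)) :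
    CL (x ++ rev y) := by
  constructor
  · rw [pos_append, pos_rev, hxy]
    abel
  · intro i j hij hj
    rw [List.length_append, rev_length] at hj
    have key : ∀ t, t ≤ y.length → pos ((x ++ rev y).take (x.length + t)) =
        pos (y.take (y.length - t)) := by
      intro t ht
      rw [pos_take_append, pos_take_rev _ _ ht, hxy]
      abel
    rcases Nat.lt_or_ge x.length j with hj1 | hj1
    · obtain ⟨t, rfl⟩ : ∃ t, j = x.length + t := ⟨j - x.length, by omega⟩
      rw [key t (by omega)]
      rcases Nat.lt_or_ge x.length i with hi1 | hi1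
      · obtain ⟨s, rfl⟩ : ∃ s, i = x.length + s := ⟨i - x.length, by omega⟩
        rw [key s (by omega)]
        exact (hy _ _ (by omega) (by omega)).symm
      · rw [List.take_append_of_le_length hi1]
        rcases Nat.eq_zero_or_pos i with hi0 | hi0
        · subst hi0
          rw [List.take_zero]
          have := hy 0 (y.length - t) (by omega) (by omega)
          rwa [List.take_zero] at this
        · rcases Nat.lt_or_ge i x.length with hi2 | hi2
          · exact h i _ hi0 hi2 (by omega)
          · have : i = x.length := le_antisymm hi1 hi2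
            rw [this, List.take_length, hxy]
            have h3 := hy (y.length - t) y.length (by omega) le_rfl
            rw [List.take_length] at h3
            exact h3.symm
    · rw [List.take_append_of_le_length hj1, List.take_append_of_le_length (by omega)]
      exact hx i j hij hj1

/-- the walks of a pair meet only near their ends -/
def Good (ℓ m : ℕ) (p : List (St d) × List (St d)) : Prop :=
  ∀ i j, i ≤ m → j ≤ m → pos (p.1.take i) = pos (p.2.take j) →
    (i < ℓ ∧ j < ℓ) ∨ (m < i + ℓ ∧ m < j + ℓ)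

/-- the middle piece of a walk -/
theorem mid_decomp (l : List (St d)) (i k : ℕ) (hik : i ≤ k) (hk : k ≤ l.length) :
    l = l.take i ++ ((l.drop i).take (k - i) ++ l.drop k) := by
  have h1 : (l.drop i).drop (k - i) = l.drop k := by
    rw [List.drop_drop]
    congr 1
    omega
  rw [← h1, List.take_append_drop, List.take_append_drop]

theorem pos_mid (l : List (St d)) (i k t : ℕ) (hik : i ≤ k) (hk : k ≤ l.length)
    (ht : t ≤ k - i) :
    pos (l.take i) + pos (((l.drop i).take (k - i)).take t) = pos (l.take (i + t)) := by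
  rw [List.take_take, min_eq_left ht, ← pos_append, ← List.take_add]

theorem good_decomp {ℓ m : ℕ} (hℓ : 1 ≤ ℓ) (hm : 2 * ℓ + 2 ≤ m)
    {p : List (St d) × List (St d)} (hp : p ∈ PR d m m) (hg : Good ℓ m p) :
    ∃ a < ℓ, ∃ b < ℓ, ∃ a' < ℓ, ∃ b' < ℓ, ∃ u ∈ LL d a, ∃ u' ∈ LL d b, ∃ v ∈ LL d a',
      ∃ v' ∈ LL d b', ∃ w ∈ PG d (2 * m - a - b - a' - b'),
      p = (u ++ (w.take (m - a - a') ++ v), u' ++ (rev (w.drop (m - a - a')) ++ v')) := by
  classical
  rw [mem_PR, mem_SAW, mem_SAW] at hp
  obtain ⟨⟨hl1, hs1⟩, ⟨hl2, hs2⟩, hpos⟩ := hp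
  -- the last early intersection
  obtain ⟨i1, hi1, hi1max⟩ := Finset.exists_max_image
    ((Finset.range ℓ).filter fun i => ∃ j < ℓ, pos (p.1.take i) = pos (p.2.take j)) id
    ⟨0, Finset.mem_filter.2 ⟨Finset.mem_range.2 hℓ, 0, hℓ, by simp⟩⟩
  rw [Finset.mem_filter, Finset.mem_range] at hi1
  obtain ⟨hi1ℓ, j1, hj1ℓ, h1⟩ := hi1
  -- the first late intersection
  obtain ⟨i2, hi2, hi2min⟩ := Finset.exists_min_image
    ((Finset.range (m + 1)).filter fun i => m < i + ℓ ∧ ∃ j, j ≤ m ∧ m < j + ℓ ∧
      pos (p.1.take i) = pos (p.2.take j)) id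
    ⟨m, Finset.mem_filter.2 ⟨Finset.mem_range.2 (by omega), by omega, m, le_rfl, by omega, by
      rw [← hl1, List.take_length, hl1, ← hl2, List.take_length, hpos]⟩⟩
  rw [Finset.mem_filter, Finset.mem_range] at hi2
  obtain ⟨hi2m, hi2ℓ, j2, hj2m, hj2ℓ, h2⟩ := hi2
  have hno : ∀ i j, i1 < i → i < i2 → j ≤ m → pos (p.1.take i) ≠ pos (p.2.take j) := by
    intro i j hi hi' hj h
    rcases hg i j (by omega) hj h with ⟨h3, h4⟩ | ⟨h3, h4⟩
    · have := hi1max i (Finset.mem_filter.2 ⟨Finset.mem_range.2 h3, j, h4, h⟩)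
      simp only [id] at this
      omega
    · have := hi2min i (Finset.mem_filter.2 ⟨Finset.mem_range.2 (by omega), h3, j, hj, h4, h⟩)
      simp only [id] at this
      omega
  set x := (p.1.drop i1).take (i2 - i1) with hx
  set y := (p.2.drop j1).take (j2 - j1) with hy
  have hxl : x.length = i2 - i1 := by
    rw [hx, List.length_take, List.length_drop]
    omega
  have hyl : y.length = j2 - j1 := by
    rw [hy, List.length_take, List.length_drop]
    omega
  have dec1 : p.1 = p.1.take i1 ++ (x ++ p.1.drop i2) :=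
    mid_decomp p.1 i1 i2 (by omega) (by omega)
  have dec2 : p.2 = p.2.take j1 ++ (y ++ p.2.drop j2) :=
    mid_decomp p.2 j1 j2 (by omega) (by omega)
  have hSx : SA x := by
    rw [dec1] at hs1
    exact SA_left (SA_right hs1)
  have hSy : SA y := by
    rw [dec2] at hs2
    exact SA_left (SA_right hs2)
  have hpx : ∀ t ≤ i2 - i1, pos (p.1.take i1) + pos (x.take t) = pos (p.1.take (i1 + t)) :=
    fun t ht => pos_mid p.1 i1 i2 t (by omega) (by omega) ht
  have hpy : ∀ t ≤ j2 - j1, pos (p.2.take j1) + pos (y.take t) = pos (p.2.take (j1 + t)) :=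
    fun t ht => pos_mid p.2 j1 j2 t (by omega) (by omega) ht
  have hxy : pos x = pos y := by
    have h3 := hpx (i2 - i1) le_rfl
    have h4 := hpy (j2 - j1) le_rfl
    rw [← hxl, List.take_length, hxl, show i1 + (i2 - i1) = i2 by omega, h2] at h3
    rw [← hyl, List.take_length, hyl, show j1 + (j2 - j1) = j2 by omega, ← h3, h1] at h4
    exact (add_left_cancel h4).symm
  have hCL : CL (x ++ rev y) := by
    apply CL_of x y hSx hSy hxy
    intro i j hi0 hi hj h
    rw [hxl] at hi
    rw [hyl] at hj
    apply hno (i1 + i) (j1 + j) (by omega) (by omega) (by omega)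
    rw [← hpx i (by omega), ← hpy j (by omega), h, h1]
  have hwl : (x ++ rev y).length = 2 * m - i1 - j1 - (m - i2) - (m - j2) := by
    rw [List.length_append, rev_length, hxl, hyl]
    omega
  have hxl' : x.length = m - i1 - (m - i2) := by
    rw [hxl]
    omega
  refine ⟨i1, hi1ℓ, j1, hj1ℓ, m - i2, by omega, m - j2, by omega, p.1.take i1,
    mem_LL.2 (by rw [List.length_take]; omega), p.2.take j1,
    mem_LL.2 (by rw [List.length_take]; omega), p.1.drop i2,
    mem_LL.2 (by rw [List.length_drop]; omega), p.2.drop j2,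
    mem_LL.2 (by rw [List.length_drop]; omega), x ++ rev y, mem_PG.2 ⟨hwl, hCL⟩, ?_⟩
  rw [← hxl', List.take_left, List.drop_left, rev_rev, ← dec1, ← dec2]

open Classical in
/-- the number of good pairs is bounded by the number of polygons -/
theorem card_good_le (hd : 1 ≤ d) {ℓ m : ℕ} (hℓ : 1 ≤ ℓ) (hm : 2 * ℓ + 2 ≤ m) :
    ((PR d m m).filter (Good ℓ m)).card ≤ ℓ ^ 4 * (2 * d) ^ (4 * ℓ) * (PG d (2 * m)).card := by
  set R := (Finset.range ℓ) ×ˢ (Finset.range ℓ) ×ˢ (Finset.range ℓ) ×ˢ (Finset.range ℓ) with hR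
  have hsub : (PR d m m).filter (Good ℓ m) ⊆ R.biUnion fun r =>
      (LL d r.1 ×ˢ LL d r.2.1 ×ˢ LL d r.2.2.1 ×ˢ LL d r.2.2.2 ×ˢ
        PG d (2 * m - r.1 - r.2.1 - r.2.2.1 - r.2.2.2)).image fun q =>
        (q.1 ++ (q.2.2.2.2.take (m - r.1 - r.2.2.1) ++ q.2.2.1),
          q.2.1 ++ (rev (q.2.2.2.2.drop (m - r.1 - r.2.2.1)) ++ q.2.2.2.1)) := by
    intro p hp
    rw [Finset.mem_filter] at hp
    obtain ⟨a, ha, b, hb, a', ha', b', hb', u, hu, u', hu', v, hv, v', hv', w, hw, hpe⟩ :=
      good_decomp hℓ hm hp.1 hp.2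
    rw [Finset.mem_biUnion]
    refine ⟨(a, b, a', b'), ?_, ?_⟩
    · rw [hR]
      simp only [Finset.mem_product, Finset.mem_range]
      exact ⟨ha, hb, ha', hb'⟩
    · rw [Finset.mem_image]
      refine ⟨(u, u', v, v', w), ?_, hpe.symm⟩
      simp only [Finset.mem_product]
      exact ⟨hu, hu', hv, hv', hw⟩
  refine (Finset.card_le_card hsub).trans (Finset.card_biUnion_le.trans ?_)
  have hterm : ∀ r ∈ R, ((LL d r.1 ×ˢ LL d r.2.1 ×ˢ LL d r.2.2.1 ×ˢ LL d r.2.2.2 ×ˢ
        PG d (2 * m - r.1 - r.2.1 - r.2.2.1 - r.2.2.2)).image fun q =>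
        (q.1 ++ (q.2.2.2.2.take (m - r.1 - r.2.2.1) ++ q.2.2.1),
          q.2.1 ++ (rev (q.2.2.2.2.drop (m - r.1 - r.2.2.1)) ++ q.2.2.2.1))).card ≤
      (2 * d) ^ (4 * ℓ) * (PG d (2 * m)).card := by
    rintro ⟨a, b, a', b'⟩ hr
    rw [hR] at hr
    simp only [Finset.mem_product, Finset.mem_range] at hr
    refine Finset.card_image_le.trans ?_
    simp only [Finset.card_product, card_LL]
    have h1 : (PG d (2 * m - a - b - a' - b')).card ≤ (PG d (2 * m)).card :=
      card_PG_le_of_le hd (by omega) (by omega)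
    have h2 : (2 * d) ^ a * ((2 * d) ^ b * ((2 * d) ^ a' * ((2 * d) ^ b' *
        (PG d (2 * m - a - b - a' - b')).card))) =
        (2 * d) ^ (a + b + a' + b') * (PG d (2 * m - a - b - a' - b')).card := by
      ring
    rw [h2]
    exact Nat.mul_le_mul (Nat.pow_le_pow_right (by omega) (by omega)) h1
  refine (Finset.sum_le_sum hterm).trans ?_
  rw [Finset.sum_const, smul_eq_mul]
  have hRc : R.card = ℓ ^ 4 := by
    rw [hR]
    simp only [Finset.card_product, Finset.card_range]
    ring
  rw [hRc, mul_assoc]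

/-- pairs which meet at given times -/
theorem card_hit_le {m i j : ℕ} (hi : i ≤ m) (hj : j ≤ m) :
    ((PR d m m).filter fun p => pos (p.1.take i) = pos (p.2.take j)).card ≤
      (PR d i j).card * (PR d (m - i) (m - j)).card := by
  classical
  rw [← Finset.card_product]
  apply Finset.card_le_card_of_injOn
    (fun p => ((p.1.take i, p.2.take j), (p.1.drop i, p.2.drop j)))
  · intro p hp
    have hp' := Finset.mem_filter.1 (Finset.mem_coe.1 hp)
    obtain ⟨h1, h2⟩ := hp'
    rw [mem_PR, mem_SAW, mem_SAW] at h1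
    obtain ⟨⟨hl1, hs1⟩, ⟨hl2, hs2⟩, hpos⟩ := h1
    rw [← List.take_append_drop i p.1] at hs1
    rw [← List.take_append_drop j p.2] at hs2
    have e1 : pos p.1 = pos (p.1.take i) + pos (p.1.drop i) := by
      rw [← pos_append, List.take_append_drop]
    have e2 : pos p.2 = pos (p.2.take j) + pos (p.2.drop j) := by
      rw [← pos_append, List.take_append_drop]
    rw [e1, e2, h2] at hpos
    rw [Finset.mem_coe, Finset.mem_product]
    constructor
    · rw [mem_PR, mem_SAW, mem_SAW]
      exact ⟨⟨by rw [List.length_take]; omega, SA_left hs1⟩,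
        ⟨by rw [List.length_take]; omega, SA_left hs2⟩, h2⟩
    · rw [mem_PR, mem_SAW, mem_SAW]
      exact ⟨⟨by rw [List.length_drop]; omega, SA_right hs1⟩,
        ⟨by rw [List.length_drop]; omega, SA_right hs2⟩, add_left_cancel hpos⟩
  · rintro ⟨p, p'⟩ _ ⟨q, q'⟩ _ h
    simp only [Prod.mk.injEq] at h
    obtain ⟨⟨h1, h2⟩, h3, h4⟩ := h
    rw [← List.take_append_drop i p, ← List.take_append_drop j p', h1, h2, h3, h4,
      List.take_append_drop, List.take_append_drop]

open Classical in
/-- the pairs which are not good -/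
theorem card_bad_le (ℓ m : ℕ) : ((PR d m m).filter fun p => ¬ Good ℓ m p).card ≤
    ∑ r ∈ ((Finset.range (m + 1)) ×ˢ (Finset.range (m + 1))).filter
      (fun r => ¬ ((r.1 < ℓ ∧ r.2 < ℓ) ∨ (m < r.1 + ℓ ∧ m < r.2 + ℓ))),
      (PR d r.1 r.2).card * (PR d (m - r.1) (m - r.2)).card := by
  have hsub : ((PR d m m).filter fun p => ¬ Good ℓ m p) ⊆
      (((Finset.range (m + 1)) ×ˢ (Finset.range (m + 1))).filter
        (fun r => ¬ ((r.1 < ℓ ∧ r.2 < ℓ) ∨ (m < r.1 + ℓ ∧ m < r.2 + ℓ)))).biUnion fun r =>
        (PR d m m).filter fun p => pos (p.1.take r.1) = pos (p.2.take r.2) := by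
    intro p hp
    rw [Finset.mem_filter] at hp
    obtain ⟨hp, hg⟩ := hp
    unfold Good at hg
    push Not at hg
    obtain ⟨i, j, hi, hj, h1, h2, h3⟩ := hg
    rw [Finset.mem_biUnion]
    refine ⟨(i, j), ?_, Finset.mem_filter.2 ⟨hp, h1⟩⟩
    simp only [Finset.mem_filter, Finset.mem_product, Finset.mem_range]
    refine ⟨⟨by omega, by omega⟩, ?_⟩
    rintro (⟨h4, h5⟩ | ⟨h4, h5⟩)
    · have := h2 h4
      omega
    · have := h3 h4
      omega
  refine (Finset.card_le_card hsub).trans (Finset.card_biUnion_le.trans ?_)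
  refine Finset.sum_le_sum fun r hr => ?_
  rw [Finset.mem_filter, Finset.mem_product, Finset.mem_range, Finset.mem_range] at hr
  convert card_hit_le (d := d) (m := m) (i := r.1) (j := r.2) (by omega) (by omega)

end Pool.Agent.helper91.SW
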