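import Pool.Agent.helper91.SW.Diag
import Pool.Agent.helper90.FP.LTrig

/-!
# Self-avoiding walks in high dimensions: symmetry and support of the lace coefficients
-/

set_option autoImplicit false

open Finset
open Pool.Agent.helper55.FP

namespace Pool.Agent.helper91.SW

variable {d : ℕ}

theorem c_zero : (c 0 : V d → ℝ) = dirac0 := by
  funext x
  simp only [c, A, dirac0, eq_comm]

theorem pi_formula (n : ℕ) (v : V d) : pi n v = c (n + 1) v - conv (pJ 1) (c n) v -
    ∑ m ∈ range n, conv (pi m) (c (n - m)) v := by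
  have h := lace n v
  rw [Finset.sum_range_succ, Nat.sub_self, c_zero, conv_dirac0] at h
  linarith

theorem pi_perm (n : ℕ) : PermInv (pi n : V d → ℝ) := by
  induction n using Nat.strong_induction_on with
  | _ n ih =>
    intro σ x
    have hc : ∀ m : ℕ, (fun y : V d => (c m : V d → ℝ) (fun i => y (σ i))) = c m := fun m =>
      funext fun y => c_perm σ m y
    have hJ : (fun y : V d => (pJ 1 : V d → ℝ) (fun i => y (σ i))) = pJ 1 :=
      funext fun y => pJ_perm 1 σ y
    rw [pi_formula, pi_formula, c_perm, conv_perm, hc, hJ]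
    congr 1
    refine Finset.sum_congr rfl fun m hm => ?_
    rw [Finset.mem_range] at hm
    have hp : (fun y : V d => (pi m : V d → ℝ) (fun i => y (σ i))) = pi m :=
      funext fun y => ih m hm σ y
    rw [conv_perm, hc, hp]

theorem P_supp (k : ℕ) : ∀ (m : ℕ) (γ : Finset (V d)) (y v : V d),
    (m : ℤ) < ∑ i, |v i - y i| → P k m γ y v = 0 := by
  have h0 : ∀ (m : ℕ) (y v : V d), (m : ℤ) < ∑ i, |v i - y i| →
      (if m = 0 ∧ v = y then (1 : ℝ) else 0) = 0 := by
    intro m y v h
    rw [if_neg]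
    rintro ⟨h1, h2⟩
    subst h2
    subst h1
    simp at h
  induction k with
  | zero =>
    intro m γ y v h
    simp only [P]
    exact h0 m y v h
  | succ k ih =>
    intro m γ y v h
    simp only [P]
    rw [h0 m y v h, zero_sub, neg_eq_zero]
    refine Finset.sum_eq_zero fun j hj => ?_
    rw [Finset.mem_range] at hj
    rw [← hs_zero_fun j γ {y} y]
    refine hs_congr fun β' u _ _ hu => ?_
    refine ih _ _ _ _ ?_
    have h1 : ∑ i, |v i - y i| ≤ ∑ i, |v i - u i| + ∑ i, |u i - y i| := by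
      rw [← Finset.sum_add_distrib]
      exact Finset.sum_le_sum fun i _ => abs_sub_le _ _ _
    have h2 : ((m - j : ℕ) : ℤ) = (m : ℤ) - j := by omega
    rw [h2]
    linarith

theorem nb_abs_sum (s : Fin d × Bool) : ∑ i, |(nb s : V d) i| = 1 := by
  obtain ⟨j, b⟩ := s
  have : ∀ i, |(nb (j, b) : V d) i| = if i = j then 1 else 0 := by
    intro i
    by_cases hij : i = j
    · subst hij
      cases b <;> simp [nb, LCt_nb]
    · cases b <;> simp [nb, LCt_nb, hij]
  rw [Finset.sum_congr rfl fun i _ => this i]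
  simp

theorem l1_eq (v : V d) : l1 v = ((∑ i, |v i| : ℤ) : ℝ) := by
  unfold l1
  push_cast
  rfl

theorem pi_supp (m : ℕ) (v : V d) (h : pi m v ≠ 0) : l1 v ≤ m + 1 := by
  unfold pi at h
  obtain ⟨s, _, hs⟩ := Finset.exists_ne_zero_of_sum_ne_zero h
  have h1 : ∑ i, |v i - (nb s : V d) i| ≤ m := by
    by_contra hcon
    rw [not_le] at hcon
    apply hs
    rw [P_supp m m _ _ _ hcon, zero_sub, neg_eq_zero, if_neg]
    rintro ⟨h1, h2⟩
    subst h2
    subst h1
    simp at hcon
  have h2 : ∑ i, |v i| ≤ ∑ i, |v i - (nb s : V d) i| + ∑ i, |(nb s : V d) i| := by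
    rw [← Finset.sum_add_distrib]
    refine Finset.sum_le_sum fun i _ => ?_
    have := abs_add_le (v i - (nb s : V d) i) ((nb s : V d) i)
    rwa [sub_add_cancel] at this
  rw [nb_abs_sum] at h2
  rw [l1_eq]
  have h3 : ∑ i, |v i| ≤ (m : ℤ) + 1 := by linarith
  calc ((∑ i, |v i| : ℤ) : ℝ) ≤ (((m : ℤ) + 1 : ℤ) : ℝ) := by exact_mod_cast h3
    _ = m + 1 := by push_cast; ring

theorem pi_zero : (pi 0 : V d → ℝ) = fun _ => 0 := by
  funext v
  unfold pi
  simp [P]

/-- second moment bound -/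
theorem pi_weighted (m : ℕ) : Summable (fun v : V d => (1 + l1 v ^ 2) * |pi m v|) ∧
    ∑' v : V d, (1 + l1 v ^ 2) * |pi m v| ≤ (2 + m : ℝ) ^ 2 * ∑' v : V d, |pi m v| := by
  have h1 : ∀ v : V d, (1 + l1 v ^ 2) * |pi m v| ≤ (2 + m : ℝ) ^ 2 * |pi m v| := by
    intro v
    by_cases h : pi m v = 0
    · simp [h]
    · have h2 := pi_supp m v h
      have h3 := l1_nonneg v
      have h4 : l1 v ^ 2 ≤ (m + 1 : ℝ) ^ 2 := pow_le_pow_left₀ h3 h2 2
      refine mul_le_mul_of_nonneg_right ?_ (abs_nonneg _)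
      have : (0 : ℝ) ≤ m := Nat.cast_nonneg m
      nlinarith
  have h2 : Summable (fun v : V d => (1 + l1 v ^ 2) * |pi m v|) :=
    Summable.of_nonneg_of_le (fun v => by positivity) h1 ((pi_summable m).abs.mul_left _)
  refine ⟨h2, ?_⟩
  rw [← tsum_mul_left]
  exact h2.tsum_le_tsum h1 ((pi_summable m).abs.mul_left _)

/-- mass of a lace coefficient -/
noncomputable def npi (d m : ℕ) : ℝ := ∑' v : V d, |pi m v|

theorem npi_nonneg (m : ℕ) : 0 ≤ npi d m := tsum_nonneg fun _ => abs_nonneg _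

/-- the Fourier coefficient of the lace coefficients varies like `1 - Dh` -/
theorem ct_pi_sub (hd : 1 ≤ d) (m : ℕ) (k : Fin d → ℝ) :
    |ct (pi m : V d → ℝ) 0 - ct (pi m : V d → ℝ) k| ≤
      (2 + m : ℝ) ^ 2 * npi d m * (1 - Dh k) := by
  have hQ := pi_summable (d := d) m
  have hQa := hQ.abs
  have e1 : ct (pi m : V d → ℝ) 0 - ct (pi m : V d → ℝ) k =
      ∑' x : V d, pi m x * (1 - Real.cos (dotk k x)) := by
    rw [ct_zero]
    unfold ct
    rw [← Summable.tsum_sub hQ (ct_summable hQ k)]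
    refine tsum_congr (fun x => by ring)
  have hcos : ∀ x : V d, 0 ≤ 1 - Real.cos (dotk k x) := fun x => by
    linarith [Real.cos_le_one (dotk k x)]
  have hs : Summable (fun x : V d => |pi m x| * (1 - Real.cos (dotk k x))) := by
    refine Summable.of_nonneg_of_le (fun x => mul_nonneg (abs_nonneg _) (hcos x)) (fun x => ?_)
      (hQa.mul_right 2)
    exact mul_le_mul_of_nonneg_left (by linarith [Real.neg_one_le_cos (dotk k x)])
      (abs_nonneg _)
  have hD : 0 ≤ 1 - Dh k := by
    have := abs_le.1 (abs_Dh_le_one k)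
    linarith [this.2]
  rw [e1]
  calc |∑' x : V d, pi m x * (1 - Real.cos (dotk k x))|
      ≤ ∑' x : V d, |pi m x * (1 - Real.cos (dotk k x))| := by
        have h2 : Summable (fun x : V d => ‖pi m x * (1 - Real.cos (dotk k x))‖) := by
          refine hs.congr (fun x => ?_)
          rw [Real.norm_eq_abs, abs_mul, abs_of_nonneg (hcos x)]
        exact norm_tsum_le_tsum_norm h2
    _ = ∑' x : V d, |pi m x| * (1 - Real.cos (dotk k x)) :=
        tsum_congr (fun x => by rw [abs_mul, abs_of_nonneg (hcos x)])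
    _ ≤ (∑' x : V d, (1 + l1 x ^ 2) * |pi m x|) * (1 - Dh k) :=
        sum_one_sub_cos_le hd (pi_weighted m).1 (pi_perm m) k
    _ ≤ (2 + m : ℝ) ^ 2 * npi d m * (1 - Dh k) :=
        mul_le_mul_of_nonneg_right (pi_weighted m).2 hD

theorem abs_ct_pi_le (m : ℕ) (k : Fin d → ℝ) : |ct (pi m : V d → ℝ) k| ≤ npi d m :=
  abs_ct_le (pi_summable m) k

/-- the lace recursion in Fourier space -/
theorem ct_lace (n : ℕ) (k : Fin d → ℝ) : ct (c (n + 1) : V d → ℝ) k =
    2 * d * Dh k * ct (c n : V d → ℝ) k +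
      ∑ m ∈ range (n + 1), ct (pi m : V d → ℝ) k * ct (c (n - m) : V d → ℝ) k := by
  have e1 : (c (n + 1) : V d → ℝ) = fun x => conv (pJ 1) (c n) x +
    (∑ m ∈ range (n + 1), conv (pi m) (c (n - m)) x) := funext fun x => lace n x
  have hsum : ∀ (N : ℕ), Summable (fun x : V d => ∑ m ∈ range N, conv (pi m) (c (n - m)) x) ∧
      ct (fun x : V d => ∑ m ∈ range N, conv (pi m) (c (n - m)) x) k =
        ∑ m ∈ range N, ct (pi m : V d → ℝ) k * ct (c (n - m) : V d → ℝ) k := by
    intro N
    induction N with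
    | zero => simp [ct]
    | succ N ih =>
      have h1 : Summable (conv (pi N : V d → ℝ) (c (n - N))) :=
        conv_summable (pi_summable N) (c_summable _)
      constructor
      · simp only [Finset.sum_range_succ]
        exact ih.1.add h1
      · simp only [Finset.sum_range_succ]
        rw [ct_add ih.1 h1, ih.2, ct_conv (pi_summable N) (c_summable _) (c_even _)]
  rw [e1, ct_add (conv_summable (pJ_summable 1) (c_summable n)) (hsum _).1, (hsum _).2,
    ct_conv (pJ_summable 1) (c_summable n) (c_even n), ct_pJ, mul_one]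

theorem ct_c_zero (k : Fin d → ℝ) : ct (c 0 : V d → ℝ) k = 1 := by
  rw [c_zero, ct_dirac0]

theorem abs_ct_c_le (n : ℕ) (k : Fin d → ℝ) : |ct (c n : V d → ℝ) k| ≤ ∑' x : V d, c n x := by
  refine (abs_ct_le (c_summable n) k).trans (le_of_eq ?_)
  exact tsum_congr fun x => abs_of_nonneg (c_nonneg _ _)

end Pool.Agent.helper91.SW
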